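import Mathlib
import Pool.Agent.H715R2.Orbit

/-!
# Values of a form in a rational subspace of the real numbers

If some coefficient of the polynomial `P` is not in the `ℚ`-subspace `E` of `ℝ`, then there is a
nonzero polynomial `G` whose monomials are monomials of `P` and which vanishes at all integer points
at which the value of `P` is in `E`.  In the coordinates given by the linear forms `L i` two of the
monomials of `G` must be of comparable size at such a point.
-/

set_option autoImplicit false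

open MvPolynomial Matrix

namespace Pool.Agent.Q118.VC

open H715R2

variable {d : ℕ}

lemma eval_iR (P : MvPolynomial (Fin d) ℝ) (x : Fin d → ℤ) :
    eval (iR x) P = ∑ m ∈ P.support, (∏ i ∈ m.support, (x i : ℚ) ^ m i) • coeff m P := by
  rw [eval_eq]
  refine Finset.sum_congr rfl fun m _ => ?_
  rw [Rat.smul_def, mul_comm]
  push_cast
  rfl

/-- The values at integer points lie in `E` if the coefficients do. -/
lemma eval_mem {P : MvPolynomial (Fin d) ℝ} {E : Submodule ℚ ℝ} (h : ∀ m, coeff m P ∈ E)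
    (x : Fin d → ℤ) : eval (iR x) P ∈ E := by
  rw [eval_iR]
  exact Submodule.sum_mem _ fun m _ => E.smul_mem _ (h m)

lemma exists_relation {P : MvPolynomial (Fin d) ℝ} {E : Submodule ℚ ℝ} {m₀ : Fin d →₀ ℕ}
    (h : coeff m₀ P ∉ E) : ∃ G : MvPolynomial (Fin d) ℝ, G ≠ 0 ∧ G.support ⊆ P.support ∧
      ∀ x : Fin d → ℤ, eval (iR x) P ∈ E → eval (iR x) G = 0 := by
  classical
  obtain ⟨φ, hφ, hE⟩ := Submodule.exists_le_ker_of_notMem h
  set G : MvPolynomial (Fin d) ℝ := ∑ m ∈ P.support, monomial m ((φ (coeff m P) : ℚ) : ℝ) with hG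
  have hc : ∀ m, coeff m G = ((φ (coeff m P) : ℚ) : ℝ) := by
    intro m
    rw [hG, coeff_sum]
    simp only [coeff_monomial]
    rw [Finset.sum_ite_eq']
    split_ifs with hm
    · rfl
    · rw [notMem_support_iff.1 hm]; simp
  refine ⟨G, ?_, ?_, ?_⟩
  · intro h0
    apply hφ
    have := hc m₀
    rw [h0, coeff_zero] at this
    exact_mod_cast this.symm
  · intro m hm
    rw [mem_support_iff] at hm ⊢
    intro h0
    apply hm
    rw [hc, h0]; simp
  · intro x hx
    have h1 : eval (iR x) G = ((φ (eval (iR x) P) : ℚ) : ℝ) := by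
      rw [hG, map_sum, eval_iR P x, map_sum]
      push_cast
      refine Finset.sum_congr rfl fun m _ => ?_
      rw [eval_monomial, map_smul, smul_eq_mul, Finsupp.prod]
      push_cast
      rw [mul_comm]
      rfl
    rw [h1, LinearMap.mem_ker.1 (hE hx)]; simp

/-- The coefficients lie in `E` if the values at integer points do. -/
lemma coeff_mem {P : MvPolynomial (Fin d) ℝ} {E : Submodule ℚ ℝ}
    (h : ∀ x : Fin d → ℤ, eval (iR x) P ∈ E) (m : Fin d →₀ ℕ) : coeff m P ∈ E := by
  by_contra hm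
  obtain ⟨G, hG0, -, hG⟩ := exists_relation hm
  apply hG0
  refine MvPolynomial.funext_set (fun _ : Fin d => Set.range (Int.cast : ℤ → ℝ))
    (fun _ => ?_) (fun x hx => ?_)
  · exact Set.infinite_range_of_injective Int.cast_injective
  · have h2 : ∀ i, ∃ z : ℤ, (z : ℝ) = x i := fun i => hx i (Set.mem_univ i)
    choose y hy using h2
    have h3 : x = iR y := by
      funext i
      exact (hy i).symm
    rw [h3, hG y (h y), map_zero]

/-- homogeneity -/
lemma polyF_homogeneous (g : Matrix (Fin d) (Fin d) ℝ) : (polyF g).IsHomogeneous d := by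
  unfold polyF
  have h1 : (∏ i : Fin d, ∑ j : Fin d, (C (g i j) * X j : MvPolynomial (Fin d) ℝ)).IsHomogeneous
      (∑ _i : Fin d, 1) := by
    refine IsHomogeneous.prod _ _ _ fun i _ => ?_
    refine IsHomogeneous.sum _ _ _ fun j _ => ?_
    exact isHomogeneous_C_mul_X _ _
  simpa using h1

lemma sum_of_mem {H : MvPolynomial (Fin d) ℝ} {n : ℕ} (hH : H.IsHomogeneous n)
    {m : Fin d →₀ ℕ} (hm : m ∈ H.support) : ∑ i, m i = n := by
  have h2 := hH (mem_support_iff.1 hm)
  rw [Finsupp.weight_apply, Finsupp.sum_fintype _ _ (fun i => by simp)] at h2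
  simpa using h2

lemma homogeneous_of_support {P G : MvPolynomial (Fin d) ℝ} {n : ℕ} (hP : P.IsHomogeneous n)
    (h : G.support ⊆ P.support) : G.IsHomogeneous n := by
  intro m hm
  exact hP (mem_support_iff.1 (h (mem_support_iff.2 hm)))

/-- the polynomial in the coordinates given by the rows of `g` -/
noncomputable def sub (g : Matrix (Fin d) (Fin d) ℝ) (G : MvPolynomial (Fin d) ℝ) :
    MvPolynomial (Fin d) ℝ :=
  aeval (fun j => ∑ i, C (g⁻¹ j i) * (X i : MvPolynomial (Fin d) ℝ)) G

lemma sub_homogeneous (g : Matrix (Fin d) (Fin d) ℝ) {G : MvPolynomial (Fin d) ℝ} {n : ℕ}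
    (hG : G.IsHomogeneous n) : (sub g G).IsHomogeneous n := by
  have h1 := hG.aeval (fun j => ∑ i, C (g⁻¹ j i) * (X i : MvPolynomial (Fin d) ℝ)) (n := 1)
    (fun j => IsHomogeneous.sum _ _ _ fun i _ => isHomogeneous_C_mul_X _ _)
  rwa [one_mul] at h1

lemma eval_sub (g : Matrix (Fin d) (Fin d) ℝ) (G : MvPolynomial (Fin d) ℝ) (z : Fin d → ℝ) :
    eval z (sub g G) = eval (g⁻¹ *ᵥ z) G := by
  unfold sub
  rw [map_aeval]
  have h1 : ((eval z).comp (algebraMap ℝ (MvPolynomial (Fin d) ℝ))) = RingHom.id ℝ := by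
    ext r
    simp
  rw [h1]
  have h2 : (fun j => (eval z) (∑ i, C (g⁻¹ j i) * (X i : MvPolynomial (Fin d) ℝ))) =
      g⁻¹ *ᵥ z := by
    funext j
    rw [map_sum, mulVec, dotProduct]
    refine Finset.sum_congr rfl fun i _ => ?_
    rw [map_mul, eval_C, eval_X]
  rw [h2]
  rfl

lemma eval_sub_mulVec {g : Matrix (Fin d) (Fin d) ℝ} (hg : g.det ≠ 0)
    (G : MvPolynomial (Fin d) ℝ) (x : Fin d → ℝ) :
    eval (g *ᵥ x) (sub g G) = eval x G := by
  rw [eval_sub, mulVec_mulVec, Matrix.nonsing_inv_mul _ (isUnit_iff_ne_zero.2 hg), one_mulVec]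

lemma sub_ne {g : Matrix (Fin d) (Fin d) ℝ} (hg : g.det ≠ 0)
    {G : MvPolynomial (Fin d) ℝ} (hG : G ≠ 0) : sub g G ≠ 0 := by
  intro h0
  apply hG
  refine MvPolynomial.funext fun x => ?_
  rw [← eval_sub_mulVec hg G x, h0, map_zero, map_zero]

/-- the number of monomials of degree `n` -/
lemma card_support_le {H : MvPolynomial (Fin d) ℝ} {n : ℕ} (hH : H.IsHomogeneous n) :
    H.support.card ≤ (n + 1) ^ d := by
  classical
  have h1 : H.support.card ≤ (Fintype.piFinset fun _ : Fin d => Finset.range (n + 1)).card := by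
    refine Finset.card_le_card_of_injOn (fun m i => m i) (fun m hm => ?_) ?_
    · rw [Finset.mem_coe, Fintype.mem_piFinset]
      intro i
      rw [Finset.mem_range]
      have h2 := sum_of_mem hH hm
      have h3 : m i ≤ ∑ j, m j := Finset.single_le_sum (fun _ _ => Nat.zero_le _)
        (Finset.mem_univ i)
      exact Nat.lt_succ_of_le (h3.trans h2.le)
    · intro m _ m' _ h
      ext i
      exact congrFun h i
  rwa [Fintype.card_piFinset, Finset.prod_const, Finset.card_range, Finset.card_univ,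
    Fintype.card_fin] at h1

/-- the size of a term -/
noncomputable def tm (H : MvPolynomial (Fin d) ℝ) (z : Fin d → ℝ) (m : Fin d →₀ ℕ) : ℝ :=
  |coeff m H| * ∏ i, |z i| ^ m i

lemma tm_pos {H : MvPolynomial (Fin d) ℝ} {z : Fin d → ℝ} (hz : ∀ i, z i ≠ 0) {m : Fin d →₀ ℕ}
    (hm : m ∈ H.support) : 0 < tm H z m :=
  mul_pos (abs_pos.2 (mem_support_iff.1 hm)) (Finset.prod_pos fun i _ => pow_pos (abs_pos.2 (hz i)) _)

lemma log_tm {H : MvPolynomial (Fin d) ℝ} {z : Fin d → ℝ} (hz : ∀ i, z i ≠ 0) {m : Fin d →₀ ℕ}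
    (hm : m ∈ H.support) :
    Real.log (tm H z m) = Real.log |coeff m H| + ∑ i, (m i : ℝ) * Real.log |z i| := by
  unfold tm
  rw [Real.log_mul (abs_pos.2 (mem_support_iff.1 hm)).ne'
    (Finset.prod_pos fun i _ => pow_pos (abs_pos.2 (hz i)) _).ne',
    Real.log_prod fun i _ => (pow_pos (abs_pos.2 (hz i)) _).ne']
  congr 1
  refine Finset.sum_congr rfl fun i _ => ?_
  rw [Real.log_pow]

/-- **Two comparable terms.** -/
lemma two_terms {H : MvPolynomial (Fin d) ℝ} (hH : H ≠ 0) {z : Fin d → ℝ} (hz : ∀ i, z i ≠ 0)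
    (h0 : eval z H = 0) : ∃ β ∈ H.support, ∃ γ ∈ H.support, β ≠ γ ∧
      |∑ i, ((β i : ℝ) - γ i) * Real.log |z i| -
        (Real.log |coeff γ H| - Real.log |coeff β H|)| ≤ Real.log H.support.card := by
  classical
  have hne : H.support.Nonempty := by
    rw [Finset.nonempty_iff_ne_empty]
    exact fun h => hH (support_eq_empty.1 h)
  obtain ⟨β, hβ, hβmax⟩ := H.support.exists_max_image (tm H z) hne
  have hβ0 := tm_pos hz hβ
  have habs : ∀ m, |coeff m H * ∏ i, z i ^ m i| = tm H z m := by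
    intro m
    rw [abs_mul, Finset.abs_prod, tm]
    congr 1
    exact Finset.prod_congr rfl fun i _ => abs_pow _ _
  have h1 : tm H z β ≤ ∑ m ∈ H.support.erase β, tm H z m := by
    rw [eval_eq'] at h0
    rw [← Finset.add_sum_erase _ _ hβ] at h0
    have h2 : coeff β H * ∏ i, z i ^ β i =
        -∑ m ∈ H.support.erase β, coeff m H * ∏ i, z i ^ m i := by linarith
    rw [← habs β, h2, abs_neg]
    refine (Finset.abs_sum_le_sum_abs _ _).trans (Finset.sum_le_sum fun m _ => ?_)
    rw [habs]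
  have hne2 : (H.support.erase β).Nonempty := by
    rw [Finset.nonempty_iff_ne_empty]
    intro h
    rw [h, Finset.sum_empty] at h1
    linarith
  obtain ⟨γ, hγ, hγmax⟩ := (H.support.erase β).exists_max_image (tm H z) hne2
  have hγ' := Finset.mem_erase.1 hγ
  have hγ0 := tm_pos hz hγ'.2
  have hN : 0 < (H.support.card : ℝ) := by exact_mod_cast Finset.card_pos.2 hne
  have h2 : tm H z β ≤ H.support.card * tm H z γ := by
    refine h1.trans ((Finset.sum_le_sum hγmax).trans ?_)
    rw [Finset.sum_const, nsmul_eq_mul]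
    refine mul_le_mul_of_nonneg_right ?_ hγ0.le
    exact_mod_cast Finset.card_le_card (Finset.erase_subset _ _)
  have h3 : Real.log (tm H z γ) ≤ Real.log (tm H z β) :=
    Real.log_le_log hγ0 (hβmax γ hγ'.2)
  have h4 : Real.log (tm H z β) ≤ Real.log H.support.card + Real.log (tm H z γ) := by
    rw [← Real.log_mul hN.ne' hγ0.ne']
    exact Real.log_le_log hβ0 h2
  refine ⟨β, hβ, γ, hγ'.2, hγ'.1.symm, ?_⟩
  have h5 : ∑ i, ((β i : ℝ) - γ i) * Real.log |z i| -
        (Real.log |coeff γ H| - Real.log |coeff β H|) =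
      Real.log (tm H z β) - Real.log (tm H z γ) := by
    rw [log_tm hz hβ, log_tm hz hγ'.2]
    simp only [sub_mul, Finset.sum_sub_distrib]
    ring
  rw [h5, abs_of_nonneg (by linarith)]
  linarith

/-- **Zeros of a homogeneous polynomial, geometric form.**  Let `G` be a nonzero homogeneous
polynomial of degree `D`.  There are constants `c β γ` such that at every zero of `G` at which the
product of the linear forms is not zero, two different monomials of degree `D` in the absolute
values of the linear forms have a ratio within a factor `(D + 1) ^ d` of `exp (c β γ)`. -/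
theorem structure_zero {g : Matrix (Fin d) (Fin d) ℝ} (hg : g.det ≠ 0)
    {G : MvPolynomial (Fin d) ℝ} {D : ℕ} (hG0 : G ≠ 0) (hG : G.IsHomogeneous D) :
    ∃ c : (Fin d → ℕ) → (Fin d → ℕ) → ℝ, ∀ x : Fin d → ℝ, FF g x ≠ 0 → eval x G = 0 →
      ∃ β γ : Fin d → ℕ, β ≠ γ ∧ ∑ i, β i = D ∧ ∑ i, γ i = D ∧
        |∑ i, ((β i : ℝ) - γ i) * Real.log |(g *ᵥ x) i| - c β γ| ≤ d * Real.log (D + 1) := by
  classical
  set H := sub g G with hH
  have hHh : H.IsHomogeneous D := sub_homogeneous g hG
  have hH0 : H ≠ 0 := sub_ne hg hG0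
  have hdeg : ∀ m ∈ H.support, ∑ i, m i = D := fun m hm => sum_of_mem hHh hm
  refine ⟨fun β γ => Real.log |coeff (Finsupp.equivFunOnFinite.symm γ) H| -
    Real.log |coeff (Finsupp.equivFunOnFinite.symm β) H|, fun x hx hxG => ?_⟩
  have hFz : FF g x = ∏ i, (g *ᵥ x) i := rfl
  have hz : ∀ i, (g *ᵥ x) i ≠ 0 := by
    intro i h0
    apply hx
    rw [hFz]
    exact Finset.prod_eq_zero (Finset.mem_univ i) h0
  have hev : eval (g *ᵥ x) H = 0 := by
    rw [hH, eval_sub_mulVec hg]
    exact hxG
  obtain ⟨β, hβ, γ, hγ, hne, hle⟩ := two_terms hH0 hz hev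
  refine ⟨β, γ, fun h => hne (DFunLike.coe_injective h), hdeg β hβ, hdeg γ hγ, ?_⟩
  have h1 : Finsupp.equivFunOnFinite.symm (β : Fin d → ℕ) = β := by
    ext i; rfl
  have h2 : Finsupp.equivFunOnFinite.symm (γ : Fin d → ℕ) = γ := by
    ext i; rfl
  simp only [h1, h2]
  refine hle.trans ?_
  have h3 : (H.support.card : ℝ) ≤ ((D : ℝ) + 1) ^ d := by
    exact_mod_cast card_support_le hHh
  have h4 : 0 < (H.support.card : ℝ) := by
    have : 0 < H.support.card := Finset.card_pos.2 ⟨β, hβ⟩
    exact_mod_cast this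
  calc Real.log H.support.card ≤ Real.log (((D : ℝ) + 1) ^ d) := Real.log_le_log h4 h3
    _ = d * Real.log (D + 1) := by rw [Real.log_pow]

end Pool.Agent.Q118.VC
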