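import Mathlib

/-!
# Integer points of a cube with two bounded linear functions
-/

set_option autoImplicit false

namespace Pool.Agent.Q118.VC

variable {d : ℕ}

/-- The number of integer points of the cube of radius `M` at which the sum of the coordinates and
another linear function, not a multiple of the sum, have values in given finite sets. -/
lemma slab_card (a : Fin d → ℤ) {i j : Fin d} (hij : a i ≠ a j) (M : ℕ) (I₀ I₁ : Finset ℤ)
    (S : Finset (Fin d → ℤ))
    (hS : ∀ m ∈ S, (∀ k, |m k| ≤ (M : ℤ)) ∧ ∑ k, m k ∈ I₀ ∧ ∑ k, a k * m k ∈ I₁) :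
    S.card ≤ I₀.card * I₁.card * (2 * M + 1) ^ (d - 2) := by
  classical
  have hne : i ≠ j := fun h => hij (by rw [h])
  set Q : Finset (Fin d) := ({i, j} : Finset (Fin d))ᶜ with hQ
  have hQc : Q.card = d - 2 := by
    rw [hQ, Finset.card_compl, Finset.card_pair hne, Fintype.card_fin]
  set B : Finset (Q → ℤ) := Fintype.piFinset fun _ => Finset.Icc (-(M : ℤ)) M with hB
  have hBc : B.card = (2 * M + 1) ^ (d - 2) := by
    rw [hB, Fintype.card_piFinset, Finset.prod_const, Finset.card_univ, Fintype.card_coe, hQc,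
      Int.card_Icc]
    congr 1
    omega
  have h1 : S.card ≤ ((I₀ ×ˢ I₁) ×ˢ B).card := by
    refine Finset.card_le_card_of_injOn
      (fun m => ((∑ k, m k, ∑ k, a k * m k), fun q : Q => m q)) (fun m hm => ?_) ?_
    · obtain ⟨h1, h2, h3⟩ := hS m hm
      rw [Finset.mem_coe, Finset.mem_product, Finset.mem_product]
      refine ⟨⟨h2, h3⟩, Fintype.mem_piFinset.2 fun q => ?_⟩
      rw [Finset.mem_Icc]
      exact abs_le.1 (h1 q)
    · intro m _ m' _ h
      simp only [Prod.mk.injEq] at h
      obtain ⟨⟨h2, h3⟩, h4⟩ := h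
      have hz : ∀ k, k ≠ i ∧ k ≠ j → m k - m' k = 0 := by
        intro k hk
        have hkQ : k ∈ Q := by
          rw [hQ, Finset.mem_compl, Finset.mem_insert, Finset.mem_singleton]
          tauto
        have := congrFun h4 ⟨k, hkQ⟩
        simp only at this
        rw [this, sub_self]
      have h5 : (m i - m' i) + (m j - m' j) = 0 := by
        rw [← Fintype.sum_eq_add i j hne (f := fun k => m k - m' k) hz, Finset.sum_sub_distrib, h2,
          sub_self]
      have h6 : a i * (m i - m' i) + a j * (m j - m' j) = 0 := by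
        rw [← Fintype.sum_eq_add i j hne (f := fun k => a k * (m k - m' k))
          (fun k hk => by rw [hz k hk, mul_zero])]
        simp only [mul_sub, Finset.sum_sub_distrib]
        rw [h3, sub_self]
      have h7 : (a i - a j) * (m i - m' i) = 0 := by linear_combination h6 - a j * h5
      have h8 : m i - m' i = 0 := by
        rcases mul_eq_zero.1 h7 with h | h
        · exact absurd (sub_eq_zero.1 h) hij
        · exact h
      funext k
      by_cases hki : k = i
      · rw [hki]; linarith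
      by_cases hkj : k = j
      · rw [hkj]; linarith
      · linarith [hz k ⟨hki, hkj⟩]
  rw [Finset.card_product, Finset.card_product, hBc] at h1
  exact h1

/-- two exponent vectors with the same sum differ in a non-constant way -/
lemma exists_ne_of_sum {β γ : Fin d → ℕ} {D : ℕ} (hne : β ≠ γ) (hβ : ∑ i, β i = D)
    (hγ : ∑ i, γ i = D) :
    ∃ i j, (β i : ℤ) - γ i ≠ (β j : ℤ) - γ j := by
  by_contra hcon
  push Not at hcon
  obtain ⟨k, hk⟩ : ∃ k, β k ≠ γ k := by
    by_contra h
    push Not at h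
    exact hne (funext h)
  have h1 : ∑ i, ((β i : ℤ) - γ i) = 0 := by
    rw [Finset.sum_sub_distrib]
    have h2 : (∑ i, (β i : ℤ)) = D := by exact_mod_cast hβ
    have h3 : (∑ i, (γ i : ℤ)) = D := by exact_mod_cast hγ
    rw [h2, h3, sub_self]
  have h2 : ∑ i, ((β i : ℤ) - γ i) = d * ((β k : ℤ) - γ k) := by
    rw [Finset.sum_congr rfl fun i _ => hcon i k, Finset.sum_const, Finset.card_univ,
      Fintype.card_fin, nsmul_eq_mul]
  rw [h1] at h2
  have hd : (d : ℤ) ≠ 0 := by
    have := k.pos
    omega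
  rcases mul_eq_zero.1 h2.symm with h | h
  · exact hd h
  · exact hk (by omega)

lemma card_Icc_le (p q : ℝ) (hpq : p ≤ q) :
    (Finset.Icc ⌈p⌉ ⌊q⌋).card ≤ ⌊q - p⌋₊ + 1 := by
  rw [Int.card_Icc, Int.toNat_le]
  have h1 : ((⌊q⌋ - ⌈p⌉ : ℤ) : ℝ) ≤ q - p := by
    push_cast
    linarith [Int.floor_le q, Int.le_ceil p]
  have h2 : ⌊q⌋ - ⌈p⌉ ≤ ⌊q - p⌋ := Int.le_floor.2 h1
  have h3 : (⌊q - p⌋₊ : ℤ) = ⌊q - p⌋ := by
    rw [Int.natCast_floor_eq_floor (by linarith)]
  push_cast
  rw [h3]
  linarith

end Pool.Agent.Q118.VC
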