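import Mathlib
import Pool.Agent.H715R2.Compact
import Pool.Agent.Q118.VC.Alg
import Pool.Agent.Q118.VC.Slab

/-!
# Points with small value in the same cell, and the upper bound
-/

set_option autoImplicit false

open MvPolynomial Matrix

namespace Pool.Agent.Q118.VC

open H715R2

variable {d : ℕ}

lemma FF_eq_prod (g : Matrix (Fin d) (Fin d) ℝ) (x : Fin d → ℝ) : FF g x = ∏ i, (g *ᵥ x) i := rfl

lemma coord_ne {g : Matrix (Fin d) (Fin d) ℝ} {x : Fin d → ℝ} (h : FF g x ≠ 0) (i : Fin d) :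
    (g *ᵥ x) i ≠ 0 := by
  intro h0
  exact h (Finset.prod_eq_zero (Finset.mem_univ i) h0)

lemma iR_sub (x y : Fin d → ℤ) : iR (x - y) = iR x - iR y := by
  funext i
  simp [iR]

/-- two numbers of the same sign and of almost the same size -/
lemma near {u v ρ : ℝ} (hρ : 0 < ρ) (hu : u ≠ 0) (hv : v ≠ 0) (hs : 0 < u ↔ 0 < v)
    (hl : |(Real.log |u| - Real.log |v|)| < Real.log (1 + ρ)) : |u - v| ≤ ρ * |v| := by
  have hu' := abs_pos.2 hu
  have hv' := abs_pos.2 hv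
  have h1 : |u| < (1 + ρ) * |v| := by
    have h2 : Real.log |u| < Real.log ((1 + ρ) * |v|) := by
      rw [Real.log_mul (by linarith) hv'.ne']
      linarith [(abs_lt.1 hl).2]
    exact (Real.log_lt_log_iff hu' (by positivity)).1 h2
  have h2 : |v| < (1 + ρ) * |u| := by
    have h2 : Real.log |v| < Real.log ((1 + ρ) * |u|) := by
      rw [Real.log_mul (by linarith) hu'.ne']
      linarith [(abs_lt.1 hl).1]
    exact (Real.log_lt_log_iff hv' (by positivity)).1 h2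
  have h3 : |u - v| = |(|u| - |v|)| := by
    by_cases h : 0 < u
    · rw [abs_of_pos h, abs_of_pos (hs.1 h)]
    · have h4 : u < 0 := lt_of_le_of_ne (not_lt.1 h) hu
      have h5 : v < 0 := lt_of_le_of_ne (not_lt.1 (fun h' => h (hs.2 h'))) hv
      rw [abs_of_neg h4, abs_of_neg h5, ← abs_neg]
      congr 1
      ring
  rw [h3, abs_le]
  constructor
  · -- |v| - |u| ≤ ρ |v|
    have h4 : |v| - |u| ≤ ρ * |u| := by linarith
    by_cases h5 : |u| ≤ |v|
    · have := mul_le_mul_of_nonneg_left h5 hρ.le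
      linarith
    · have h6 := mul_pos hρ hv'
      linarith
  · linarith

/-- **Cells.** -/
lemma same_cell (hd : 0 < d) {g : Matrix (Fin d) (Fin d) ℝ} {ν T : ℝ} (hν : 0 < ν) (hνT : ν ≤ T)
    (hnu : HasNu g ν) {x y : Fin d → ℤ} (hx : FF g (iR x) ≠ 0) (hy : FF g (iR y) ≠ 0)
    (hyT : |FF g (iR y)| < T) (hs : ∀ i, (0 < (g *ᵥ iR x) i ↔ 0 < (g *ᵥ iR y) i))
    (hf : ∀ i, ⌊Real.log |(g *ᵥ iR x) i| / Real.log (1 + ν / T)⌋ =
      ⌊Real.log |(g *ᵥ iR y) i| / Real.log (1 + ν / T)⌋) : x = y := by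
  by_contra hne
  have hT : 0 < T := hν.trans_le hνT
  have hρ : 0 < ν / T := div_pos hν hT
  have hρ1 : ν / T ≤ 1 := (div_le_one hT).2 hνT
  have hη : 0 < Real.log (1 + ν / T) := Real.log_pos (by linarith)
  have h1 := hnu (x - y) (sub_ne_zero.2 hne)
  have h2 : ∀ i, |(g *ᵥ iR (x - y)) i| ≤ ν / T * |(g *ᵥ iR y) i| := by
    intro i
    rw [iR_sub, mulVec_sub, Pi.sub_apply]
    refine near hρ (coord_ne hx i) (coord_ne hy i) (hs i) ?_
    have h3 := Int.abs_sub_lt_one_of_floor_eq_floor (hf i)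
    rw [← sub_div, abs_div, abs_of_pos hη, div_lt_one hη] at h3
    exact h3
  have h3 : |FF g (iR (x - y))| ≤ ∏ i, (ν / T * |(g *ᵥ iR y) i|) := by
    rw [FF_eq_prod, Finset.abs_prod]
    exact Finset.prod_le_prod (fun i _ => abs_nonneg _) fun i _ => h2 i
  rw [Finset.prod_mul_distrib, Finset.prod_const, Finset.card_univ, Fintype.card_fin,
    ← Finset.abs_prod, ← FF_eq_prod] at h3
  have h4 : (ν / T) ^ d ≤ ν / T := pow_le_of_le_one hρ.le hρ1 hd.ne'
  have h5 : (ν / T) ^ d * |FF g (iR y)| ≤ ν / T * |FF g (iR y)| :=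
    mul_le_mul_of_nonneg_right h4 (abs_nonneg _)
  have h6 : ν / T * |FF g (iR y)| < ν / T * T := mul_lt_mul_of_pos_left hyT hρ
  rw [div_mul_cancel₀ _ hT.ne'] at h6
  linarith

/-- the vector of the rounded logarithms -/
noncomputable def fl (η : ℝ) (g : Matrix (Fin d) (Fin d) ℝ) (x : Fin d → ℤ) : Fin d → ℤ :=
  fun i => ⌊Real.log |(g *ᵥ iR x) i| / η⌋

lemma sum_log {g : Matrix (Fin d) (Fin d) ℝ} {x : Fin d → ℤ} (hx : FF g (iR x) ≠ 0) :
    ∑ i, Real.log |(g *ᵥ iR x) i| = Real.log |FF g (iR x)| := by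
  rw [FF_eq_prod, Finset.abs_prod, Real.log_prod fun i _ => (abs_pos.2 (coord_ne hx i)).ne']

lemma abs_floor_le (t : ℝ) (M : ℕ) (h : |t| + 1 ≤ M) : |⌊t⌋| ≤ (M : ℤ) := by
  have h1 := abs_le.1 (le_refl |t|)
  rw [abs_le]
  constructor
  · have : (-(M : ℤ) : ℝ) ≤ t := by push_cast; linarith
    exact Int.le_floor.2 (by exact_mod_cast this)
  · have h2 : ((⌊t⌋ : ℤ) : ℝ) ≤ M := (Int.floor_le t).trans (by linarith)
    exact_mod_cast h2

/-- the points at which two fixed monomials are comparable -/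
lemma card_pair (hd : 0 < d) {ν T : ℝ} (hν : 0 < ν) (hνT : ν ≤ T)
    {g : Matrix (Fin d) (Fin d) ℝ} (hnu : HasNu g ν) {β γ : Fin d → ℕ} (hne : β ≠ γ)
    {D : ℕ} (hβ : ∑ i, β i = D) (hγ : ∑ i, γ i = D) (c W : ℝ) (hW : 0 ≤ W) (R : ℝ)
    (S : Finset (Fin d → ℤ)) (hS : ∀ x ∈ S, x ≠ 0 ∧ |FF g (iR x)| < T ∧
      (∀ i, |(Real.log |(g *ᵥ iR x) i|)| ≤ R) ∧
      |∑ i, ((β i : ℝ) - γ i) * Real.log |(g *ᵥ iR x) i| - c| ≤ W) :
    S.card ≤ 2 ^ d * ((⌊Real.log T / Real.log (1 + ν / T) -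
        (Real.log ν / Real.log (1 + ν / T) - d)⌋₊ + 1) *
      (⌊2 * (W / Real.log (1 + ν / T) + 2 * D)⌋₊ + 1) *
      (2 * (⌈R / Real.log (1 + ν / T)⌉₊ + 1) + 1) ^ (d - 2)) := by
  classical
  have hT : 0 < T := hν.trans_le hνT
  set η := Real.log (1 + ν / T) with hη
  have hη0 : 0 < η := Real.log_pos (by linarith [div_pos hν hT])
  have hF0 : ∀ x ∈ S, FF g (iR x) ≠ 0 := by
    intro x hx h0
    have := hnu x (hS x hx).1
    rw [h0, abs_zero] at this
    linarith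
  obtain ⟨i, j, hij⟩ := exists_ne_of_sum hne hβ hγ
  set M : ℕ := ⌈R / η⌉₊ + 1 with hM
  set I₀ : Finset ℤ := Finset.Icc ⌈Real.log ν / η - d⌉ ⌊Real.log T / η⌋ with hI₀
  set I₁ : Finset ℤ := Finset.Icc ⌈c / η - (W / η + 2 * D)⌉ ⌊c / η + (W / η + 2 * D)⌋ with hI₁
  have hI₀c : I₀.card ≤ ⌊Real.log T / η - (Real.log ν / η - d)⌋₊ + 1 := by
    refine card_Icc_le _ _ ?_
    have h1 : Real.log ν / η ≤ Real.log T / η :=
      div_le_div_of_nonneg_right (Real.log_le_log hν hνT) hη0.le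
    have h2 : (0 : ℝ) ≤ d := Nat.cast_nonneg d
    linarith
  have hI₁c : I₁.card ≤ ⌊2 * (W / η + 2 * D)⌋₊ + 1 := by
    have h1 : 0 ≤ W / η + 2 * D := by positivity
    refine (card_Icc_le _ _ (by linarith)).trans (le_of_eq ?_)
    congr 2
    ring
  -- the image under rounding
  have hslab : (S.image (fl η g)).card ≤ I₀.card * I₁.card * (2 * M + 1) ^ (d - 2) := by
    refine slab_card (fun k => (β k : ℤ) - γ k) hij M I₀ I₁ _ ?_
    intro m hm
    obtain ⟨x, hx, rfl⟩ := Finset.mem_image.1 hm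
    obtain ⟨hx0, hxT, hxR, hxW⟩ := hS x hx
    set t : Fin d → ℝ := fun i => Real.log |(g *ᵥ iR x) i| / η with ht
    have hfl : ∀ i, ((fl η g x i : ℤ) : ℝ) ≤ t i ∧ t i < (fl η g x i : ℤ) + 1 := fun i =>
      ⟨Int.floor_le _, Int.lt_floor_add_one _⟩
    have htsum : ∑ i, t i = Real.log |FF g (iR x)| / η := by
      rw [ht, ← Finset.sum_div, sum_log (hF0 x hx)]
    refine ⟨fun k => ?_, ?_, ?_⟩
    · refine abs_floor_le _ _ ?_
      rw [abs_div, abs_of_pos hη0, hM]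
      push_cast
      have h1 := Nat.le_ceil (R / η)
      have h2 := div_le_div_of_nonneg_right (hxR k) hη0.le
      linarith
    · rw [hI₀, Finset.mem_Icc, Int.ceil_le, Int.le_floor]
      push_cast
      have h1 : ∑ i, ((fl η g x i : ℤ) : ℝ) ≤ ∑ i, t i := Finset.sum_le_sum fun i _ => (hfl i).1
      have h2 : ∑ i, t i ≤ ∑ i, (((fl η g x i : ℤ) : ℝ) + 1) :=
        Finset.sum_le_sum fun i _ => (hfl i).2.le
      rw [Finset.sum_add_distrib, Finset.sum_const, Finset.card_univ, Fintype.card_fin,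
        nsmul_eq_mul, mul_one] at h2
      have h3 : Real.log ν / η ≤ Real.log |FF g (iR x)| / η :=
        div_le_div_of_nonneg_right (Real.log_le_log hν (hnu x hx0)) hη0.le
      have h4 : Real.log |FF g (iR x)| / η ≤ Real.log T / η :=
        div_le_div_of_nonneg_right (Real.log_le_log (abs_pos.2 (hF0 x hx)) hxT.le) hη0.le
      constructor <;> linarith
    · rw [hI₁, Finset.mem_Icc, Int.ceil_le, Int.le_floor]
      have h1 : |∑ i, ((β i : ℝ) - γ i) * t i - c / η| ≤ W / η := by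
        have h2 : ∑ i, ((β i : ℝ) - γ i) * t i - c / η =
            (∑ i, ((β i : ℝ) - γ i) * Real.log |(g *ᵥ iR x) i| - c) / η := by
          rw [sub_div, Finset.sum_div]
          congr 1
          refine Finset.sum_congr rfl fun i _ => ?_
          rw [ht, mul_div_assoc]
        rw [h2, abs_div, abs_of_pos hη0]
        exact div_le_div_of_nonneg_right hxW hη0.le
      have h2 : |∑ i, ((β i : ℝ) - γ i) * ((fl η g x i : ℤ) : ℝ) -
          ∑ i, ((β i : ℝ) - γ i) * t i| ≤ 2 * D := by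
        rw [← Finset.sum_sub_distrib]
        refine (Finset.abs_sum_le_sum_abs _ _).trans ?_
        have h3 : ∀ i ∈ (Finset.univ : Finset (Fin d)),
            |((β i : ℝ) - γ i) * ((fl η g x i : ℤ) : ℝ) - ((β i : ℝ) - γ i) * t i| ≤
            (β i : ℝ) + γ i := by
          intro i _
          rw [← mul_sub, abs_mul]
          have h4 : |((fl η g x i : ℤ) : ℝ) - t i| ≤ 1 := by
            rw [abs_le]
            constructor <;> linarith [(hfl i).1, (hfl i).2]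
          have h5 : |(β i : ℝ) - γ i| ≤ (β i : ℝ) + γ i := by
            have h6 : (0 : ℝ) ≤ β i := Nat.cast_nonneg _
            have h7 : (0 : ℝ) ≤ γ i := Nat.cast_nonneg _
            rw [abs_le]
            constructor <;> linarith
          calc |(β i : ℝ) - γ i| * |((fl η g x i : ℤ) : ℝ) - t i| ≤
              |(β i : ℝ) - γ i| * 1 := mul_le_mul_of_nonneg_left h4 (abs_nonneg _)
            _ ≤ _ := by rw [mul_one]; exact h5
        refine (Finset.sum_le_sum h3).trans (le_of_eq ?_)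
        rw [Finset.sum_add_distrib]
        have h4 : (∑ i, (β i : ℝ)) = D := by exact_mod_cast hβ
        have h5 : (∑ i, (γ i : ℝ)) = D := by exact_mod_cast hγ
        rw [h4, h5]
        ring
      have h3 := abs_le.1 h1
      have h4 := abs_le.1 h2
      push_cast
      constructor <;> linarith
  have hinj : S.card ≤ ((Finset.univ : Finset (Fin d → Bool)) ×ˢ (S.image (fl η g))).card := by
    refine Finset.card_le_card_of_injOn
      (fun x => (fun i => decide (0 < (g *ᵥ iR x) i), fl η g x)) (fun x hx => ?_) ?_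
    · rw [Finset.mem_coe, Finset.mem_product]
      exact ⟨Finset.mem_univ _, Finset.mem_image_of_mem _ hx⟩
    · intro x hx y hy h
      simp only [Prod.mk.injEq] at h
      obtain ⟨h1, h2⟩ := h
      refine same_cell hd hν hνT hnu (hF0 x hx) (hF0 y hy) (hS y hy).2.1 (fun i => ?_)
        (fun i => congrFun h2 i)
      have := congrFun h1 i
      simpa using this
  rw [Finset.card_product, Finset.card_univ, Fintype.card_fun, Fintype.card_bool,
    Fintype.card_fin] at hinj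
  refine hinj.trans (Nat.mul_le_mul_left _ (hslab.trans ?_))
  exact Nat.mul_le_mul_right _ (Nat.mul_le_mul hI₀c hI₁c)

/-- the pairs of exponents -/
def prs (d D : ℕ) : Finset ((Fin d → ℕ) × (Fin d → ℕ)) :=
  ((Fintype.piFinset fun _ => Finset.range (D + 1)) ×ˢ
    (Fintype.piFinset fun _ => Finset.range (D + 1))).filter
    (fun p => p.1 ≠ p.2 ∧ ∑ i, p.1 i = D ∧ ∑ i, p.2 i = D)

lemma mem_prs {D : ℕ} {β γ : Fin d → ℕ} (hne : β ≠ γ) (hβ : ∑ i, β i = D) (hγ : ∑ i, γ i = D) :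
    (β, γ) ∈ prs d D := by
  have hlt : ∀ β : Fin d → ℕ, ∑ i, β i = D → β ∈ Fintype.piFinset fun _ : Fin d =>
      Finset.range (D + 1) := by
    intro β hβ
    rw [Fintype.mem_piFinset]
    intro i
    rw [Finset.mem_range]
    have := Finset.single_le_sum (f := β) (fun _ _ => Nat.zero_le _) (Finset.mem_univ i)
    omega
  rw [prs, Finset.mem_filter, Finset.mem_product]
  exact ⟨⟨hlt β hβ, hlt γ hγ⟩, hne, hβ, hγ⟩

/-- **The upper bound.**  A hypersurface of degree `D` contains at most `C (1 + R) ^ (d - 2)` of the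
integer points with value of absolute value `< T` and `|(log |L i x|)| ≤ R`. -/
theorem upper_R (hd : 0 < d) {ν T : ℝ} (hν : 0 < ν) (hνT : ν ≤ T) (D : ℕ) :
    ∃ C : ℝ, 0 < C ∧ ∀ g : Matrix (Fin d) (Fin d) ℝ, g.det ≠ 0 → HasNu g ν →
      ∀ G : MvPolynomial (Fin d) ℝ, G ≠ 0 → G.IsHomogeneous D → ∀ R : ℝ, 0 ≤ R →
      ∀ S : Finset (Fin d → ℤ), (∀ x ∈ S, x ≠ 0 ∧ |FF g (iR x)| < T ∧ eval (iR x) G = 0 ∧
        ∀ i, |(Real.log |(g *ᵥ iR x) i|)| ≤ R) → (S.card : ℝ) ≤ C * (1 + R) ^ (d - 2) := by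
  classical
  have hT : 0 < T := hν.trans_le hνT
  set η := Real.log (1 + ν / T) with hη
  have hη0 : 0 < η := Real.log_pos (by linarith [div_pos hν hT])
  set W : ℝ := d * Real.log (D + 1) with hW
  have hW0 : 0 ≤ W := mul_nonneg (Nat.cast_nonneg _) (Real.log_nonneg (by
    have : (0 : ℝ) ≤ D := Nat.cast_nonneg D
    linarith))
  set N₀ : ℕ := ⌊Real.log T / η - (Real.log ν / η - d)⌋₊ + 1 with hN₀
  set N₁ : ℕ := ⌊2 * (W / η + 2 * D)⌋₊ + 1 with hN₁
  have hN₀0 : (0 : ℝ) < N₀ := by rw [hN₀]; positivity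
  have hN₁0 : (0 : ℝ) < N₁ := by rw [hN₁]; positivity
  refine ⟨((prs d D).card + 1) * (2 ^ d * (N₀ * N₁ * (5 + 2 / η) ^ (d - 2))), by positivity, ?_⟩
  intro g hg hnu G hG0 hG R hR S hS
  obtain ⟨c, hc⟩ := structure_zero hg hG0 hG
  have hF0 : ∀ x ∈ S, FF g (iR x) ≠ 0 := by
    intro x hx h0
    have := hnu x (hS x hx).1
    rw [h0, abs_zero] at this
    linarith
  let Sp : (Fin d → ℕ) × (Fin d → ℕ) → Finset (Fin d → ℤ) := fun p =>
    S.filter fun x => |∑ i, ((p.1 i : ℝ) - p.2 i) * Real.log |(g *ᵥ iR x) i| - c p.1 p.2| ≤ W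
  have hcov : S ⊆ (prs d D).biUnion Sp := by
    intro x hx
    obtain ⟨β, γ, hne, hβ, hγ, hle⟩ := hc (iR x) (hF0 x hx) (hS x hx).2.2.1
    rw [Finset.mem_biUnion]
    exact ⟨(β, γ), mem_prs hne hβ hγ, Finset.mem_filter.2 ⟨hx, hle⟩⟩
  set K : ℕ := 2 ^ d * (N₀ * N₁ * (2 * (⌈R / η⌉₊ + 1) + 1) ^ (d - 2)) with hK
  have h1 : S.card ≤ (prs d D).card * K := by
    refine (Finset.card_le_card hcov).trans (Finset.card_biUnion_le.trans ?_)
    rw [← smul_eq_mul]
    refine Finset.sum_le_card_nsmul _ _ _ fun p hp => ?_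
    rw [prs, Finset.mem_filter] at hp
    refine card_pair hd hν hνT hnu hp.2.1 hp.2.2.1 hp.2.2.2 (c p.1 p.2) W hW0 R (Sp p) ?_
    intro x hx
    obtain ⟨hx1, hx2⟩ := Finset.mem_filter.1 hx
    obtain ⟨h1, h2, h3, h4⟩ := hS x hx1
    exact ⟨h1, h2, h4, hx2⟩
  have h2 : (S.card : ℝ) ≤ (prs d D).card * (2 ^ d * (N₀ * N₁ *
      (2 * ((⌈R / η⌉₊ : ℝ) + 1) + 1) ^ (d - 2))) := by
    have h3 : (S.card : ℝ) ≤ (((prs d D).card * K : ℕ) : ℝ) := by exact_mod_cast h1
    rw [hK] at h3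
    push_cast at h3
    exact h3
  have h3 : 2 * ((⌈R / η⌉₊ : ℝ) + 1) + 1 ≤ (5 + 2 / η) * (1 + R) := by
    have h4 := Nat.ceil_lt_add_one (div_nonneg hR hη0.le)
    have h5 : (5 + 2 / η) * (1 + R) = 5 + 5 * R + 2 / η + 2 * (R / η) := by
      field_simp
      ring
    rw [h5]
    have h6 : 0 < 2 / η := by positivity
    linarith
  refine h2.trans ?_
  calc ((prs d D).card : ℝ) * (2 ^ d * (N₀ * N₁ * (2 * ((⌈R / η⌉₊ : ℝ) + 1) + 1) ^ (d - 2)))
      ≤ ((prs d D).card + 1) * (2 ^ d * (N₀ * N₁ * ((5 + 2 / η) * (1 + R)) ^ (d - 2))) := by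
        gcongr
        linarith
    _ = _ := by rw [mul_pow]; ring

end Pool.Agent.Q118.VC
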