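import Mathlib
import Pool.Agent.TH314.CSD.Cover
import Pool.Agent.Q118.VC.Cells

/-!
# Many points with small value, and many rational subspaces
-/

set_option autoImplicit false

open MvPolynomial Matrix

namespace Pool.Agent.Q118.VC

open H715R2

/-- the exponents -/
def kk {e n : ℕ} (u : Fin e → Fin (n + 1)) : Fin (e + 1) → ℤ :=
  Fin.cons (-∑ i, (u i : ℤ)) (fun i => (u i : ℤ))

lemma kk_sum {e n : ℕ} (u : Fin e → Fin (n + 1)) : ∑ i, kk u i = 0 := by
  rw [kk, Fin.sum_cons]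
  simp

lemma kk_inj {e n : ℕ} : Function.Injective (kk : (Fin e → Fin (n + 1)) → Fin (e + 1) → ℤ) := by
  intro u u' h
  funext i
  have h1 := congrFun h i.succ
  simp only [kk, Fin.cons_succ] at h1
  exact Fin.ext (by exact_mod_cast h1)

lemma kk_le {e n : ℕ} (he : 1 ≤ e) (u : Fin e → Fin (n + 1)) (i : Fin (e + 1)) :
    |kk u i| ≤ e * n := by
  have hu : ∀ j, (0 : ℤ) ≤ (u j : ℤ) ∧ (u j : ℤ) ≤ n := fun j => by
    have := (u j).is_lt
    omega
  refine Fin.cases ?_ (fun j => ?_) i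
  · simp only [kk, Fin.cons_zero]
    rw [abs_neg, abs_of_nonneg (Finset.sum_nonneg fun j _ => (hu j).1)]
    calc ∑ j, ((u j : ℕ) : ℤ) ≤ ∑ _j : Fin e, (n : ℤ) := Finset.sum_le_sum fun j _ => (hu j).2
      _ = e * n := by rw [Finset.sum_const, Finset.card_univ, Fintype.card_fin, nsmul_eq_mul]
  · simp only [kk, Fin.cons_succ]
    rw [abs_of_nonneg (hu j).1]
    have h1 : (1 : ℤ) ≤ e := by exact_mod_cast he
    nlinarith [(hu j).2, (hu j).1]

/-- **Many points.** -/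
theorem points {e : ℕ} (he : 1 ≤ e) {V ν : ℝ} (hV : 0 < V) (hν : 0 < ν)
    {Y : Set (Matrix (Fin (e + 1)) (Fin (e + 1)) ℝ)} (hYc : IsClosed Y) (hYinv : H715R2.Inv Y)
    (hYdet : ∀ h ∈ Y, |h.det| = V) (hYnu : ∀ h ∈ Y, HasNu h ν) {S : Set ℝ} (hSo : IsOpen S)
    (hS : ∀ h ∈ Y, ∃ m : Fin (e + 1) → ℤ, m ≠ 0 ∧ FF h (iR m) ∈ S) :
    ∃ τ R₀ B T : ℝ, 1 ≤ τ ∧ 0 ≤ R₀ ∧ 1 ≤ B ∧ ν ≤ T ∧ ∀ g ∈ Y, ∀ G : ℝ,
      (∀ i j, |g⁻¹ i j| ≤ G) → ∀ n : ℕ, ∃ P : Finset (Fin (e + 1) → ℤ), P.card = (n + 1) ^ e ∧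
        ∀ x ∈ P, x ≠ 0 ∧ FF g (iR x) ∈ S ∧ |FF g (iR x)| < T ∧
          (∀ i, |(Real.log |(g *ᵥ iR x) i|)| ≤ R₀ + τ * (e * n)) ∧
          ∀ j, |(x j : ℝ)| ≤ B * G * Real.exp (τ * (e * n)) := by
  classical
  obtain ⟨r, hr, hvec⟩ := TH314.CSD.exists_vec_set (by omega : 0 < e + 1) hV hν hYc hYinv hYdet
    hYnu hSo hS
  set lo : ℝ := ν / r ^ e with hlo
  have hlo0 : 0 < lo := div_pos hν (pow_pos hr _)
  set τ : ℝ := max 1 (Real.log r - Real.log lo) with hτ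
  have hτ1 : 1 ≤ τ := le_max_left _ _
  have hτ0 : 0 < τ := by linarith
  refine ⟨τ, |Real.log r| + |Real.log lo|, max 1 ((e + 1) * r), max ν (r ^ (e + 1)), hτ1,
    by positivity, le_max_left _ _, le_max_left _ _, fun g hg G hG n => ?_⟩
  have hdet0 : g.det ≠ 0 := by
    intro h0
    have := hYdet g hg
    rw [h0, abs_zero] at this
    exact hV.ne this
  have hb1 : ∀ u : Fin e → Fin (n + 1), ∏ i, Real.exp (τ * (kk u i : ℝ)) = 1 := by
    intro u
    have h1 : (∑ i, (kk u i : ℝ)) = 0 := by exact_mod_cast kk_sum u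
    rw [← Real.exp_sum, ← Finset.mul_sum, h1, mul_zero, Real.exp_zero]
  choose m hm1 hm2 hm3 using fun u : Fin e → Fin (n + 1) =>
    hvec g hg (fun i => Real.exp (τ * (kk u i : ℝ))) (fun i => Real.exp_pos _) (hb1 u)
  have hzpos : ∀ u i, 0 < |(g *ᵥ iR (m u)) i| := by
    intro u i
    have h1 := hm2 u i
    have h2 : ν / r ^ (e + 1 - 1) = lo := by rw [hlo, Nat.add_sub_cancel]
    rw [h2] at h1
    exact (mul_pos_iff_of_pos_left (Real.exp_pos _)).1 (hlo0.trans_le h1)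
  have hlog1 : ∀ u i, Real.log |(g *ᵥ iR (m u)) i| < Real.log r - τ * (kk u i : ℝ) := by
    intro u i
    have h1 := Real.log_lt_log (mul_pos (Real.exp_pos _) (hzpos u i)) (hm1 u i)
    rw [Real.log_mul (Real.exp_pos _).ne' (hzpos u i).ne', Real.log_exp] at h1
    linarith
  have hlog2 : ∀ u i, Real.log lo - τ * (kk u i : ℝ) ≤ Real.log |(g *ᵥ iR (m u)) i| := by
    intro u i
    have h1 := hm2 u i
    have h2 : ν / r ^ (e + 1 - 1) = lo := by rw [hlo, Nat.add_sub_cancel]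
    rw [h2] at h1
    have h3 := Real.log_le_log hlo0 h1
    rw [Real.log_mul (Real.exp_pos _).ne' (hzpos u i).ne', Real.log_exp] at h3
    linarith
  have hkk : ∀ (u : Fin e → Fin (n + 1)) (i : Fin (e + 1)), |(kk u i : ℝ)| ≤ e * n := by
    intro u i
    exact_mod_cast kk_le he u i
  have hinj : Function.Injective m := by
    intro u u' h
    apply kk_inj
    funext i
    have h1 := hlog1 u i
    have h2 := hlog2 u i
    have h3 := hlog1 u' i
    have h4 := hlog2 u' i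
    rw [h] at h1 h2
    have h5 : Real.log r - Real.log lo ≤ τ := le_max_right _ _
    have h6 : τ * ((kk u i : ℝ) - kk u' i) < τ * 1 := by linarith
    have h7 : τ * ((kk u' i : ℝ) - kk u i) < τ * 1 := by linarith
    have h8 := lt_of_mul_lt_mul_left h6 hτ0.le
    have h9 := lt_of_mul_lt_mul_left h7 hτ0.le
    have h10 : ((kk u i - kk u' i : ℤ) : ℝ) < (1 : ℤ) := by push_cast; exact h8
    have h11 : ((kk u' i - kk u i : ℤ) : ℝ) < (1 : ℤ) := by push_cast; exact h9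
    have h12 : kk u i - kk u' i < 1 := by exact_mod_cast h10
    have h13 : kk u' i - kk u i < 1 := by exact_mod_cast h11
    omega
  refine ⟨Finset.univ.image m, ?_, ?_⟩
  · rw [Finset.card_image_of_injective _ hinj, Finset.card_univ, Fintype.card_fun,
      Fintype.card_fin, Fintype.card_fin]
  intro x hx
  obtain ⟨u, -, rfl⟩ := Finset.mem_image.1 hx
  have habs : |FF g (iR (m u))| = ∏ i, (Real.exp (τ * (kk u i : ℝ)) * |(g *ᵥ iR (m u)) i|) := by
    rw [Finset.prod_mul_distrib, hb1, one_mul, FF_eq_prod, Finset.abs_prod]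
  refine ⟨?_, hm3 u, ?_, ?_, ?_⟩
  · intro h0
    have h1 := hzpos u 0
    have h2 : iR (0 : Fin (e + 1) → ℤ) = 0 := by
      funext i
      simp [iR]
    rw [h0, h2, mulVec_zero, Pi.zero_apply, abs_zero] at h1
    exact lt_irrefl _ h1
  · refine lt_of_lt_of_le ?_ (le_max_right _ _)
    rw [habs]
    have h1 : (∏ _i : Fin (e + 1), r) = r ^ (e + 1) := by
      rw [Finset.prod_const, Finset.card_univ, Fintype.card_fin]
    rw [← h1]
    exact Finset.prod_lt_prod_of_nonempty (fun i _ => mul_pos (Real.exp_pos _) (hzpos u i))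
      (fun i _ => hm1 u i) Finset.univ_nonempty
  · intro i
    have h1 := hlog1 u i
    have h2 := hlog2 u i
    have h3 := abs_le.1 (hkk u i)
    have h4 := mul_le_mul_of_nonneg_left h3.1 hτ0.le
    have h5 := mul_le_mul_of_nonneg_left h3.2 hτ0.le
    have h6 := abs_le.1 (le_refl |Real.log r|)
    have h7 := abs_le.1 (le_refl |Real.log lo|)
    have h8 := abs_nonneg (Real.log r)
    have h9 := abs_nonneg (Real.log lo)
    rw [mul_neg] at h4
    rw [abs_le]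
    constructor <;> linarith
  · intro j
    have hE : ∀ i, |(g *ᵥ iR (m u)) i| ≤ r * Real.exp (τ * (e * n)) := by
      intro i
      have h1 := hm1 u i
      have h3 := abs_le.1 (hkk u i)
      have h4 : Real.exp (-(τ * (e * n))) ≤ Real.exp (τ * (kk u i : ℝ)) := by
        apply Real.exp_le_exp.2
        have := mul_le_mul_of_nonneg_left h3.1 hτ0.le
        linarith
      have h5 : Real.exp (-(τ * (e * n))) * |(g *ᵥ iR (m u)) i| ≤ r :=
        (mul_le_mul_of_nonneg_right h4 (abs_nonneg _)).trans h1.le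
      rw [Real.exp_neg, inv_mul_le_iff₀ (Real.exp_pos _)] at h5
      linarith
    have h1 : iR (m u) = g⁻¹ *ᵥ (g *ᵥ iR (m u)) := by
      rw [mulVec_mulVec, Matrix.nonsing_inv_mul _ (isUnit_iff_ne_zero.2 hdet0), one_mulVec]
    have h2 : (m u j : ℝ) = ∑ i, g⁻¹ j i * (g *ᵥ iR (m u)) i := congrFun h1 j
    rw [h2]
    have hG0 : 0 ≤ G := (abs_nonneg _).trans (hG 0 0)
    have h3 : |∑ i, g⁻¹ j i * (g *ᵥ iR (m u)) i| ≤
        ∑ _i : Fin (e + 1), G * (r * Real.exp (τ * (e * n))) := by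
      refine (Finset.abs_sum_le_sum_abs _ _).trans (Finset.sum_le_sum fun i _ => ?_)
      rw [abs_mul]
      exact mul_le_mul (hG j i) (hE i) (abs_nonneg _) hG0
    refine h3.trans ?_
    rw [Finset.sum_const, Finset.card_univ, Fintype.card_fin, nsmul_eq_mul]
    push_cast
    calc ((e : ℝ) + 1) * (G * (r * Real.exp (τ * (e * n)))) =
        ((e + 1) * r) * G * Real.exp (τ * (e * n)) := by ring
      _ ≤ max 1 ((e + 1) * r) * G * Real.exp (τ * (e * n)) := by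
          refine mul_le_mul_of_nonneg_right ?_ (Real.exp_pos _).le
          exact mul_le_mul_of_nonneg_right (le_max_right _ _) hG0

/-- the set of the points of the box with value in `S` -/
def PS {d : ℕ} (g : Matrix (Fin d) (Fin d) ℝ) (S : Set ℝ) (X : ℝ) : Set (Fin d → ℤ) :=
  {x | x ≠ 0 ∧ (∀ j, |(x j : ℝ)| ≤ X) ∧ FF g (iR x) ∈ S}

lemma box_finite {d : ℕ} (X : ℝ) : {x : Fin d → ℤ | ∀ j, |(x j : ℝ)| ≤ X}.Finite := by
  have h1 : (Set.pi Set.univ fun _ : Fin d => Set.Icc (-⌊X⌋) ⌊X⌋).Finite :=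
    Set.Finite.pi fun _ => Set.finite_Icc _ _
  refine h1.subset ?_
  intro x hx i _
  have h2 := abs_le.1 (hx i)
  constructor
  · have : -x i ≤ ⌊X⌋ := Int.le_floor.2 (by push_cast; linarith)
    omega
  · exact Int.le_floor.2 h2.2

lemma PS_finite {d : ℕ} (g : Matrix (Fin d) (Fin d) ℝ) (S : Set ℝ) (X : ℝ) :
    (PS g S X).Finite := (box_finite X).subset fun _ hx => hx.2.1

/-- **Many points and many subspaces.** -/
theorem lower {e : ℕ} (he : 1 ≤ e) {V ν : ℝ} (hV : 0 < V) (hν : 0 < ν)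
    {Y : Set (Matrix (Fin (e + 1)) (Fin (e + 1)) ℝ)} (hYc : IsClosed Y) (hYinv : H715R2.Inv Y)
    (hYdet : ∀ h ∈ Y, |h.det| = V) (hYnu : ∀ h ∈ Y, HasNu h ν) {S : Set ℝ} (hSo : IsOpen S)
    (hS : ∀ h ∈ Y, ∃ m : Fin (e + 1) → ℤ, m ≠ 0 ∧ FF h (iR m) ∈ S) :
    ∃ C : ℝ, 1 ≤ C ∧ ∀ D : ℕ, ∃ κ : ℝ, 0 < κ ∧ ∀ g ∈ Y, ∀ G : ℝ, (∀ i j, |g⁻¹ i j| ≤ G) →
      ∀ X : ℝ, C * (1 + G) ^ 2 ≤ X →
      κ * Real.log X ^ e ≤ ((PS g S X).ncard : ℝ) ∧
      ∀ 𝓖 : Finset (MvPolynomial (Fin (e + 1)) ℝ), (∀ G ∈ 𝓖, G ≠ 0 ∧ G.IsHomogeneous D) →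
        (𝓖.card : ℝ) < κ * Real.log X → ∃ x ∈ PS g S X, ∀ G ∈ 𝓖, eval (iR x) G ≠ 0 := by
  classical
  obtain ⟨τ, R₀, B, T, hτ, hR₀, hB, hνT, hpts⟩ := points he hV hν hYc hYinv hYdet hYnu hSo hS
  refine ⟨B ^ 2, one_le_pow₀ hB, fun D => ?_⟩
  obtain ⟨Cu, hCu, hupper⟩ := upper_R (by omega : 0 < e + 1) hν hνT D
  have heR : (1 : ℝ) ≤ e := by exact_mod_cast he
  have hτe : 0 < τ * e := by positivity
  set A : ℝ := 1 + R₀ + τ * e with hA
  have hA0 : 0 < A := by positivity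
  set κ₁ : ℝ := (1 / (2 * (τ * e))) ^ e with hκ₁
  set κ₂ : ℝ := 1 / (2 * (τ * e)) / (Cu * A ^ (e - 1)) with hκ₂
  refine ⟨min κ₁ κ₂, lt_min (by positivity) (by positivity), fun g hg G hG X hX => ?_⟩
  have hG0 : 0 ≤ G := (abs_nonneg _).trans (hG 0 0)
  have hBG : 1 ≤ B * (1 + G) := by nlinarith
  have hBG0 : 0 < B * (1 + G) := by linarith
  have hX2 : (B * (1 + G)) ^ 2 ≤ X := by rw [mul_pow]; exact hX
  have hX1 : 1 ≤ X := (one_le_pow₀ hBG).trans hX2
  have hX0 : 0 < X := by linarith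
  have hlogX : 0 ≤ Real.log X := Real.log_nonneg hX1
  have hlog : Real.log X / 2 ≤ Real.log (X / (B * (1 + G))) := by
    rw [Real.log_div hX0.ne' hBG0.ne']
    have h1 := Real.log_le_log (pow_pos hBG0 2) hX2
    rw [Real.log_pow] at h1
    push_cast at h1
    linarith
  set n : ℕ := ⌊Real.log (X / (B * (1 + G))) / (τ * e)⌋₊ with hn
  have hq0 : 0 ≤ Real.log (X / (B * (1 + G))) := le_trans (by linarith) hlog
  have hn1 : (n : ℝ) ≤ Real.log (X / (B * (1 + G))) / (τ * e) :=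
    Nat.floor_le (div_nonneg hq0 hτe.le)
  have hn2 : 1 / (2 * (τ * e)) * Real.log X ≤ (n : ℝ) + 1 := by
    have h1 := Nat.lt_floor_add_one (Real.log (X / (B * (1 + G))) / (τ * e))
    have h2 : 1 / (2 * (τ * e)) * Real.log X = Real.log X / 2 / (τ * e) := by
      field_simp
    rw [h2]
    exact (div_le_div_of_nonneg_right hlog hτe.le).trans h1.le
  have hexp : Real.exp (τ * (e * n)) ≤ X / (B * (1 + G)) := by
    rw [← Real.log_le_log_iff (Real.exp_pos _) (div_pos hX0 hBG0), Real.log_exp]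
    rw [le_div_iff₀ hτe] at hn1
    linarith
  obtain ⟨P, hPc, hP⟩ := hpts g hg G hG n
  have hPX : ∀ x ∈ P, x ∈ PS g S X := by
    intro x hx
    obtain ⟨h1, h2, -, -, h5⟩ := hP x hx
    refine ⟨h1, fun j => (h5 j).trans ?_, h2⟩
    calc B * G * Real.exp (τ * (e * n)) ≤ B * (1 + G) * (X / (B * (1 + G))) := by
          refine mul_le_mul (by nlinarith) hexp (Real.exp_pos _).le hBG0.le
      _ = X := by field_simp
  have hb0 : 0 ≤ 1 / (2 * (τ * e)) * Real.log X := by positivity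
  constructor
  · have h1 : ((n : ℝ) + 1) ^ e ≤ ((PS g S X).ncard : ℝ) := by
      have h2 : P.card ≤ (PS g S X).ncard := by
        rw [← Set.ncard_coe_finset]
        exact Set.ncard_le_ncard (fun x hx => hPX x hx) (PS_finite g S X)
      have h3 : ((P.card : ℕ) : ℝ) ≤ ((PS g S X).ncard : ℝ) := by exact_mod_cast h2
      rw [hPc] at h3
      push_cast at h3
      exact h3
    refine le_trans ?_ h1
    calc min κ₁ κ₂ * Real.log X ^ e ≤ κ₁ * Real.log X ^ e :=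
          mul_le_mul_of_nonneg_right (min_le_left _ _) (pow_nonneg hlogX _)
      _ = (1 / (2 * (τ * e)) * Real.log X) ^ e := by rw [hκ₁, mul_pow]
      _ ≤ _ := pow_le_pow_left₀ hb0 hn2 e
  · intro 𝓖 h𝓖 hcard
    by_contra hcon
    push Not at hcon
    have hdet0 : g.det ≠ 0 := by
      intro h0
      have := hYdet g hg
      rw [h0, abs_zero] at this
      exact hV.ne this
    have hcov : P ⊆ 𝓖.biUnion fun G => P.filter fun x => eval (iR x) G = 0 := by
      intro x hx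
      obtain ⟨G, hG, hxG⟩ := hcon x (hPX x hx)
      rw [Finset.mem_biUnion]
      exact ⟨G, hG, Finset.mem_filter.2 ⟨hx, hxG⟩⟩
    have hR : 0 ≤ R₀ + τ * (e * n) := by positivity
    have h1 : (P.card : ℝ) ≤ ∑ G ∈ 𝓖, ((P.filter fun x => eval (iR x) G = 0).card : ℝ) := by
      exact_mod_cast (Finset.card_le_card hcov).trans Finset.card_biUnion_le
    have h2 : (P.card : ℝ) ≤ 𝓖.card * (Cu * (1 + (R₀ + τ * (e * n))) ^ (e - 1)) := by
      refine h1.trans ?_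
      rw [← nsmul_eq_mul]
      refine Finset.sum_le_card_nsmul _ _ _ fun G hG => ?_
      refine hupper g hdet0 (hYnu g hg) G (h𝓖 G hG).1 (h𝓖 G hG).2 _ hR _ fun x hx => ?_
      obtain ⟨hx1, hx2⟩ := Finset.mem_filter.1 hx
      obtain ⟨h1, -, h3, h4, -⟩ := hP x hx1
      exact ⟨h1, h3, hx2, h4⟩
    have h3 : 1 + (R₀ + τ * (e * n)) ≤ A * ((n : ℝ) + 1) := by
      have h4 : (0 : ℝ) ≤ n := Nat.cast_nonneg n
      have h5 : A * ((n : ℝ) + 1) = (1 + R₀) * n + (1 + R₀) + τ * (e * n) + τ * e := by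
        rw [hA]; ring
      rw [h5]
      have h6 : 0 ≤ (1 + R₀) * n := by positivity
      linarith
    have h4 : ((n : ℝ) + 1) ^ e ≤ 𝓖.card * (Cu * (A * ((n : ℝ) + 1)) ^ (e - 1)) := by
      have h5 : (P.card : ℝ) = ((n : ℝ) + 1) ^ e := by
        rw [hPc]; push_cast; rfl
      rw [← h5]
      refine h2.trans ?_
      gcongr
    have hn0 : (0 : ℝ) < (n : ℝ) + 1 := by positivity
    have h5 : ((n : ℝ) + 1) ^ e = ((n : ℝ) + 1) * ((n : ℝ) + 1) ^ (e - 1) := by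
      rw [← pow_succ']
      congr 1
      omega
    rw [h5, mul_pow] at h4
    have h6 : ((n : ℝ) + 1) ≤ 𝓖.card * (Cu * A ^ (e - 1)) := by
      have h7 : ((n : ℝ) + 1) * ((n : ℝ) + 1) ^ (e - 1) ≤
          (𝓖.card * (Cu * A ^ (e - 1))) * ((n : ℝ) + 1) ^ (e - 1) := by
        refine h4.trans (le_of_eq ?_)
        ring
      exact le_of_mul_le_mul_right h7 (pow_pos hn0 _)
    have h7 : κ₂ * Real.log X ≤ 𝓖.card := by
      rw [hκ₂, div_mul_eq_mul_div, div_le_iff₀ (by positivity)]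
      exact hn2.trans h6
    have h8 : min κ₁ κ₂ * Real.log X ≤ κ₂ * Real.log X :=
      mul_le_mul_of_nonneg_right (min_le_right _ _) hlogX
    linarith

end Pool.Agent.Q118.VC
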