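import Mathlib
import Pool.Agent.TH314.CSD.Cover
import Pool.Agent.Q118.VC.Cells

/-!
# Points near a generic line
-/

set_option autoImplicit false

open MvPolynomial Matrix

namespace Pool.Agent.Q118.VC

open H715R2

variable {d : ℕ}

/-- a generic direction -/
def Gen (D : ℕ) (θ : Fin d → ℝ) : Prop :=
  ∑ i, θ i = 0 ∧ ∀ β γ : Fin d → ℕ, β ≠ γ → ∑ i, β i = D → ∑ i, γ i = D →
    ∑ i, ((β i : ℝ) - γ i) * θ i ≠ 0

lemma Gen.exists_delta {D : ℕ} {θ : Fin d → ℝ} (hθ : Gen D θ) :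
    ∃ δ : ℝ, 0 < δ ∧ ∀ p ∈ prs d D, δ ≤ |∑ i, ((p.1 i : ℝ) - p.2 i) * θ i| := by
  classical
  by_cases hne : (prs d D).Nonempty
  · obtain ⟨p, hp, hmin⟩ := (prs d D).exists_min_image
      (fun p => |∑ i, ((p.1 i : ℝ) - p.2 i) * θ i|) hne
    refine ⟨_, ?_, hmin⟩
    rw [prs, Finset.mem_filter] at hp
    exact abs_pos.2 (hθ.2 p.1 p.2 hp.2.1 hp.2.2.1 hp.2.2.2)
  · refine ⟨1, one_pos, fun p hp => ?_⟩
    exact absurd ⟨p, hp⟩ hne

lemma floor_mem {p q t : ℝ} (h1 : p ≤ t) (h2 : t ≤ q) : ⌊t⌋ ∈ Finset.Icc ⌊p⌋ ⌊q⌋ :=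
  Finset.mem_Icc.2 ⟨Int.floor_le_floor h1, Int.floor_le_floor h2⟩

lemma card_floor_Icc {p q L : ℝ} (h : q - p ≤ L) (hL : 0 ≤ L) :
    (Finset.Icc ⌊p⌋ ⌊q⌋).card ≤ ⌊L⌋₊ + 2 := by
  rw [Int.card_Icc, Int.toNat_le]
  have h1 : (((⌊q⌋ - ⌊p⌋ - 1 : ℤ)) : ℝ) ≤ L := by
    push_cast
    linarith [Int.floor_le q, Int.lt_floor_add_one p]
  have h2 : ⌊q⌋ - ⌊p⌋ - 1 ≤ ⌊L⌋ := Int.le_floor.2 h1
  have h3 : (⌊L⌋₊ : ℤ) = ⌊L⌋ := Int.natCast_floor_eq_floor hL
  push_cast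
  rw [h3]
  linarith

/-- points whose logarithms are in a given box -/
lemma card_box (hd : 0 < d) {ν T : ℝ} (hν : 0 < ν) (hνT : ν ≤ T)
    {g : Matrix (Fin d) (Fin d) ℝ} (hnu : HasNu g ν) (s : Fin d → ℝ) (ρ : ℝ) (hρ : 0 ≤ ρ)
    (S : Finset (Fin d → ℤ)) (hS : ∀ x ∈ S, x ≠ 0 ∧ |FF g (iR x)| < T ∧
      ∀ i, |(Real.log |(g *ᵥ iR x) i| - s i)| ≤ ρ) :
    S.card ≤ 2 ^ d * (⌊2 * ρ / Real.log (1 + ν / T)⌋₊ + 2) ^ d := by
  classical
  have hT : 0 < T := hν.trans_le hνT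
  set η := Real.log (1 + ν / T) with hη
  have hη0 : 0 < η := Real.log_pos (by linarith [div_pos hν hT])
  have hF0 : ∀ x ∈ S, FF g (iR x) ≠ 0 := by
    intro x hx h0
    have := hnu x (hS x hx).1
    rw [h0, abs_zero] at this
    linarith
  set B : Finset (Fin d → ℤ) := Fintype.piFinset fun i =>
    Finset.Icc ⌊(s i - ρ) / η⌋ ⌊(s i + ρ) / η⌋ with hB
  have hBc : B.card ≤ (⌊2 * ρ / η⌋₊ + 2) ^ d := by
    rw [hB, Fintype.card_piFinset]
    have h1 : ∀ i ∈ (Finset.univ : Finset (Fin d)),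
        (Finset.Icc ⌊(s i - ρ) / η⌋ ⌊(s i + ρ) / η⌋).card ≤ ⌊2 * ρ / η⌋₊ + 2 := by
      intro i _
      refine card_floor_Icc (le_of_eq ?_) (by positivity)
      rw [← sub_div]
      congr 1
      ring
    refine (Finset.prod_le_pow_card _ _ _ h1).trans (le_of_eq ?_)
    rw [Finset.card_univ, Fintype.card_fin]
  have hinj : S.card ≤ ((Finset.univ : Finset (Fin d → Bool)) ×ˢ B).card := by
    refine Finset.card_le_card_of_injOn
      (fun x => (fun i => decide (0 < (g *ᵥ iR x) i), fl η g x)) (fun x hx => ?_) ?_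
    · rw [Finset.mem_coe, Finset.mem_product]
      refine ⟨Finset.mem_univ _, Fintype.mem_piFinset.2 fun i => ?_⟩
      have h1 := abs_le.1 ((hS x hx).2.2 i)
      exact floor_mem (div_le_div_of_nonneg_right (by linarith) hη0.le)
        (div_le_div_of_nonneg_right (by linarith) hη0.le)
    · intro x hx y hy h
      simp only [Prod.mk.injEq] at h
      obtain ⟨h1, h2⟩ := h
      refine same_cell hd hν hνT hnu (hF0 x hx) (hF0 y hy) (hS y hy).2.1 (fun i => ?_)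
        (fun i => congrFun h2 i)
      have := congrFun h1 i
      simpa using this
  rw [Finset.card_product, Finset.card_univ, Fintype.card_fun, Fintype.card_bool,
    Fintype.card_fin] at hinj
  exact hinj.trans (Nat.mul_le_mul_left _ hBc)

/-- near the line the logarithms are under control -/
lemma log_near {g : Matrix (Fin d) (Fin d) ℝ} {ν C : ℝ} (hν : 0 < ν) (hC : 0 < C)
    (hnu : HasNu g ν) {θ : Fin d → ℝ} (hθ : ∑ i, θ i = 0) {x : Fin d → ℤ} (hx : x ≠ 0) {t : ℝ}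
    (ht : ∀ i, |(g *ᵥ iR x) i| ≤ C * Real.exp (t * θ i)) (i : Fin d) :
    |(Real.log |(g *ᵥ iR x) i| - t * θ i)| ≤ |Real.log ν| + d * |Real.log C| := by
  have hF0 : FF g (iR x) ≠ 0 := by
    intro h0
    have := hnu x hx
    rw [h0, abs_zero] at this
    linarith
  have hpos : ∀ i, 0 < |(g *ᵥ iR x) i| := fun i => abs_pos.2 (coord_ne hF0 i)
  have hup : ∀ i, Real.log |(g *ᵥ iR x) i| ≤ Real.log C + t * θ i := by
    intro i
    have h1 := Real.log_le_log (hpos i) (ht i)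
    rwa [Real.log_mul hC.ne' (Real.exp_pos _).ne', Real.log_exp] at h1
  have hsum := sum_log hF0
  have hν' : Real.log ν ≤ ∑ i, Real.log |(g *ᵥ iR x) i| := by
    rw [hsum]
    exact Real.log_le_log hν (hnu x hx)
  have h1 : ∑ j ∈ Finset.univ.erase i, Real.log |(g *ᵥ iR x) j| ≤
      ∑ j ∈ Finset.univ.erase i, (Real.log C + t * θ j) := Finset.sum_le_sum fun j _ => hup j
  rw [Finset.sum_add_distrib, Finset.sum_const, Finset.card_erase_of_mem (Finset.mem_univ i),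
    Finset.card_univ, Fintype.card_fin, nsmul_eq_mul, ← Finset.mul_sum] at h1
  have h2 : ∑ j ∈ Finset.univ.erase i, θ j = -θ i := by
    have := Finset.add_sum_erase Finset.univ θ (Finset.mem_univ i)
    rw [hθ] at this
    linarith
  have h3 := Finset.add_sum_erase Finset.univ (fun j => Real.log |(g *ᵥ iR x) j|)
    (Finset.mem_univ i)
  rw [h2] at h1
  have hd1 : 1 ≤ d := i.pos
  have h4 : ((d - 1 : ℕ) : ℝ) * Real.log C ≤ (d : ℝ) * |Real.log C| := by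
    have h5 : ((d - 1 : ℕ) : ℝ) ≤ d := by exact_mod_cast Nat.sub_le d 1
    calc ((d - 1 : ℕ) : ℝ) * Real.log C ≤ ((d - 1 : ℕ) : ℝ) * |Real.log C| :=
          mul_le_mul_of_nonneg_left (le_abs_self _) (Nat.cast_nonneg _)
      _ ≤ _ := mul_le_mul_of_nonneg_right h5 (abs_nonneg _)
  have h5 : Real.log C ≤ (d : ℝ) * |Real.log C| := by
    have h6 : (1 : ℝ) ≤ d := by exact_mod_cast hd1
    have h7 := abs_nonneg (Real.log C)
    have h8 := le_abs_self (Real.log C)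
    nlinarith
  have h6 := hup i
  have h7 := neg_abs_le (Real.log ν)
  have h8 := abs_nonneg (Real.log ν)
  rw [abs_le]
  constructor
  · linarith
  · linarith

/-- **A hypersurface contains boundedly many points near a generic line.** -/
theorem ray_upper (hd : 0 < d) {ν C : ℝ} (hν : 0 < ν) (hC : 0 < C) {D : ℕ} {θ : Fin d → ℝ}
    (hθ : Gen D θ) : ∃ N : ℕ, ∀ g : Matrix (Fin d) (Fin d) ℝ, g.det ≠ 0 → HasNu g ν →
      ∀ G : MvPolynomial (Fin d) ℝ, G ≠ 0 → G.IsHomogeneous D →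
      ∀ S : Finset (Fin d → ℤ), (∀ x ∈ S, x ≠ 0 ∧ eval (iR x) G = 0 ∧
        ∃ t : ℝ, ∀ i, |(g *ᵥ iR x) i| ≤ C * Real.exp (t * θ i)) → S.card ≤ N := by
  classical
  obtain ⟨δ, hδ, hδp⟩ := hθ.exists_delta
  set T : ℝ := C ^ d + ν with hT
  have hνT : ν ≤ T := by rw [hT]; linarith [pow_pos hC d]
  set W : ℝ := d * Real.log (D + 1) with hW
  have hW0 : 0 ≤ W := mul_nonneg (Nat.cast_nonneg _) (Real.log_nonneg (by
    have : (0 : ℝ) ≤ D := Nat.cast_nonneg D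
    linarith))
  set ρ : ℝ := |Real.log ν| + d * |Real.log C| with hρ
  have hρ0 : 0 ≤ ρ := by positivity
  set Δ : ℝ := (W + 2 * D * ρ) / δ with hΔ
  have hΔ0 : 0 ≤ Δ := by positivity
  set Θ : ℝ := ∑ i, |θ i| with hΘ
  have hΘ0 : 0 ≤ Θ := Finset.sum_nonneg fun i _ => abs_nonneg _
  set ρ' : ℝ := Δ * Θ + ρ with hρ'
  have hρ'0 : 0 ≤ ρ' := by positivity
  refine ⟨(prs d D).card * (2 ^ d * (⌊2 * ρ' / Real.log (1 + ν / T)⌋₊ + 2) ^ d), ?_⟩
  intro g hg hnu G hG0 hG S hS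
  obtain ⟨c, hc⟩ := structure_zero hg hG0 hG
  have hF0 : ∀ x ∈ S, FF g (iR x) ≠ 0 := by
    intro x hx h0
    have := hnu x (hS x hx).1
    rw [h0, abs_zero] at this
    linarith
  let Sp : (Fin d → ℕ) × (Fin d → ℕ) → Finset (Fin d → ℤ) := fun p =>
    S.filter fun x => |∑ i, ((p.1 i : ℝ) - p.2 i) * Real.log |(g *ᵥ iR x) i| - c p.1 p.2| ≤ W
  have hcov : S ⊆ (prs d D).biUnion Sp := by
    intro x hx
    obtain ⟨β, γ, hne, hβ, hγ, hle⟩ := hc (iR x) (hF0 x hx) (hS x hx).2.1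
    rw [Finset.mem_biUnion]
    exact ⟨(β, γ), mem_prs hne hβ hγ, Finset.mem_filter.2 ⟨hx, hle⟩⟩
  refine (Finset.card_le_card hcov).trans (Finset.card_biUnion_le.trans ?_)
  rw [← smul_eq_mul]
  refine Finset.sum_le_card_nsmul _ _ _ fun p hp => ?_
  have hs := hδp p hp
  rw [prs, Finset.mem_filter] at hp
  set s : ℝ := ∑ i, ((p.1 i : ℝ) - p.2 i) * θ i with hsdef
  refine card_box hd hν hνT hnu (fun i => c p.1 p.2 / s * θ i) ρ' hρ'0 (Sp p) ?_
  intro x hx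
  obtain ⟨hxS, hxc⟩ := Finset.mem_filter.1 hx
  obtain ⟨hx0, -, t, ht⟩ := hS x hxS
  have hnear := log_near hν hC hnu hθ.1 hx0 ht
  refine ⟨hx0, ?_, fun i => ?_⟩
  · have h1 : |FF g (iR x)| ≤ ∏ i, (C * Real.exp (t * θ i)) := by
      rw [FF_eq_prod, Finset.abs_prod]
      exact Finset.prod_le_prod (fun i _ => abs_nonneg _) fun i _ => ht i
    rw [Finset.prod_mul_distrib, Finset.prod_const, Finset.card_univ, Fintype.card_fin,
      ← Real.exp_sum, ← Finset.mul_sum, hθ.1, mul_zero, Real.exp_zero, mul_one] at h1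
    rw [hT]
    linarith
  · have hs0 : 0 < |s| := hδ.trans_le hs
    have hs0' : s ≠ 0 := abs_pos.1 hs0
    have h1 : |∑ i, ((p.1 i : ℝ) - p.2 i) * Real.log |(g *ᵥ iR x) i| - t * s| ≤ 2 * D * ρ := by
      have h2 : ∑ i, ((p.1 i : ℝ) - p.2 i) * Real.log |(g *ᵥ iR x) i| - t * s =
          ∑ i, ((p.1 i : ℝ) - p.2 i) * (Real.log |(g *ᵥ iR x) i| - t * θ i) := by
        rw [hsdef, Finset.mul_sum, ← Finset.sum_sub_distrib]
        refine Finset.sum_congr rfl fun i _ => ?_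
        ring
      rw [h2]
      refine (Finset.abs_sum_le_sum_abs _ _).trans ?_
      have h3 : ∀ i ∈ (Finset.univ : Finset (Fin d)),
          |((p.1 i : ℝ) - p.2 i) * (Real.log |(g *ᵥ iR x) i| - t * θ i)| ≤
          ((p.1 i : ℝ) + p.2 i) * ρ := by
        intro i _
        rw [abs_mul]
        have h6 : (0 : ℝ) ≤ p.1 i := Nat.cast_nonneg _
        have h7 : (0 : ℝ) ≤ p.2 i := Nat.cast_nonneg _
        refine mul_le_mul ?_ (hnear i) (abs_nonneg _) (by positivity)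
        rw [abs_le]
        constructor <;> linarith
      refine (Finset.sum_le_sum h3).trans (le_of_eq ?_)
      rw [← Finset.sum_mul, Finset.sum_add_distrib]
      have h4 : (∑ i, (p.1 i : ℝ)) = D := by exact_mod_cast hp.2.2.1
      have h5 : (∑ i, (p.2 i : ℝ)) = D := by exact_mod_cast hp.2.2.2
      rw [h4, h5]
      ring
    have h2 : |t * s - c p.1 p.2| ≤ W + 2 * D * ρ := by
      have h3 := abs_le.1 h1
      have h4 := abs_le.1 hxc
      rw [abs_le]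
      constructor <;> linarith
    have h3 : |t - c p.1 p.2 / s| ≤ Δ := by
      have h4 : t - c p.1 p.2 / s = (t * s - c p.1 p.2) / s := by field_simp
      rw [h4, abs_div, hΔ]
      exact div_le_div₀ (by positivity) h2 hδ hs
    have h4 : |t * θ i - c p.1 p.2 / s * θ i| ≤ Δ * Θ := by
      rw [← sub_mul, abs_mul]
      refine mul_le_mul h3 ?_ (abs_nonneg _) hΔ0
      exact Finset.single_le_sum (f := fun i => |θ i|) (fun i _ => abs_nonneg _)
        (Finset.mem_univ i)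
    have h5 := abs_le.1 (hnear i)
    have h6 := abs_le.1 h4
    rw [abs_le, hρ']
    constructor <;> linarith

/-- an explicit generic direction -/
theorem exists_gen (hd : 0 < d) (D : ℕ) : ∃ θ : Fin d → ℝ, Gen D θ := by
  have hdR : (d : ℝ) ≠ 0 := by
    have : (0 : ℝ) < d := by exact_mod_cast hd
    exact this.ne'
  set S : ℝ := ∑ i : Fin d, ((D : ℝ) + 1) ^ (i : ℕ) with hS
  refine ⟨fun i => ((D : ℝ) + 1) ^ (i : ℕ) - S / d, ?_, fun β γ hne hβ hγ h => hne ?_⟩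
  · rw [Finset.sum_sub_distrib, Finset.sum_const, Finset.card_univ, Fintype.card_fin, nsmul_eq_mul,
      mul_div_cancel₀ _ hdR, hS, sub_self]
  · have hβR : (∑ i, (β i : ℝ)) = D := by exact_mod_cast hβ
    have hγR : (∑ i, (γ i : ℝ)) = D := by exact_mod_cast hγ
    have h1 : ∑ i, (β i : ℝ) * ((D : ℝ) + 1) ^ (i : ℕ) =
        ∑ i, (γ i : ℝ) * ((D : ℝ) + 1) ^ (i : ℕ) := by
      simp only [mul_sub, sub_mul, Finset.sum_sub_distrib, ← Finset.sum_mul] at h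
      rw [hβR, hγR] at h
      linarith
    have h2 : ∑ i, β i * (D + 1) ^ (i : ℕ) = ∑ i, γ i * (D + 1) ^ (i : ℕ) := by exact_mod_cast h1
    have hlt : ∀ (β : Fin d → ℕ), ∑ i, β i = D → ∀ i, β i < D + 1 := by
      intro β hβ i
      have := Finset.single_le_sum (f := β) (fun _ _ => Nat.zero_le _) (Finset.mem_univ i)
      omega
    have h3 : (fun i => (⟨β i, hlt β hβ i⟩ : Fin (D + 1))) = fun i => ⟨γ i, hlt γ hγ i⟩ := by
      apply finFunctionFinEquiv.injective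
      apply Fin.ext
      rw [finFunctionFinEquiv_apply, finFunctionFinEquiv_apply]
      exact h2
    funext i
    have := congrFun h3 i
    exact congrArg Fin.val this

lemma Gen.ne_zero (hd : 2 ≤ d) {D : ℕ} (hD : 1 ≤ D) {θ : Fin d → ℝ} (hθ : Gen D θ) : θ ≠ 0 := by
  intro h0
  set i₀ : Fin d := ⟨0, by omega⟩ with hi₀
  set i₁ : Fin d := ⟨1, by omega⟩ with hi₁
  have hne : i₀ ≠ i₁ := by
    intro h
    have := congrArg Fin.val h
    simp [hi₀, hi₁] at this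
  refine hθ.2 (fun i => if i = i₀ then D else 0) (fun i => if i = i₁ then D else 0) ?_ (by simp)
    (by simp) (by simp [h0])
  intro h
  have := congrFun h i₀
  simp only [if_true, if_neg hne] at this
  omega

/-- the nonzero integer points near the part of the line with parameters in `I` -/
def RP (g : Matrix (Fin d) (Fin d) ℝ) (θ : Fin d → ℝ) (C : ℝ) (I : Set ℝ) : Set (Fin d → ℤ) :=
  {x | x ≠ 0 ∧ ∃ t ∈ I, ∀ i, |(g *ᵥ iR x) i| ≤ C * Real.exp (t * θ i)}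

/-- **Many points near a line.** -/
theorem ray_points (hd : 0 < d) {V ν : ℝ} (hV : 0 < V) (hν : 0 < ν)
    {Y : Set (Matrix (Fin d) (Fin d) ℝ)} (hYc : IsClosed Y) (hYinv : H715R2.Inv Y)
    (hYdet : ∀ h ∈ Y, |h.det| = V) (hYnu : ∀ h ∈ Y, HasNu h ν) {S : Set ℝ} (hSo : IsOpen S)
    (hS : ∀ h ∈ Y, ∃ m : Fin d → ℤ, m ≠ 0 ∧ FF h (iR m) ∈ S) :
    ∃ r : ℝ, 0 < r ∧ ∀ θ : Fin d → ℝ, ∑ i, θ i = 0 → θ ≠ 0 → ∃ κ : ℝ, 0 < κ ∧ ∀ g ∈ Y,
      ∀ t₀ R : ℝ, 0 ≤ R → ∃ P : Finset (Fin d → ℤ), κ * R ≤ P.card ∧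
        ∀ x ∈ P, FF g (iR x) ∈ S ∧ x ∈ RP g θ r (Set.Icc t₀ (t₀ + R)) := by
  classical
  obtain ⟨r, hr, hvec⟩ := TH314.CSD.exists_vec_set hd hV hν hYc hYinv hYdet hYnu hSo hS
  refine ⟨r, hr, fun θ hθ hθ0 => ?_⟩
  obtain ⟨i₀, hi₀⟩ : ∃ i, θ i ≠ 0 := by
    by_contra h
    push Not at h
    exact hθ0 (funext h)
  have hi₀' : 0 < |θ i₀| := abs_pos.2 hi₀
  set lo : ℝ := ν / r ^ (d - 1) with hlo
  have hlo0 : 0 < lo := div_pos hν (pow_pos hr _)
  set τ : ℝ := (|Real.log r| + |Real.log lo| + 1) / |θ i₀| with hτ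
  have hτ0 : 0 < τ := by positivity
  refine ⟨1 / τ, by positivity, fun g hg t₀ R hR => ?_⟩
  have hb1 : ∀ k : ℕ, ∏ i, Real.exp (-((t₀ + k * τ) * θ i)) = 1 := by
    intro k
    rw [← Real.exp_sum]
    have h1 : ∑ i, -((t₀ + k * τ) * θ i) = -((t₀ + k * τ) * ∑ i, θ i) := by
      rw [Finset.mul_sum, Finset.sum_neg_distrib]
    rw [h1, hθ, mul_zero, neg_zero, Real.exp_zero]
  choose m hm1 hm2 hm3 using fun k : ℕ =>
    hvec g hg (fun i => Real.exp (-((t₀ + k * τ) * θ i))) (fun i => Real.exp_pos _) (hb1 k)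
  have hzpos : ∀ k i, 0 < |(g *ᵥ iR (m k)) i| := by
    intro k i
    exact (mul_pos_iff_of_pos_left (Real.exp_pos _)).1 (hlo0.trans_le (hm2 k i))
  have hlog1 : ∀ k i, Real.log |(g *ᵥ iR (m k)) i| < Real.log r + (t₀ + k * τ) * θ i := by
    intro k i
    have h1 := Real.log_lt_log (mul_pos (Real.exp_pos _) (hzpos k i)) (hm1 k i)
    rw [Real.log_mul (Real.exp_pos _).ne' (hzpos k i).ne', Real.log_exp] at h1
    linarith
  have hlog2 : ∀ k i, Real.log lo + (t₀ + k * τ) * θ i ≤ Real.log |(g *ᵥ iR (m k)) i| := by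
    intro k i
    have h3 := Real.log_le_log hlo0 (hm2 k i)
    rw [Real.log_mul (Real.exp_pos _).ne' (hzpos k i).ne', Real.log_exp] at h3
    linarith
  have hinj : Function.Injective m := by
    intro k k' h
    have h1 := hlog1 k i₀
    have h2 := hlog2 k i₀
    have h3 := hlog1 k' i₀
    have h4 := hlog2 k' i₀
    rw [h] at h1 h2
    have h5 := le_abs_self (Real.log r)
    have h6 := neg_abs_le (Real.log lo)
    have h7 : |((k : ℝ) - k') * τ * θ i₀| < |Real.log r| + |Real.log lo| + 1 := by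
      rw [abs_lt]
      constructor <;> linarith
    rw [abs_mul, abs_mul, abs_of_pos hτ0, mul_assoc, hτ, div_mul_cancel₀ _ hi₀'.ne'] at h7
    have h8 : 0 < |Real.log r| + |Real.log lo| + 1 := by positivity
    have h9 : |(k : ℝ) - k'| < 1 := by
      by_contra hcon
      have := mul_le_mul_of_nonneg_right (not_lt.1 hcon) h8.le
      linarith
    have h10 : |((k : ℤ) - (k' : ℤ))| < 1 := by exact_mod_cast h9
    have h11 := Int.abs_lt_one_iff.1 h10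
    omega
  refine ⟨(Finset.range (⌊R / τ⌋₊ + 1)).image m, ?_, ?_⟩
  · rw [Finset.card_image_of_injective _ hinj, Finset.card_range]
    push_cast
    have := Nat.lt_floor_add_one (R / τ)
    rw [one_div, inv_mul_eq_div]
    exact this.le
  · intro x hx
    obtain ⟨k, hk, rfl⟩ := Finset.mem_image.1 hx
    rw [Finset.mem_range, Nat.lt_succ_iff] at hk
    have hk' : (k : ℝ) * τ ≤ R := by
      rw [← le_div_iff₀ hτ0]
      exact (Nat.cast_le.2 hk).trans (Nat.floor_le (div_nonneg hR hτ0.le))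
    have hk0 : 0 ≤ (k : ℝ) * τ := by positivity
    refine ⟨hm3 k, ?_, t₀ + k * τ, ⟨by linarith, by linarith⟩, fun i => ?_⟩
    · intro h0
      have h1 := hzpos k i₀
      have h2 : iR (0 : Fin d → ℤ) = 0 := by
        funext i
        simp [iR]
      rw [h0, h2, mulVec_zero, Pi.zero_apply, abs_zero] at h1
      exact lt_irrefl _ h1
    · have h1 := (hm1 k i).le
      rw [Real.exp_neg, inv_mul_le_iff₀ (Real.exp_pos _)] at h1
      linarith

/-- **Near a generic line the points are not covered by few hypersurfaces.** -/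
theorem ray_lower (hd : 2 ≤ d) {V ν : ℝ} (hV : 0 < V) (hν : 0 < ν)
    {Y : Set (Matrix (Fin d) (Fin d) ℝ)} (hYc : IsClosed Y) (hYinv : H715R2.Inv Y)
    (hYdet : ∀ h ∈ Y, |h.det| = V) (hYnu : ∀ h ∈ Y, HasNu h ν) {S : Set ℝ} (hSo : IsOpen S)
    (hS : ∀ h ∈ Y, ∃ m : Fin d → ℤ, m ≠ 0 ∧ FF h (iR m) ∈ S) :
    ∃ r : ℝ, 0 < r ∧ ∀ D : ℕ, 1 ≤ D → ∀ θ : Fin d → ℝ, Gen D θ → ∃ κ : ℝ, 0 < κ ∧ ∀ g ∈ Y,
      ∀ t₀ R : ℝ, 0 ≤ R → ∀ 𝓖 : Finset (MvPolynomial (Fin d) ℝ),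
        (∀ G ∈ 𝓖, G ≠ 0 ∧ G.IsHomogeneous D) → (𝓖.card : ℝ) < κ * R →
        ∃ x ∈ RP g θ r (Set.Icc t₀ (t₀ + R)), FF g (iR x) ∈ S ∧
          ∀ G ∈ 𝓖, eval (iR x) G ≠ 0 := by
  classical
  have hd0 : 0 < d := by omega
  obtain ⟨r, hr, hpts⟩ := ray_points hd0 hV hν hYc hYinv hYdet hYnu hSo hS
  refine ⟨r, hr, fun D hD θ hθ => ?_⟩
  obtain ⟨κ, hκ, hP⟩ := hpts θ hθ.1 (hθ.ne_zero hd hD)
  obtain ⟨N, hN⟩ := ray_upper hd0 hν hr hθ
  refine ⟨κ / (N + 1), by positivity, fun g hg t₀ R hR 𝓖 h𝓖 hcard => ?_⟩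
  obtain ⟨P, hPc, hPx⟩ := hP g hg t₀ R hR
  by_contra hcon
  push Not at hcon
  have hdet0 : g.det ≠ 0 := by
    intro h0
    have := hYdet g hg
    rw [h0, abs_zero] at this
    exact hV.ne this
  have hcov : P ⊆ 𝓖.biUnion fun G => P.filter fun x => eval (iR x) G = 0 := by
    intro x hx
    obtain ⟨G, hG, hxG⟩ := hcon x (hPx x hx).2 (hPx x hx).1
    rw [Finset.mem_biUnion]
    exact ⟨G, hG, Finset.mem_filter.2 ⟨hx, hxG⟩⟩
  have h1 : P.card ≤ 𝓖.card * N := by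
    refine (Finset.card_le_card hcov).trans (Finset.card_biUnion_le.trans ?_)
    rw [← smul_eq_mul]
    refine Finset.sum_le_card_nsmul _ _ _ fun G hG => ?_
    refine hN g hdet0 (hYnu g hg) G (h𝓖 G hG).1 (h𝓖 G hG).2 _ fun x hx => ?_
    obtain ⟨hx1, hx2⟩ := Finset.mem_filter.1 hx
    obtain ⟨-, h3, t, -, ht⟩ := hPx x hx1
    exact ⟨h3, hx2, t, ht⟩
  have h2 : κ * R ≤ 𝓖.card * N := by
    refine hPc.trans ?_
    exact_mod_cast h1
  rw [div_mul_eq_mul_div, lt_div_iff₀ (by positivity)] at hcard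
  have h3 : (0 : ℝ) ≤ 𝓖.card := Nat.cast_nonneg _
  linarith

end Pool.Agent.Q118.VC
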