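import Mathlib
import Pool.Agent.H715R2.CountableValues
import Pool.Agent.H715R2.Uncountable
import Pool.Agent.Q118.VC.Lower
import Pool.Agent.Q118.VC.Ray

/-!
# Commensurability classes, and forms proportional to integral forms
-/

set_option autoImplicit false

open MvPolynomial Matrix Filter Topology

namespace Pool.Agent.Q118.VC

open H715R2

variable {d : ℕ}

lemma exists_coeff {Φ : MvPolynomial (Fin d) ℝ} {E : Submodule ℚ ℝ}
    (h : ∃ x : Fin d → ℤ, eval (iR x) Φ ∉ E) : ∃ m, coeff m Φ ∉ E := by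
  by_contra hcon
  push Not at hcon
  obtain ⟨x, hx⟩ := h
  exact hx (eval_mem hcon x)

/-- the hypersurface of a rational subspace -/
lemma exists_hyp {Φ : MvPolynomial (Fin d) ℝ} {D : ℕ} (hΦ : Φ.IsHomogeneous D)
    {E : Submodule ℚ ℝ} (h : ∃ x : Fin d → ℤ, eval (iR x) Φ ∉ E) :
    ∃ G : MvPolynomial (Fin d) ℝ, (G ≠ 0 ∧ G.IsHomogeneous D) ∧
      ∀ x : Fin d → ℤ, eval (iR x) Φ ∈ E → eval (iR x) G = 0 := by
  obtain ⟨m, hm⟩ := exists_coeff h
  obtain ⟨G, hG0, hGs, hG⟩ := exists_relation hm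
  exact ⟨G, ⟨hG0, homogeneous_of_support hΦ hGs⟩, hG⟩

/-- from hypersurfaces to rational subspaces -/
lemma cover_transfer {Φ : MvPolynomial (Fin d) ℝ} {D : ℕ} (hΦ : Φ.IsHomogeneous D)
    {Q : Set (Fin d → ℤ)} {M : ℝ}
    (hcov : ∀ 𝓖 : Finset (MvPolynomial (Fin d) ℝ), (∀ G ∈ 𝓖, G ≠ 0 ∧ G.IsHomogeneous D) →
      (𝓖.card : ℝ) < M → ∃ x ∈ Q, ∀ G ∈ 𝓖, eval (iR x) G ≠ 0)
    (𝓔 : Finset (Submodule ℚ ℝ)) (h𝓔 : ∀ E ∈ 𝓔, ∃ x : Fin d → ℤ, eval (iR x) Φ ∉ E)
    (hM : (𝓔.card : ℝ) < M) : ∃ x ∈ Q, ∀ E ∈ 𝓔, eval (iR x) Φ ∉ E := by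
  classical
  choose! G hG1 hG2 using fun E (hE : E ∈ 𝓔) => exists_hyp hΦ (h𝓔 E hE)
  obtain ⟨x, hx, hxG⟩ := hcov (𝓔.image G) (by
    intro H hH
    obtain ⟨E, hE, rfl⟩ := Finset.mem_image.1 hH
    exact hG1 E hE) (lt_of_le_of_lt (by exact_mod_cast Finset.card_image_le) hM)
  exact ⟨x, hx, fun E hE hcon => hxG _ (Finset.mem_image_of_mem G hE) (hG2 E hE x hcon)⟩

/-- commensurable values -/
lemma propInt_of_values {g : Matrix (Fin d) (Fin d) ℝ} {lam : ℝ} (hlam : lam ≠ 0)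
    (h : ∀ x : Fin d → ℤ, FF g (iR x) ∈ Submodule.span ℚ {lam}) : PropInt g := by
  classical
  have h1 : ∀ m, coeff m (polyF g) ∈ Submodule.span ℚ {lam} := by
    refine coeff_mem fun x => ?_
    rw [eval_polyF]
    exact h x
  have h2 : ∀ m, ∃ q : ℚ, coeff m (polyF g) = q * lam := by
    intro m
    obtain ⟨q, hq⟩ := Submodule.mem_span_singleton.1 (h1 m)
    exact ⟨q, by rw [← hq, Rat.smul_def]⟩
  choose q hq using h2
  set Q : MvPolynomial (Fin d) ℚ := ∑ m ∈ (polyF g).support, monomial m (q m) with hQ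
  have hc : ∀ m, coeff m (polyF g) = ((coeff m Q : ℚ) : ℝ) * lam := by
    intro m
    rw [hQ, coeff_sum]
    simp only [coeff_monomial]
    rw [Finset.sum_ite_eq']
    split_ifs with hm
    · exact hq m
    · rw [notMem_support_iff.1 hm]; simp
  obtain ⟨N, hN, hz⟩ := exists_common_den Q
  refine ⟨N * lam⁻¹, mul_ne_zero (by exact_mod_cast hN) (inv_ne_zero hlam), fun m => ?_⟩
  obtain ⟨z, hz⟩ := hz m
  refine ⟨z, ?_⟩
  rw [coeff_smul, smul_eq_mul, hc]
  have h3 : ((N : ℝ) * ((coeff m Q : ℚ) : ℝ)) = z := by exact_mod_cast congrArg (fun t : ℚ => (t : ℝ)) hz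
  rw [← h3]
  field_simp

/-- the multiples of `lam` by elements of `K` -/
def cl (K : Subfield ℝ) (lam : ℝ) : Submodule ℚ ℝ where
  carrier := {t | ∃ k ∈ K, t = k * lam}
  zero_mem' := ⟨0, K.zero_mem, by ring⟩
  add_mem' := by
    rintro _ _ ⟨k, hk, rfl⟩ ⟨l, hl, rfl⟩
    exact ⟨k + l, K.add_mem hk hl, by ring⟩
  smul_mem' := by
    rintro q _ ⟨k, hk, rfl⟩
    exact ⟨q * k, K.mul_mem (SubfieldClass.ratCast_mem K q) hk, by rw [Rat.smul_def]; ring⟩

lemma mem_cl {K : Subfield ℝ} {lam t : ℝ} : t ∈ cl K lam ↔ ∃ k ∈ K, t = k * lam := Iff.rfl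

lemma self_mem_cl (K : Subfield ℝ) (lam : ℝ) : lam ∈ cl K lam := ⟨1, K.one_mem, by ring⟩

lemma div_notMem {K : Subfield ℝ} {lam t : ℝ} (hlam : lam ≠ 0) (h : t ∉ cl K lam) :
    t / lam ∉ K := fun hk => h ⟨t / lam, hk, by field_simp⟩

/-- if some ratio of values is not in `K`, then no class contains all values -/
lemma exists_notMem_cl {g : Matrix (Fin d) (Fin d) ℝ} {ν : ℝ} (hν : 0 < ν) (hnu : HasNu g ν)
    {K : Subfield ℝ} {x y : Fin d → ℤ} (hy : y ≠ 0)
    (hxy : FF g (iR x) / FF g (iR y) ∉ K) (lam : ℝ) :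
    ∃ x : Fin d → ℤ, FF g (iR x) ∉ cl K lam := by
  by_contra hcon
  push Not at hcon
  obtain ⟨k, hk, h1⟩ := hcon x
  obtain ⟨l, hl, h2⟩ := hcon y
  have hlam : lam ≠ 0 := by
    intro h0
    have := hnu y hy
    rw [h2, h0, mul_zero, abs_zero] at this
    linarith
  apply hxy
  rw [h1, h2, mul_div_mul_right _ _ hlam]
  exact K.div_mem hk hl

/-- pairwise inequivalent points -/
lemma greedy (Q : Set (Fin d → ℤ)) (f : (Fin d → ℤ) → ℝ) (hf : ∀ x ∈ Q, f x ≠ 0)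
    (K : Subfield ℝ) (M : ℝ) (good : Submodule ℚ ℝ → Prop)
    (hcov : ∀ 𝓔 : Finset (Submodule ℚ ℝ), (∀ E ∈ 𝓔, good E) → (𝓔.card : ℝ) < M →
      ∃ x ∈ Q, ∀ E ∈ 𝓔, f x ∉ E) (hgood : ∀ lam : ℝ, good (cl K lam)) :
    ∃ P : Finset (Fin d → ℤ), M ≤ P.card ∧ (∀ x ∈ P, x ∈ Q) ∧
      ∀ x ∈ P, ∀ y ∈ P, x ≠ y → f x / f y ∉ K := by
  classical
  have key : ∀ k : ℕ, k ≤ ⌈M⌉₊ → ∃ P : Finset (Fin d → ℤ), P.card = k ∧ (∀ x ∈ P, x ∈ Q) ∧
      ∀ x ∈ P, ∀ y ∈ P, x ≠ y → f x / f y ∉ K := by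
    intro k
    induction k with
    | zero => exact fun _ => ⟨∅, rfl, by simp, by simp⟩
    | succ k ih =>
      intro hk
      obtain ⟨P, hPc, hPQ, hPK⟩ := ih (by omega)
      have hkM : (k : ℝ) < M := Nat.lt_ceil.1 (by omega)
      obtain ⟨x, hxQ, hx⟩ := hcov (P.image fun p => cl K (f p)) (by
        intro E hE
        obtain ⟨p, -, rfl⟩ := Finset.mem_image.1 hE
        exact hgood _) (lt_of_le_of_lt (by
          have : (P.image fun p => cl K (f p)).card ≤ P.card := Finset.card_image_le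
          rw [hPc] at this
          exact_mod_cast this) hkM)
      have hx' : ∀ p ∈ P, f x ∉ cl K (f p) := fun p hp => hx _ (Finset.mem_image_of_mem _ hp)
      have hxP : x ∉ P := fun h => hx' x h (self_mem_cl K _)
      refine ⟨insert x P, by rw [Finset.card_insert_of_notMem hxP, hPc], ?_, ?_⟩
      · intro y hy
        rcases Finset.mem_insert.1 hy with rfl | hy
        · exact hxQ
        · exact hPQ y hy
      · intro y hy z hz hyz
        rcases Finset.mem_insert.1 hy with hy | hy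
        · rcases Finset.mem_insert.1 hz with hz | hz
          · exact absurd (hy.trans hz.symm) hyz
          · rw [hy]
            exact div_notMem (hf z (hPQ z hz)) (hx' z hz)
        · rcases Finset.mem_insert.1 hz with hz | hz
          · rw [hz]
            intro hcon
            have h1 := K.inv_mem hcon
            rw [inv_div] at h1
            exact div_notMem (hf y (hPQ y hy)) (hx' y hy) h1
          · exact hPK y hy z hz hyz
  obtain ⟨P, hP, h1, h2⟩ := key ⌈M⌉₊ le_rfl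
  exact ⟨P, by rw [hP]; exact Nat.le_ceil M, h1, h2⟩

/-- the orbit of a form proportional to an integral form is closed -/
theorem orb_closed (hd : 0 < d) {g : Matrix (Fin d) (Fin d) ℝ} (hg : g.det ≠ 0) {ν : ℝ}
    (hν : 0 < ν) (hnu : HasNu g ν) (hP : PropInt g) {h : Matrix (Fin d) (Fin d) ℝ}
    (hh : h ∈ closure (Orb g)) : h ∈ Orb g := by
  classical
  have hV : 0 < |g.det| := abs_pos.2 hg
  obtain ⟨r, hr0, hvec⟩ := exists_vec_gen hd |g.det| ν (2 * (d : ℝ) ^ d * |g.det| *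
      (d.factorial : ℝ) + 1) hV hν (fun h' hh' => mink_prod hd |g.det| _ hV (by
      have h1 : (1 : ℝ) ≤ (d : ℝ) ^ d := by
        have : (1 : ℝ) ≤ d := by exact_mod_cast hd
        exact one_le_pow₀ this
      have h2 : (0 : ℝ) < (d.factorial : ℝ) * |g.det| := by positivity
      have h3 : (d.factorial : ℝ) * |g.det| ≤ (d : ℝ) ^ d * ((d.factorial : ℝ) * |g.det|) := by
        nlinarith
      nlinarith) h' hh')
  have hdet : |h.det| = |g.det| := abs_det_closure hh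
  have hdet0 : h.det ≠ 0 := by
    intro h0
    rw [h0, abs_zero] at hdet
    exact hg (abs_eq_zero.1 hdet.symm)
  have hnu₀ := hasNu_closure hnu hh
  obtain ⟨m, hm1, hm2⟩ := determine hd (div_pos hν (pow_pos hr0 _)) hdet0 hr0
    (hvec h hdet hnu₀)
  obtain ⟨c, hc, hval⟩ := values_of_propInt hP
  -- nearby forms of the orbit have the same values
  have hev : ∀ m : Fin d → ℤ, ∀ᶠ h' in 𝓝[Orb g] h, FF h' (iR m) = FF h (iR m) := by
    intro m
    have hcz : ∀ h' ∈ Orb g, ∃ z : ℤ, FF h' (iR m) = c * z := by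
      rintro h' ⟨a, γ, _, ha, hγ, rfl⟩
      rw [FF_orb ha]
      exact hval _
    have hlim : ∃ z : ℤ, FF h (iR m) = c * z := by
      have h1 : FF h (iR m) ∈ closure ((fun t : ℝ => c * t) '' (Set.range (Int.cast : ℤ → ℝ))) := by
        refine map_mem_closure (f := fun g : Matrix (Fin d) (Fin d) ℝ => FF g (iR m))
          (continuous_FF (iR m)) hh ?_
        intro h' hh'
        obtain ⟨z, hz⟩ := hcz h' hh'
        exact ⟨z, ⟨z, rfl⟩, hz.symm⟩
      rw [IsClosed.closure_eq] at h1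
      · obtain ⟨_, ⟨z, rfl⟩, hz⟩ := h1
        exact ⟨z, hz.symm⟩
      · exact (Homeomorph.mulLeft₀ c hc).isClosedMap _ Int.isClosedEmbedding_coe_real.isClosed_range
    obtain ⟨z, hz⟩ := hlim
    have h2 : ∀ᶠ h' in 𝓝[Orb g] h, |FF h' (iR m) - FF h (iR m)| < |c| := by
      have h3 : Tendsto (fun h' => FF h' (iR m)) (𝓝[Orb g] h) (𝓝 (FF h (iR m))) :=
        ((continuous_FF (iR m)).tendsto h).mono_left nhdsWithin_le_nhds
      have h4 := h3.eventually (Metric.ball_mem_nhds (FF h (iR m)) (abs_pos.2 hc))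
      refine h4.mono fun h' hh' => ?_
      rw [← Real.dist_eq]
      exact hh'
    filter_upwards [h2, self_mem_nhdsWithin] with h' h3 h4
    obtain ⟨z', hz'⟩ := hcz h' h4
    rw [hz', hz, ← mul_sub, abs_mul] at h3
    have h5 : |((z' : ℝ) - z)| < 1 := by
      have h6 := abs_pos.2 hc
      by_contra hcon
      have := mul_le_mul_of_nonneg_left (not_lt.1 hcon) h6.le
      linarith
    have h6 : |z' - z| < 1 := by exact_mod_cast h5
    have h7 := Int.abs_lt_one_iff.1 h6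
    rw [hz', hz]
    have h8 : z' = z := by linarith
    rw [h8]
  have hev1 : ∀ᶠ h' in 𝓝[Orb g] h, ∀ p, FF h' (iR (m p)) = FF h (iR (m p)) :=
    Filter.eventually_all.2 fun p => hev (m p)
  have hne : (𝓝[Orb g] h).NeBot := mem_closure_iff_nhdsWithin_neBot.1 hh
  have hm2' : ∀ᶠ h' in 𝓝[Orb g] h, (∀ p, FF h' (iR (m p)) = FF h (iR (m p))) →
      ∃ a : Fin d → ℝ, (∀ i, 0 < a i) ∧ ∏ i, a i = 1 ∧ h' = diagonal a * h :=
    nhdsWithin_le_nhds hm2
  have hm3 : ∀ᶠ h' in 𝓝[Orb g] h, h' ∈ Orb g := self_mem_nhdsWithin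
  obtain ⟨h', hh', hh'', hh3⟩ := (hev1.and (hm2'.and hm3)).exists
  obtain ⟨a, ha0, ha1, ha⟩ := hh'' hh'
  obtain ⟨b, γ, hb0, hb1, hγ, hb⟩ := hh3
  refine ⟨fun i => (a i)⁻¹ * b i, γ, fun i => mul_pos (inv_pos.2 (ha0 i)) (hb0 i), ?_, hγ, ?_⟩
  · rw [Finset.prod_mul_distrib, hb1, mul_one, Finset.prod_inv_distrib, ha1, inv_one]
  · have h1 : diagonal (fun i => (a i)⁻¹) * diagonal a = 1 := by
      rw [diagonal_mul_diagonal, ← diagonal_one]
      congr 1
      funext i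
      exact inv_mul_cancel₀ (ha0 i).ne'
    have h2 : diagonal (fun i => (a i)⁻¹ * b i) = diagonal (fun i => (a i)⁻¹) * diagonal b := by
      rw [diagonal_mul_diagonal]
    rw [h2, Matrix.mul_assoc, Matrix.mul_assoc, ← Matrix.mul_assoc (diagonal b), ← hb, ha,
      ← Matrix.mul_assoc, h1, Matrix.one_mul]

end Pool.Agent.Q118.VC
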