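import Mathlib
import Pool.Agent.Q118.VC.Tools

/-!
# Lines and boxes, for closed invariant families
-/

set_option autoImplicit false

open MvPolynomial Matrix Filter Topology

namespace Pool.Agent.Q118.VC

open H715R2

variable {d : ℕ}

lemma ff_ne {g : Matrix (Fin d) (Fin d) ℝ} {ν : ℝ} (hν : 0 < ν) (hnu : HasNu g ν)
    {x : Fin d → ℤ} (hx : x ≠ 0) : FF g (iR x) ≠ 0 := by
  intro h0
  have := hnu x hx
  rw [h0, abs_zero] at this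
  linarith

/-- **Few zeros near a generic line.** -/
theorem few_on_line (hd : 0 < d) {ν C : ℝ} (hν : 0 < ν) (hC : 0 < C) {D : ℕ} {θ : Fin d → ℝ}
    (hθ : Gen D θ) : ∃ N : ℕ, ∀ g : Matrix (Fin d) (Fin d) ℝ, g.det ≠ 0 → HasNu g ν →
      (∀ G : MvPolynomial (Fin d) ℝ, G ≠ 0 → G.IsHomogeneous D → ∀ P : Finset (Fin d → ℤ),
        (∀ x ∈ P, x ∈ RP g θ C Set.univ ∧ eval (iR x) G = 0) → P.card ≤ N) ∧
      (∀ Φ : MvPolynomial (Fin d) ℝ, Φ.IsHomogeneous D → ∀ E : Submodule ℚ ℝ,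
        (∃ x : Fin d → ℤ, eval (iR x) Φ ∉ E) → ∀ P : Finset (Fin d → ℤ),
        (∀ x ∈ P, x ∈ RP g θ C Set.univ ∧ eval (iR x) Φ ∈ E) → P.card ≤ N) := by
  obtain ⟨N, hN⟩ := ray_upper hd hν hC hθ
  refine ⟨N, fun g hg hnu => ?_⟩
  have h1 : ∀ G : MvPolynomial (Fin d) ℝ, G ≠ 0 → G.IsHomogeneous D →
      ∀ P : Finset (Fin d → ℤ),
        (∀ x ∈ P, x ∈ RP g θ C Set.univ ∧ eval (iR x) G = 0) → P.card ≤ N := by
    intro G hG0 hG P hP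
    refine hN g hg hnu G hG0 hG P fun x hx => ?_
    obtain ⟨⟨h1, t, -, ht⟩, h2⟩ := hP x hx
    exact ⟨h1, h2, t, ht⟩
  refine ⟨h1, fun Φ hΦ E hE P hP => ?_⟩
  obtain ⟨G, ⟨hG0, hG⟩, hGE⟩ := exists_hyp hΦ hE
  exact h1 G hG0 hG P fun x hx => ⟨(hP x hx).1, hGE x (hP x hx).2⟩

/-- commensurable values near a generic line -/
theorem few_comm {ν C : ℝ} (hν : 0 < ν) {N : ℕ} {θ : Fin d → ℝ}
    {g : Matrix (Fin d) (Fin d) ℝ} (hnu : HasNu g ν)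
    (h1 : ∀ Φ : MvPolynomial (Fin d) ℝ, Φ.IsHomogeneous d → ∀ E : Submodule ℚ ℝ,
        (∃ x : Fin d → ℤ, eval (iR x) Φ ∉ E) → ∀ P : Finset (Fin d → ℤ),
        (∀ x ∈ P, x ∈ RP g θ C Set.univ ∧ eval (iR x) Φ ∈ E) → P.card ≤ N)
    (hint : ¬ PropInt g) (P : Finset (Fin d → ℤ)) (hP : ∀ x ∈ P, x ∈ RP g θ C Set.univ)
    (hcomm : ∀ x ∈ P, ∀ y ∈ P, ∃ q : ℚ, FF g (iR x) = q * FF g (iR y)) : P.card ≤ N := by
  rcases P.eq_empty_or_nonempty with rfl | ⟨y, hy⟩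
  · simp
  have hev : ∀ x, eval x (polyF g) = FF g x := fun x => eval_polyF g x
  refine h1 (polyF g) (polyF_homogeneous g) (Submodule.span ℚ {FF g (iR y)}) ?_ P
    fun x hx => ⟨hP x hx, ?_⟩
  · by_contra hcon
    push Not at hcon
    refine hint (propInt_of_values (ff_ne hν hnu (hP y hy).1) fun x => ?_)
    have := hcon x
    rwa [hev] at this
  · obtain ⟨q, hq⟩ := hcomm x hx y hy
    rw [Submodule.mem_span_singleton]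
    exact ⟨q, by rw [hev, hq, Rat.smul_def]⟩

/-- classes modulo a subfield -/
theorem classes_of_cover {ν : ℝ} (hν : 0 < ν) {g : Matrix (Fin d) (Fin d) ℝ} (hnu : HasNu g ν)
    {Q : Set (Fin d → ℤ)} {M : ℝ} (hQ : ∀ x ∈ Q, x ≠ 0)
    (hcov : ∀ 𝓖 : Finset (MvPolynomial (Fin d) ℝ), (∀ G ∈ 𝓖, G ≠ 0 ∧ G.IsHomogeneous d) →
      (𝓖.card : ℝ) < M → ∃ x ∈ Q, ∀ G ∈ 𝓖, eval (iR x) G ≠ 0)
    (K : Subfield ℝ) (hK : ∃ x y : Fin d → ℤ, x ≠ 0 ∧ y ≠ 0 ∧ FF g (iR x) / FF g (iR y) ∉ K) :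
    ∃ P : Finset (Fin d → ℤ), M ≤ P.card ∧ (∀ x ∈ P, x ∈ Q) ∧
      ∀ x ∈ P, ∀ y ∈ P, x ≠ y → FF g (iR x) / FF g (iR y) ∉ K := by
  obtain ⟨x, y, -, hy, hxy⟩ := hK
  have hev : ∀ x, eval x (polyF g) = FF g x := fun x => eval_polyF g x
  refine greedy Q (fun x => FF g (iR x)) (fun x hx => ff_ne hν hnu (hQ x hx)) K M
    (fun E => ∃ x : Fin d → ℤ, eval (iR x) (polyF g) ∉ E) ?_ ?_
  · intro 𝓔 h𝓔 hcard
    obtain ⟨x, hx, hx2⟩ := cover_transfer (polyF_homogeneous g) hcov 𝓔 h𝓔 hcard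
    refine ⟨x, hx, fun E hE => ?_⟩
    rw [← hev]
    exact hx2 E hE
  · intro lam
    obtain ⟨x, hx⟩ := exists_notMem_cl hν hnu hy hxy lam
    exact ⟨x, by rw [hev]; exact hx⟩

/-- **Many classes near a generic line.** -/
theorem many_on_line (hd : 2 ≤ d) {V ν : ℝ} (hV : 0 < V) (hν : 0 < ν)
    {Y : Set (Matrix (Fin d) (Fin d) ℝ)} (hYc : IsClosed Y) (hYinv : H715R2.Inv Y)
    (hYdet : ∀ h ∈ Y, |h.det| = V) (hYnu : ∀ h ∈ Y, HasNu h ν) {S : Set ℝ} (hSo : IsOpen S)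
    (hS : ∀ h ∈ Y, ∃ m : Fin d → ℤ, m ≠ 0 ∧ FF h (iR m) ∈ S) :
    ∃ C : ℝ, 0 < C ∧ ∀ D : ℕ, 1 ≤ D → ∀ θ : Fin d → ℝ, Gen D θ → ∃ κ : ℝ, 0 < κ ∧ ∀ g ∈ Y,
      ∀ t₀ R : ℝ, 0 ≤ R →
      (∀ 𝓖 : Finset (MvPolynomial (Fin d) ℝ), (∀ G ∈ 𝓖, G ≠ 0 ∧ G.IsHomogeneous D) →
        (𝓖.card : ℝ) < κ * R → ∃ x ∈ RP g θ C (Set.Icc t₀ (t₀ + R)), FF g (iR x) ∈ S ∧
          ∀ G ∈ 𝓖, eval (iR x) G ≠ 0) ∧
      (∀ Φ : MvPolynomial (Fin d) ℝ, Φ.IsHomogeneous D → ∀ 𝓔 : Finset (Submodule ℚ ℝ),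
        (∀ E ∈ 𝓔, ∃ x : Fin d → ℤ, eval (iR x) Φ ∉ E) →
        (𝓔.card : ℝ) < κ * R → ∃ x ∈ RP g θ C (Set.Icc t₀ (t₀ + R)), FF g (iR x) ∈ S ∧
          ∀ E ∈ 𝓔, eval (iR x) Φ ∉ E) ∧
      (D = d → ∀ K : Subfield ℝ,
        (∃ x y : Fin d → ℤ, x ≠ 0 ∧ y ≠ 0 ∧ FF g (iR x) / FF g (iR y) ∉ K) →
        ∃ P : Finset (Fin d → ℤ), κ * R ≤ P.card ∧
          (∀ x ∈ P, x ∈ RP g θ C (Set.Icc t₀ (t₀ + R)) ∧ FF g (iR x) ∈ S) ∧
          ∀ x ∈ P, ∀ y ∈ P, x ≠ y → FF g (iR x) / FF g (iR y) ∉ K) := by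
  obtain ⟨C, hC, hθ'⟩ := ray_lower hd hV hν hYc hYinv hYdet hYnu hSo hS
  refine ⟨C, hC, fun D hD θ hθ => ?_⟩
  obtain ⟨κ, hκ, h⟩ := hθ' D hD θ hθ
  refine ⟨κ, hκ, fun g hg t₀ R hR => ?_⟩
  have hcov : ∀ 𝓖 : Finset (MvPolynomial (Fin d) ℝ), (∀ G ∈ 𝓖, G ≠ 0 ∧ G.IsHomogeneous D) →
      (𝓖.card : ℝ) < κ * R →
      ∃ x ∈ {x | x ∈ RP g θ C (Set.Icc t₀ (t₀ + R)) ∧ FF g (iR x) ∈ S},
        ∀ G ∈ 𝓖, eval (iR x) G ≠ 0 := by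
    intro 𝓖 h𝓖 hcard
    obtain ⟨x, h1, h2, h3⟩ := h g hg t₀ R hR 𝓖 h𝓖 hcard
    exact ⟨x, ⟨h1, h2⟩, h3⟩
  refine ⟨h g hg t₀ R hR, fun Φ hΦ 𝓔 h𝓔 hcard => ?_, fun hDd K hK => ?_⟩
  · obtain ⟨x, hx, hx2⟩ := cover_transfer hΦ hcov 𝓔 h𝓔 hcard
    exact ⟨x, hx.1, hx.2, hx2⟩
  · subst hDd
    exact classes_of_cover hν (hYnu g hg) (fun x hx => hx.1.1) hcov K hK

/-- **Every box.** -/
theorem in_box (hd : 2 ≤ d) {V ν : ℝ} (hV : 0 < V) (hν : 0 < ν)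
    {Y : Set (Matrix (Fin d) (Fin d) ℝ)} (hYc : IsClosed Y) (hYinv : H715R2.Inv Y)
    (hYdet : ∀ h ∈ Y, |h.det| = V) (hYnu : ∀ h ∈ Y, HasNu h ν) {S : Set ℝ} (hSo : IsOpen S)
    (hS : ∀ h ∈ Y, ∃ m : Fin d → ℤ, m ≠ 0 ∧ FF h (iR m) ∈ S) {D : ℕ} (hD : 1 ≤ D) :
    ∃ C : ℝ, 0 < C ∧ ∀ g ∈ Y, ∀ b : Fin d → ℝ, (∀ i, 0 < b i) → ∏ i, b i = 1 →
      ∀ G : MvPolynomial (Fin d) ℝ, G ≠ 0 → G.IsHomogeneous D →
        ∃ x : Fin d → ℤ, x ≠ 0 ∧ (∀ i, b i * |(g *ᵥ iR x) i| ≤ C) ∧ FF g (iR x) ∈ S ∧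
          eval (iR x) G ≠ 0 := by
  obtain ⟨θ, hθ⟩ := exists_gen (by omega : 0 < d) D
  obtain ⟨r, hr, hray⟩ := ray_lower hd hV hν hYc hYinv hYdet hYnu hSo hS
  obtain ⟨κ, hκ, h⟩ := hray D hD θ hθ
  set Θ : ℝ := ∑ i, |θ i| with hΘ
  have hΘ0 : 0 ≤ Θ := Finset.sum_nonneg fun i _ => abs_nonneg _
  refine ⟨r * Real.exp (2 / κ * Θ), by positivity, fun g hg b hb0 hb1 G hG0 hG => ?_⟩
  have hmemb : diagonal b * g ∈ Y := by
    have := hYinv g hg b 1 hb0 hb1 (by simp)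
    rwa [zR_one, Matrix.mul_one] at this
  have hF : ∀ x, FF (diagonal b * g) x = FF g x := fun x => by
    rw [FF_diag_mul, hb1, one_mul]
  obtain ⟨x, hx, hxS, hxG⟩ := h (diagonal b * g) hmemb 0 (2 / κ) (by positivity) {G} (by
    intro G' hG'
    rw [Finset.mem_singleton] at hG'
    subst hG'
    exact ⟨hG0, hG⟩) (by
    rw [Finset.card_singleton, mul_div_cancel₀ _ hκ.ne']
    norm_num)
  rw [hF] at hxS
  obtain ⟨hx0, t, ht, hxt⟩ := hx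
  rw [zero_add] at ht
  refine ⟨x, hx0, fun i => ?_, hxS, hxG G (Finset.mem_singleton_self G)⟩
  have h2 := hxt i
  rw [← mulVec_mulVec, mulVec_diagonal, abs_mul, abs_of_pos (hb0 i)] at h2
  refine h2.trans (mul_le_mul_of_nonneg_left (Real.exp_le_exp.2 ?_) hr.le)
  calc t * θ i ≤ t * |θ i| := mul_le_mul_of_nonneg_left (le_abs_self _) ht.1
    _ ≤ 2 / κ * |θ i| := mul_le_mul_of_nonneg_right ht.2 (abs_nonneg _)
    _ ≤ 2 / κ * Θ := mul_le_mul_of_nonneg_left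
        (Finset.single_le_sum (f := fun i => |θ i|) (fun i _ => abs_nonneg _)
          (Finset.mem_univ i)) (by positivity)

/-- two incommensurable values in every box -/
theorem box_irrational (hd : 0 < d) {g : Matrix (Fin d) (Fin d) ℝ} {ν : ℝ} (hν : 0 < ν)
    (hnu : HasNu g ν) (hint : ¬ PropInt g) {Q : Set (Fin d → ℤ)} (hQ : ∀ x ∈ Q, x ≠ 0)
    (h : ∀ G : MvPolynomial (Fin d) ℝ, G ≠ 0 → G.IsHomogeneous d →
      ∃ x ∈ Q, eval (iR x) G ≠ 0) :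
    ∃ x ∈ Q, ∃ y ∈ Q, Irrational (FF g (iR x) / FF g (iR y)) := by
  have hev : ∀ x, eval x (polyF g) = FF g x := fun x => eval_polyF g x
  obtain ⟨y, hy, hyG⟩ := h (X ⟨0, hd⟩ ^ d) (pow_ne_zero _ (X_ne_zero _)) (by
    simpa using (isHomogeneous_X ℝ (⟨0, hd⟩ : Fin d)).pow d)
  have hyne := ff_ne hν hnu (hQ y hy)
  obtain ⟨G, ⟨hG0, hG⟩, hGE⟩ := exists_hyp (polyF_homogeneous g)
    (E := Submodule.span ℚ {FF g (iR y)}) (by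
      by_contra hcon
      push Not at hcon
      refine hint (propInt_of_values hyne fun x => ?_)
      have := hcon x
      rwa [hev] at this)
  obtain ⟨x, hx, hxG⟩ := h G hG0 hG
  refine ⟨x, hx, y, hy, ?_⟩
  rintro ⟨q, hq⟩
  apply hxG
  apply hGE
  rw [hev, Submodule.mem_span_singleton]
  exact ⟨q, by rw [Rat.smul_def, hq, div_mul_cancel₀ _ hyne]⟩

/-- a neighbourhood of a value of a form proportional to an integral form, and its orbit -/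
theorem periodic_data (hd : 0 < d) {g : Matrix (Fin d) (Fin d) ℝ} (hg : g.det ≠ 0) {ν : ℝ}
    (hν : 0 < ν) (hnu : HasNu g ν) (hP : PropInt g) {x₀ : Fin d → ℤ} (hx₀ : x₀ ≠ 0) :
    IsClosed (Orb g) ∧ H715R2.Inv (Orb g) ∧ (∀ h ∈ Orb g, |h.det| = |g.det|) ∧
      (∀ h ∈ Orb g, HasNu h ν) ∧ ∃ S : Set ℝ, IsOpen S ∧
      (∀ h ∈ Orb g, ∃ m : Fin d → ℤ, m ≠ 0 ∧ FF h (iR m) ∈ S) ∧
      ∀ x : Fin d → ℤ, FF g (iR x) ∈ S → FF g (iR x) = FF g (iR x₀) := by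
  have hcl : closure (Orb g) ⊆ Orb g := fun h hh => orb_closed hd hg hν hnu hP hh
  have hcl' : closure (Orb g) = Orb g := subset_antisymm hcl subset_closure
  refine ⟨closure_eq_iff_isClosed.1 hcl', ?_, fun h hh => abs_det_closure (subset_closure hh),
    fun h hh => hasNu_closure hnu (subset_closure hh), ?_⟩
  · intro h hh a γ ha0 ha hγ
    rw [← hcl']
    exact closure_mul (subset_closure hh) ha0 ha hγ
  obtain ⟨c, hc, hval⟩ := values_of_propInt hP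
  refine ⟨Metric.ball (FF g (iR x₀)) |c|, Metric.isOpen_ball, ?_, ?_⟩
  · rintro h ⟨a, γ, ha0, ha, hγ, rfl⟩
    refine ⟨γ⁻¹ *ᵥ x₀, ?_, ?_⟩
    · intro h0
      apply hx₀
      have h3 : γ *ᵥ (γ⁻¹ *ᵥ x₀) = 0 := by rw [h0, mulVec_zero]
      rwa [mulVec_mulVec, Matrix.mul_nonsing_inv _ hγ, one_mulVec] at h3
    · rw [FF_orb ha, mulVec_mulVec, Matrix.mul_nonsing_inv _ hγ, one_mulVec]
      exact Metric.mem_ball_self (abs_pos.2 hc)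
  · intro x hx
    obtain ⟨z, hz⟩ := hval x
    obtain ⟨z₀, hz₀⟩ := hval x₀
    rw [Metric.mem_ball, Real.dist_eq, hz, hz₀, ← mul_sub, abs_mul] at hx
    have h5 : |((z : ℝ) - z₀)| < 1 := by
      have h6 := abs_pos.2 hc
      by_contra hcon
      have := mul_le_mul_of_nonneg_left (not_lt.1 hcon) h6.le
      linarith
    have h6 : |z - z₀| < 1 := by exact_mod_cast h5
    have h7 := Int.abs_lt_one_iff.1 h6
    have h8 : z = z₀ := by linarith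
    rw [hz, hz₀, h8]

/-- the family of all forms with given determinant and lower bound -/
theorem all_data (hd : 0 < d) {V ν T : ℝ} (hV : 0 < V)
    (hT : (d.factorial : ℝ) * V < (d : ℝ) ^ d * T ∨
      ∀ h : Matrix (Fin d) (Fin d) ℝ, |h.det| = V → ∃ x : Fin d → ℤ, x ≠ 0 ∧ |FF h (iR x)| < T) :
    IsClosed {h : Matrix (Fin d) (Fin d) ℝ | |h.det| = V ∧ HasNu h ν} ∧
      H715R2.Inv {h : Matrix (Fin d) (Fin d) ℝ | |h.det| = V ∧ HasNu h ν} ∧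
      ∀ h ∈ {h : Matrix (Fin d) (Fin d) ℝ | |h.det| = V ∧ HasNu h ν},
        ∃ m : Fin d → ℤ, m ≠ 0 ∧ FF h (iR m) ∈ Set.Ioo (-T) T := by
  have hT' : ∀ h : Matrix (Fin d) (Fin d) ℝ, |h.det| = V →
      ∃ m : Fin d → ℤ, m ≠ 0 ∧ |FF h (iR m)| < T := by
    rcases hT with hT | hT
    · exact fun h hh => H715R2.mink_prod hd V T hV hT h hh
    · exact hT
  refine ⟨?_, ?_, fun h hh => ?_⟩
  · refine IsClosed.inter ?_ ?_
    · exact isClosed_eq (continuous_abs.comp H715R2.continuous_det') continuous_const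
    · have h1 : {h : Matrix (Fin d) (Fin d) ℝ | H715R2.HasNu h ν} =
          ⋂ (m : Fin d → ℤ) (_ : m ≠ 0), {h | ν ≤ |H715R2.FF h (H715R2.iR m)|} := by
        ext h
        simp [H715R2.HasNu]
      show IsClosed {h : Matrix (Fin d) (Fin d) ℝ | H715R2.HasNu h ν}
      rw [h1]
      exact isClosed_iInter fun m => isClosed_iInter fun _ =>
        isClosed_le continuous_const (continuous_abs.comp (H715R2.continuous_FF _))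
  · intro h hh a γ ha0 ha1 hγ
    have hmem : Matrix.diagonal a * h * H715R2.zR γ ∈ H715R2.Orb h := ⟨a, γ, ha0, ha1, hγ, rfl⟩
    exact ⟨by rw [H715R2.abs_det_orb hmem]; exact hh.1,
      H715R2.hasNu_closure hh.2 (subset_closure hmem)⟩
  · obtain ⟨m, hm, hmT⟩ := hT' h hh.1
    exact ⟨m, hm, abs_lt.1 hmT⟩

end Pool.Agent.Q118.VC
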