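import Mathlib
import Pool.Agent.Q64.IG.Uni
import Pool.Agent.Q118.VC.Pack

/-!
# Uniformly incommensurable values in every box
-/

set_option autoImplicit false

open MvPolynomial Matrix Filter Topology

namespace Pool.Agent.Q118.VC

open H715R2

variable {d : ℕ}

lemma iR_zero : iR (0 : Fin d → ℤ) = 0 := by
  funext i
  simp [iR]

/-- some quotient of values is irrational -/
lemma quot_notMem_bot (hd : 0 < d) {g : Matrix (Fin d) (Fin d) ℝ} {ν : ℝ} (hν : 0 < ν)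
    (hnu : HasNu g ν) (hP : ¬ PropInt g) :
    ∃ x y : Fin d → ℤ, x ≠ 0 ∧ y ≠ 0 ∧ FF g (iR x) / FF g (iR y) ∉ (⊥ : Subfield ℝ) := by
  by_contra hcon
  push Not at hcon
  set y : Fin d → ℤ := fun _ => 1 with hy
  have hy0 : y ≠ 0 := by
    intro h0
    have := congrFun h0 ⟨0, hd⟩
    simp [hy] at this
  have hyne := ff_ne hν hnu hy0
  refine hP (propInt_of_values hyne fun x => ?_)
  rw [Submodule.mem_span_singleton]
  by_cases hx : x = 0
  · refine ⟨0, ?_⟩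
    rw [zero_smul, hx, iR_zero]
    symm
    exact Finset.prod_eq_zero (Finset.mem_univ ⟨0, hd⟩) (by simp)
  · have h1 := hcon x y hx hy0
    have h2 : (⊥ : Subfield ℝ) ≤ (algebraMap ℚ ℝ).fieldRange := bot_le
    obtain ⟨q, hq⟩ := h2 h1
    refine ⟨q, ?_⟩
    rw [Rat.smul_def]
    have h3 : (q : ℝ) = FF g (iR x) / FF g (iR y) := hq
    rw [h3, div_mul_cancel₀ _ hyne]

lemma irrational_of_bot {t : ℝ} (h : t ∉ (⊥ : Subfield ℝ)) : Irrational t := by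
  rintro ⟨q, rfl⟩
  exact h (SubfieldClass.ratCast_mem _ q)

/-- `k` points with pairwise irrational quotients in a box -/
theorem k_points (hd : 2 ≤ d) {V ν : ℝ} (hV : 0 < V) (hν : 0 < ν)
    {Y : Set (Matrix (Fin d) (Fin d) ℝ)} (hYc : IsClosed Y) (hYinv : H715R2.Inv Y)
    (hYdet : ∀ h ∈ Y, |h.det| = V) (hYnu : ∀ h ∈ Y, HasNu h ν) {S : Set ℝ} (hSo : IsOpen S)
    (hS : ∀ h ∈ Y, ∃ m : Fin d → ℤ, m ≠ 0 ∧ FF h (iR m) ∈ S) (k : ℕ) :
    ∃ C : ℝ, 0 < C ∧ ∀ g ∈ Y, ¬ PropInt g → ∃ P : Finset (Fin d → ℤ), P.card = k ∧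
      (∀ x ∈ P, x ≠ 0 ∧ (∀ i, |(g *ᵥ iR x) i| ≤ C) ∧ FF g (iR x) ∈ S) ∧
      ∀ x ∈ P, ∀ y ∈ P, x ≠ y → Irrational (FF g (iR x) / FF g (iR y)) := by
  obtain ⟨θ, hθ⟩ := exists_gen (by omega : 0 < d) d
  obtain ⟨r, hr, hmany⟩ := many_on_line hd hV hν hYc hYinv hYdet hYnu hSo hS
  obtain ⟨κ, hκ, h⟩ := hmany d (by omega) θ hθ
  set Θ : ℝ := ∑ i, |θ i| with hΘ
  have hΘ0 : 0 ≤ Θ := Finset.sum_nonneg fun i _ => abs_nonneg _
  refine ⟨r * Real.exp (k / κ * Θ), by positivity, fun g hg hint => ?_⟩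
  obtain ⟨-, -, h3⟩ := h g hg 0 (k / κ) (by positivity)
  obtain ⟨P, hP1, hP2, hP3⟩ := h3 rfl ⊥ (quot_notMem_bot (by omega) hν (hYnu g hg) hint)
  rw [mul_div_cancel₀ _ hκ.ne'] at hP1
  obtain ⟨P', hP', hP'c⟩ := Finset.exists_subset_card_eq (by exact_mod_cast hP1 : k ≤ P.card)
  refine ⟨P', hP'c, fun x hx => ?_, fun x hx y hy hxy =>
    irrational_of_bot (hP3 x (hP' hx) y (hP' hy) hxy)⟩
  obtain ⟨⟨hx0, t, ht, hxt⟩, hxS⟩ := hP2 x (hP' hx)
  rw [zero_add] at ht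
  refine ⟨hx0, fun i => (hxt i).trans (mul_le_mul_of_nonneg_left (Real.exp_le_exp.2 ?_) hr.le), hxS⟩
  calc t * θ i ≤ t * |θ i| := mul_le_mul_of_nonneg_left (le_abs_self _) ht.1
    _ ≤ k / κ * |θ i| := mul_le_mul_of_nonneg_right ht.2 (abs_nonneg _)
    _ ≤ k / κ * Θ := mul_le_mul_of_nonneg_left
        (Finset.single_le_sum (f := fun i => |θ i|) (fun i _ => abs_nonneg _)
          (Finset.mem_univ i)) (by positivity)

/-- an irrational number is away from the rationals of bounded denominator, with its neighbours -/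
lemma irr_away {r : ℝ} (hr : Irrational r) (Q : ℕ) : ∃ δ : ℝ, 0 < δ ∧ ∀ s : ℝ, |s - r| ≤ δ →
    ∀ p q : ℤ, 1 ≤ q → q ≤ Q → δ ≤ |q * s - p| := by
  classical
  have h1 : ∀ q ∈ Finset.Icc 1 Q, 0 < |(q : ℝ) * r - round ((q : ℝ) * r)| := by
    intro q hq
    rw [Finset.mem_Icc] at hq
    rw [abs_pos, sub_ne_zero]
    intro h
    apply hr
    refine ⟨(round ((q : ℝ) * r) : ℚ) / q, ?_⟩
    push_cast
    have hq0 : (q : ℝ) ≠ 0 := by
      have : 0 < q := by omega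
      exact_mod_cast this.ne'
    rw [← h]
    field_simp
  obtain ⟨μ, hμ, hμq⟩ : ∃ μ : ℝ, 0 < μ ∧ ∀ q ∈ Finset.Icc 1 Q,
      μ ≤ |(q : ℝ) * r - round ((q : ℝ) * r)| := by
    by_cases hne : (Finset.Icc 1 Q).Nonempty
    · obtain ⟨q, hq, hmin⟩ := (Finset.Icc 1 Q).exists_min_image
        (fun q => |(q : ℝ) * r - round ((q : ℝ) * r)|) hne
      exact ⟨_, h1 q hq, hmin⟩
    · exact ⟨1, one_pos, fun q hq => absurd ⟨q, hq⟩ hne⟩
  refine ⟨μ / (Q + 2), by positivity, fun s hs p q hq1 hqQ => ?_⟩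
  obtain ⟨m, rfl⟩ := Int.eq_ofNat_of_zero_le (by omega : 0 ≤ q)
  have hm1 : 1 ≤ m := by exact_mod_cast hq1
  have hmQ : m ≤ Q := by exact_mod_cast hqQ
  have h2 := hμq m (Finset.mem_Icc.2 ⟨hm1, hmQ⟩)
  have h3 : |(m : ℝ) * r - round ((m : ℝ) * r)| ≤ |(m : ℝ) * r - p| := round_le _ _
  have h4 : |(m : ℝ) * r - p| ≤ |(m : ℝ) * s - p| + m * |s - r| := by
    have h5 : (m : ℝ) * r - p = ((m : ℝ) * s - p) + -(m * (s - r)) := by ring
    rw [h5]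
    refine (abs_add_le _ _).trans (le_of_eq ?_)
    rw [abs_neg, abs_mul (m : ℝ) (s - r), abs_of_nonneg (Nat.cast_nonneg m : (0 : ℝ) ≤ m)]
  have hmQ' : (m : ℝ) ≤ Q := by exact_mod_cast hmQ
  have h5 : (m : ℝ) * |s - r| ≤ Q * (μ / (Q + 2)) :=
    mul_le_mul hmQ' hs (abs_nonneg _) (Nat.cast_nonneg _)
  have h6 : (Q : ℝ) * (μ / (Q + 2)) + μ / (Q + 2) ≤ μ := by
    have h7 : (Q : ℝ) * (μ / (Q + 2)) + μ / (Q + 2) = μ * ((Q + 1) / (Q + 2)) := by ring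
    rw [h7]
    have h8 : ((Q : ℝ) + 1) / (Q + 2) ≤ 1 := by
      rw [div_le_one (by positivity)]
      linarith
    calc μ * (((Q : ℝ) + 1) / (Q + 2)) ≤ μ * 1 := mul_le_mul_of_nonneg_left h8 hμ.le
      _ = μ := mul_one _
  have h9 : ((Int.ofNat m : ℤ) : ℝ) = (m : ℝ) := rfl
  push_cast
  linarith

/-- **Uniformly incommensurable values in every box.** -/
theorem far_points (hd : 3 ≤ d) {V ν : ℝ} (hV : 0 < V) (hν : 0 < ν)
    {Y : Set (Matrix (Fin d) (Fin d) ℝ)} (hYc : IsClosed Y) (hYinv : H715R2.Inv Y)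
    (hYdet : ∀ h ∈ Y, |h.det| = V) (hYnu : ∀ h ∈ Y, HasNu h ν) {S : Set ℝ} (hSo : IsOpen S)
    (hS : ∀ h ∈ Y, ∃ m : Fin d → ℤ, m ≠ 0 ∧ FF h (iR m) ∈ S) (k : ℕ) :
    ∃ C : ℝ, 0 < C ∧ ∀ Q : ℕ, ∃ ε : ℝ, 0 < ε ∧ ∀ g ∈ Y, ¬ PropInt g →
      ∀ b : Fin d → ℝ, (∀ i, 0 < b i) → ∏ i, b i = 1 →
      ∃ P : Finset (Fin d → ℤ), P.card = k ∧
      (∀ x ∈ P, x ≠ 0 ∧ (∀ i, b i * |(g *ᵥ iR x) i| ≤ C) ∧ FF g (iR x) ∈ S) ∧
      ∀ x ∈ P, ∀ y ∈ P, x ≠ y → ∀ p q : ℤ, 1 ≤ q → q ≤ Q →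
        ε ≤ |q * FF g (iR x) - p * FF g (iR y)| := by
  classical
  have hd0 : 0 < d := by omega
  obtain ⟨C₀, hC₀, hk⟩ := k_points (by omega) hV hν hYc hYinv hYdet hYnu hSo hS k
  refine ⟨C₀ + 1, by linarith, fun Q => ?_⟩
  by_contra hcon
  push Not at hcon
  have hstep : ∀ j : ℕ, ∃ g ∈ Y, ¬ PropInt g ∧ ∃ b : Fin d → ℝ, (∀ i, 0 < b i) ∧
      ∏ i, b i = 1 ∧ ∀ P : Finset (Fin d → ℤ), P.card = k →
      (∀ x ∈ P, x ≠ 0 ∧ (∀ i, b i * |(g *ᵥ iR x) i| ≤ C₀ + 1) ∧ FF g (iR x) ∈ S) →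
      ∃ x ∈ P, ∃ y ∈ P, x ≠ y ∧ ∃ p q : ℤ, 1 ≤ q ∧ q ≤ Q ∧
        |q * FF g (iR x) - p * FF g (iR y)| < 1 / ((j : ℝ) + 1) := fun j =>
    hcon (1 / ((j : ℝ) + 1)) (by positivity)
  choose g hgY hgint b hb0 hb1 hbad using hstep
  obtain ⟨R, hR⟩ := exists_bound hd0 V ν hV hν
  have hmemb : ∀ j, diagonal (b j) * g j ∈ Y := by
    intro j
    have := hYinv (g j) (hgY j) (b j) 1 (hb0 j) (hb1 j) (by simp)
    rwa [zR_one, Matrix.mul_one] at this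
  choose γ hγ hγR using fun j => hR _ (hYdet _ (hmemb j)) (hYnu _ (hmemb j))
  set u : ℕ → Matrix (Fin d) (Fin d) ℝ := fun j => diagonal (b j) * g j * zR (γ j) with hu
  have huY : ∀ j, u j ∈ Y := fun j => hYinv (g j) (hgY j) (b j) (γ j) (hb0 j) (hb1 j) (hγ j)
  have hcpt : IsCompact ({h : Matrix (Fin d) (Fin d) ℝ | ∀ i j, |h i j| ≤ R} ∩ Y) :=
    (isCompact_box R).inter_right hYc
  obtain ⟨w, hw, φ, hφ, hlim⟩ := hcpt.tendsto_subseq (x := u) fun j => ⟨hγR j, huY j⟩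
  have hwY : w ∈ Y := hw.2
  have hwdet : w.det ≠ 0 := by
    intro h0
    have := hYdet w hwY
    rw [h0, abs_zero] at this
    exact hV.ne this
  -- the forms in the orbits
  have huint : ∀ j, ¬ PropInt (u j) := by
    intro j hP
    apply hgint j
    have h1 := Pool.Agent.Q64.IG.PropInt.trans hP (a := fun i => (b j i)⁻¹) (by
      rw [Finset.prod_inv_distrib, hb1 j, inv_one]; exact one_ne_zero) (γ j)⁻¹
    have h2 : diagonal (fun i => (b j i)⁻¹) * u j * zR (γ j)⁻¹ = g j := by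
      have h3 : diagonal (fun i => (b j i)⁻¹) * diagonal (b j) = 1 := by
        rw [diagonal_mul_diagonal, ← diagonal_one]
        congr 1
        funext i
        exact inv_mul_cancel₀ (hb0 j i).ne'
      have h4 : zR (γ j) * zR (γ j)⁻¹ = 1 := by
        rw [← zR_mul, Matrix.mul_nonsing_inv _ (hγ j), zR_one]
      calc diagonal (fun i => (b j i)⁻¹) * (diagonal (b j) * g j * zR (γ j)) * zR (γ j)⁻¹
          = (diagonal (fun i => (b j i)⁻¹) * diagonal (b j)) * g j * (zR (γ j) * zR (γ j)⁻¹) := by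
            simp only [Matrix.mul_assoc]
        _ = g j := by rw [h3, h4, Matrix.one_mul, Matrix.mul_one]
    rwa [h2] at h1
  have hwint : ¬ PropInt w := by
    intro hP
    obtain ⟨j, hj⟩ := Pool.Agent.Q64.IG.iso_propInt hd hwdet hν (u ∘ φ)
      (fun j => hYnu _ (huY _)) hlim hP
    exact huint _ hj
  obtain ⟨P, hPc, hPx, hPirr⟩ := hk w hwY hwint
  -- eventually
  have hFlim : ∀ x : Fin d → ℤ, Tendsto (fun j => FF (u (φ j)) (iR x)) atTop (𝓝 (FF w (iR x))) :=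
    fun x => ((continuous_FF (iR x)).tendsto w).comp hlim
  have hclim : ∀ (x : Fin d → ℤ) (i : Fin d),
      Tendsto (fun j => |(u (φ j) *ᵥ iR x) i|) atTop (𝓝 |(w *ᵥ iR x) i|) := by
    intro x i
    have h1 : Continuous fun h : Matrix (Fin d) (Fin d) ℝ => |(h *ᵥ iR x) i| := by
      have h2 : Continuous fun h : Matrix (Fin d) (Fin d) ℝ => (h *ᵥ iR x) i := by
        unfold mulVec dotProduct
        fun_prop
      exact h2.abs
    exact (h1.tendsto w).comp hlim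
  have hev1 : ∀ᶠ j in atTop, ∀ x ∈ P, ∀ i, |(u (φ j) *ᵥ iR x) i| ≤ C₀ + 1 := by
    refine (Filter.eventually_all_finset P).2 fun x hx => Filter.eventually_all.2 fun i => ?_
    have h1 := (hclim x i).eventually (gt_mem_nhds
      (lt_of_le_of_lt ((hPx x hx).2.1 i) (by linarith : C₀ < C₀ + 1)))
    exact h1.mono fun j hj => hj.le
  have hev2 : ∀ᶠ j in atTop, ∀ x ∈ P, FF (u (φ j)) (iR x) ∈ S := by
    refine (Filter.eventually_all_finset P).2 fun x hx => ?_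
    exact (hFlim x).eventually (hSo.mem_nhds (hPx x hx).2.2)
  have hev3 : ∀ᶠ j in atTop, ∀ x ∈ P, ∀ y ∈ P, x ≠ y → ∀ p q : ℤ, 1 ≤ q → q ≤ Q →
      1 / (((φ j : ℕ) : ℝ) + 1) ≤
        |q * FF (u (φ j)) (iR x) - p * FF (u (φ j)) (iR y)| := by
    refine (Filter.eventually_all_finset P).2 fun x hx =>
      (Filter.eventually_all_finset P).2 fun y hy => ?_
    by_cases hxy : x = y
    · exact Filter.Eventually.of_forall fun j h => absurd hxy h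
    obtain ⟨δ, hδ, hδs⟩ := irr_away (hPirr x hx y hy hxy) Q
    have hyne := ff_ne hν (hYnu w hwY) (hPx y hy).1
    have hr : Tendsto (fun j => FF (u (φ j)) (iR x) / FF (u (φ j)) (iR y)) atTop
        (𝓝 (FF w (iR x) / FF w (iR y))) := (hFlim x).div (hFlim y) hyne
    have h1 : ∀ᶠ j in atTop, |FF (u (φ j)) (iR x) / FF (u (φ j)) (iR y) -
        FF w (iR x) / FF w (iR y)| ≤ δ := by
      have h2 := hr.eventually (Metric.closedBall_mem_nhds _ hδ)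
      refine h2.mono fun j hj => ?_
      rw [← Real.dist_eq]
      exact hj
    have h2 : ∀ᶠ j : ℕ in atTop, 1 / (((φ j : ℕ) : ℝ) + 1) ≤ ν * δ := by
      have h3 : Tendsto (fun j : ℕ => 1 / (((φ j : ℕ) : ℝ) + 1)) atTop (𝓝 0) :=
        tendsto_one_div_add_atTop_nhds_zero_nat.comp hφ.tendsto_atTop
      have h4 := h3.eventually (gt_mem_nhds (by positivity : (0 : ℝ) < ν * δ))
      exact h4.mono fun j hj => hj.le
    filter_upwards [h1, h2] with j hj1 hj2 _ p q hq1 hqQ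
    have hyn := ff_ne hν (hYnu _ (huY (φ j))) (hPx y hy).1
    have h5 := hδs _ hj1 p q hq1 hqQ
    have h6 : q * FF (u (φ j)) (iR x) - p * FF (u (φ j)) (iR y) =
        FF (u (φ j)) (iR y) * (q * (FF (u (φ j)) (iR x) / FF (u (φ j)) (iR y)) - p) := by
      field_simp
    rw [h6, abs_mul]
    exact hj2.trans (mul_le_mul (hYnu _ (huY (φ j)) y (hPx y hy).1) h5 hδ.le (abs_nonneg _))
  obtain ⟨j, hj1, hj2, hj3⟩ := (hev1.and (hev2.and hev3)).exists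
  -- the points for `g (φ j)`
  have hinj : Function.Injective fun x : Fin d → ℤ => γ (φ j) *ᵥ x := by
    intro x y hxy
    have h3 : (γ (φ j))⁻¹ *ᵥ (γ (φ j) *ᵥ x) = (γ (φ j))⁻¹ *ᵥ (γ (φ j) *ᵥ y) := by
      simp only at hxy
      rw [hxy]
    rwa [mulVec_mulVec, mulVec_mulVec, Matrix.nonsing_inv_mul _ (hγ _), one_mulVec,
      one_mulVec] at h3
  have hFF : ∀ x : Fin d → ℤ, FF (g (φ j)) (iR (γ (φ j) *ᵥ x)) = FF (u (φ j)) (iR x) := fun x =>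
    (FF_orb (hb1 _) _ _ _).symm
  have hcoord : ∀ (x : Fin d → ℤ) i, b (φ j) i * |(g (φ j) *ᵥ iR (γ (φ j) *ᵥ x)) i| =
      |(u (φ j) *ᵥ iR x) i| := by
    intro x i
    rw [hu]
    simp only
    rw [← mulVec_mulVec, zR_mulVec_iR, ← mulVec_mulVec, mulVec_diagonal, abs_mul,
      abs_of_pos (hb0 _ i)]
  obtain ⟨x', hx', y', hy', hxy, p, q, hq1, hqQ, hlt⟩ := hbad (φ j)
    (P.image fun x => γ (φ j) *ᵥ x) (by rw [Finset.card_image_of_injective _ hinj, hPc]) (by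
      intro x' hx'
      obtain ⟨x, hx, rfl⟩ := Finset.mem_image.1 hx'
      refine ⟨?_, fun i => ?_, ?_⟩
      · intro h0
        apply (hPx x hx).1
        apply hinj
        simp only
        rw [h0, mulVec_zero]
      · rw [hcoord]
        exact hj1 x hx i
      · rw [hFF]
        exact hj2 x hx)
  obtain ⟨x, hx, rfl⟩ := Finset.mem_image.1 hx'
  obtain ⟨y, hy, rfl⟩ := Finset.mem_image.1 hy'
  rw [hFF, hFF] at hlt
  have h7 := hj3 x hx y hy (fun h => hxy (by rw [h])) p q hq1 hqQ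
  linarith

end Pool.Agent.Q118.VC
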