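import Mathlib
import Pool.Agent.Q118.VC.Far

/-!
# Near commensurability in one box, or near a generic line
-/

set_option autoImplicit false

open MvPolynomial Matrix Filter Topology

namespace Pool.Agent.Q118.VC

open H715R2

variable {d : ℕ}

/-- `t` is within `ε` of a multiple of `s`, up to a factor at most `Q` -/
def NearMul (Q : ℕ) (ε s t : ℝ) : Prop := ∃ p q : ℤ, 1 ≤ q ∧ q ≤ Q ∧ |q * t - p * s| < ε

/-- two numbers near multiples of the same number -/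
lemma near_pair {ν T σ ε : ℝ} {Q : ℕ} (hσ : 0 < σ) (hε1 : ε ≤ 1) (hεν : ε ≤ ν)
    {s u v : ℝ} (hs : σ ≤ |s|) (huT : |u| ≤ T) (hv : ν ≤ |v|) (hvT : |v| ≤ T)
    (h1 : NearMul Q ε s u) (h2 : NearMul Q ε s v) :
    ∃ p q : ℤ, 1 ≤ q ∧ (q : ℝ) ≤ Q * ((Q * T + 1) / σ) ∧
      |q * u - p * v| ≤ 2 * ((Q * T + 1) / σ) * ε := by
  obtain ⟨p, q, hq1, hqQ, hpq⟩ := h1
  obtain ⟨p', q', hq1', hqQ', hpq'⟩ := h2
  have hs0 : 0 < |s| := hσ.trans_le hs
  have hε0 : 0 < ε := lt_of_le_of_lt (abs_nonneg _) hpq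
  have hbound : ∀ (p q : ℤ) (u : ℝ), 1 ≤ q → q ≤ Q → |u| ≤ T → |q * u - p * s| < ε →
      |(p : ℝ)| ≤ (Q * T + 1) / σ := by
    intro p q u hq1 hqQ huT hpq
    rw [le_div_iff₀ hσ]
    have hq0 : (0 : ℝ) ≤ q := by exact_mod_cast (by omega : (0 : ℤ) ≤ q)
    have hqQ' : (q : ℝ) ≤ Q := by exact_mod_cast hqQ
    calc |(p : ℝ)| * σ ≤ |(p : ℝ)| * |s| := mul_le_mul_of_nonneg_left hs (abs_nonneg _)
      _ = |p * s| := (abs_mul _ _).symm
      _ = |q * u - (q * u - p * s)| := by congr 1; ring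
      _ ≤ |q * u| + |q * u - p * s| := abs_sub _ _
      _ ≤ Q * T + 1 := by
          refine add_le_add ?_ (hpq.le.trans hε1)
          rw [abs_mul, abs_of_nonneg hq0]
          exact mul_le_mul hqQ' huT (abs_nonneg _) (Nat.cast_nonneg _)
  have hp := hbound p q u hq1 hqQ huT hpq
  have hp' := hbound p' q' v hq1' hqQ' hvT hpq'
  have hp'0 : p' ≠ 0 := by
    rintro rfl
    rw [Int.cast_zero, zero_mul, sub_zero, abs_mul] at hpq'
    have h3 : (1 : ℝ) ≤ |(q' : ℝ)| := by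
      rw [abs_of_nonneg (by exact_mod_cast (by omega : (0 : ℤ) ≤ q'))]
      exact_mod_cast hq1'
    have h4 : |v| ≤ |(q' : ℝ)| * |v| := le_mul_of_one_le_left (abs_nonneg _) h3
    linarith
  have hM0 : 0 ≤ (Q * T + 1) / σ := (abs_nonneg _).trans hp
  refine ⟨p'.sign * p * q', |p'| * q, ?_, ?_, ?_⟩
  · have : 1 ≤ |p'| := Int.one_le_abs hp'0
    nlinarith
  · push_cast
    have hqQ' : (q : ℝ) ≤ Q := by exact_mod_cast hqQ
    have hq0 : (0 : ℝ) ≤ q := by exact_mod_cast (by omega : (0 : ℤ) ≤ q)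
    rw [mul_comm]
    exact mul_le_mul hqQ' hp' (abs_nonneg _) (Nat.cast_nonneg _)
  · have hsg : (|p'| : ℝ) = p'.sign * p' := by
      have := Int.sign_mul_self_eq_abs p'
      rw [← Int.cast_abs]
      exact_mod_cast this.symm
    have h5 : ((|p'| * q : ℤ) : ℝ) * u - ((p'.sign * p * q' : ℤ) : ℝ) * v =
        p'.sign * (p' * (q * u - p * s) + -(p * (q' * v - p' * s))) := by
      push_cast
      rw [hsg]
      ring
    have h6 : |((p'.sign : ℤ) : ℝ)| = 1 := by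
      rw [← Int.cast_abs, Int.abs_sign_of_ne_zero hp'0]
      simp
    rw [h5, abs_mul, h6, one_mul]
    refine (abs_add_le _ _).trans ?_
    rw [abs_neg, abs_mul, abs_mul]
    have h7 : |(p' : ℝ)| * |q * u - p * s| ≤ (Q * T + 1) / σ * ε :=
      mul_le_mul hp' hpq.le (abs_nonneg _) hM0
    have h8 : |(p : ℝ)| * |q' * v - p' * s| ≤ (Q * T + 1) / σ * ε :=
      mul_le_mul hp hpq'.le (abs_nonneg _) hM0
    linarith

/-- **Values far from each other and from given numbers.** -/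
theorem far_from (hd : 3 ≤ d) {V ν T : ℝ} (hV : 0 < V) (hν : 0 < ν)
    {Y : Set (Matrix (Fin d) (Fin d) ℝ)} (hYc : IsClosed Y) (hYinv : H715R2.Inv Y)
    (hYdet : ∀ h ∈ Y, |h.det| = V) (hYnu : ∀ h ∈ Y, HasNu h ν) {S : Set ℝ} (hSo : IsOpen S)
    (hST : ∀ t ∈ S, |t| ≤ T)
    (hS : ∀ h ∈ Y, ∃ m : Fin d → ℤ, m ≠ 0 ∧ FF h (iR m) ∈ S) (k : ℕ) :
    ∃ C : ℝ, 0 < C ∧ ∀ (Q : ℕ) (σ : ℝ), 0 < σ → ∃ ε : ℝ, 0 < ε ∧ ∀ g ∈ Y, ¬ PropInt g →
      ∀ b : Fin d → ℝ, (∀ i, 0 < b i) → ∏ i, b i = 1 →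
      ∀ W : Finset ℝ, W.card ≤ k → (∀ s ∈ W, σ ≤ |s|) →
      ∃ P : Finset (Fin d → ℤ), P.card = k ∧
      (∀ x ∈ P, x ≠ 0 ∧ (∀ i, b i * |(g *ᵥ iR x) i| ≤ C) ∧ FF g (iR x) ∈ S ∧
        ∀ s ∈ W, ¬ NearMul Q ε s (FF g (iR x))) ∧
      ∀ x ∈ P, ∀ y ∈ P, x ≠ y → ¬ NearMul Q ε (FF g (iR y)) (FF g (iR x)) := by
  classical
  obtain ⟨C, hC, h⟩ := far_points hd hV hν hYc hYinv hYdet hYnu hSo hS (2 * k)
  refine ⟨C, hC, fun Q σ hσ => ?_⟩
  set T' : ℝ := |T| with hT'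
  set M : ℝ := (Q * T' + 1) / σ with hM
  have hM0 : 0 ≤ M := by positivity
  obtain ⟨ε₀, hε₀, hfar⟩ := h (⌈Q * M⌉₊ + Q)
  set ε : ℝ := min (min 1 ν) (ε₀ / (2 * M + 1)) with hε
  have hεpos : 0 < ε := lt_min (lt_min one_pos hν) (by positivity)
  have hε1 : ε ≤ 1 := (min_le_left _ _).trans (min_le_left _ _)
  have hεν : ε ≤ ν := (min_le_left _ _).trans (min_le_right _ _)
  have hε2 : ε ≤ ε₀ / (2 * M + 1) := min_le_right _ _
  have hε3 : ε * (2 * M + 1) ≤ ε₀ := (le_div_iff₀ (by positivity)).1 hε2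
  refine ⟨ε, hεpos, fun g hg hint b hb0 hb1 W hWc hW => ?_⟩
  obtain ⟨P₀, hP₀c, hP₀, hP₀f⟩ := hfar g hg hint b hb0 hb1
  set P₁ := P₀.filter (fun x => ∀ s ∈ W, ¬ NearMul Q ε s (FF g (iR x))) with hP₁
  set P₂ := P₀.filter (fun x => ¬ ∀ s ∈ W, ¬ NearMul Q ε s (FF g (iR x))) with hP₂
  have hsplit : P₁.card + P₂.card = P₀.card := Finset.card_filter_add_card_filter_not _
  have hP₂c : P₂.card ≤ W.card := by
    refine Finset.card_le_card_of_forall_subsingleton
      (fun x s => NearMul Q ε s (FF g (iR x))) ?_ ?_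
    · intro x hx
      have := (Finset.mem_filter.1 hx).2
      push Not at this
      exact this
    · intro s hs x hx y hy
      by_contra hxy
      have hx' := (Finset.mem_filter.1 hx.1).1
      have hy' := (Finset.mem_filter.1 hy.1).1
      have hxT : |FF g (iR x)| ≤ T' := (hST _ (hP₀ x hx').2.2).trans (le_abs_self T)
      have hyT : |FF g (iR y)| ≤ T' := (hST _ (hP₀ y hy').2.2).trans (le_abs_self T)
      obtain ⟨p, q, hq1, hqQ, hpq⟩ := near_pair hσ hε1 hεν (hW s hs)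
        hxT (hYnu g hg y (hP₀ y hy').1) hyT hx.2 hy.2
      have h1 := hP₀f x hx' y hy' hxy p q hq1 (by
        have h2 : (q : ℝ) ≤ ((⌈Q * M⌉₊ + Q : ℕ) : ℝ) := by
          push_cast
          have := Nat.le_ceil ((Q : ℝ) * M)
          have : (0 : ℝ) ≤ Q := Nat.cast_nonneg _
          linarith
        exact_mod_cast h2)
      nlinarith
  obtain ⟨P, hP, hPc⟩ := Finset.exists_subset_card_eq (by omega : k ≤ P₁.card)
  refine ⟨P, hPc, fun x hx => ?_, fun x hx y hy hxy => ?_⟩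
  · obtain ⟨h1, h2⟩ := Finset.mem_filter.1 (hP hx)
    exact ⟨(hP₀ x h1).1, (hP₀ x h1).2.1, (hP₀ x h1).2.2, h2⟩
  · rintro ⟨p, q, hq1, hqQ, hpq⟩
    have h1 := hP₀f x (Finset.mem_filter.1 (hP hx)).1 y (Finset.mem_filter.1 (hP hy)).1 hxy p q
      hq1 (by push_cast; omega)
    nlinarith

/-- points with bounded image are bounded, uniformly on bounded sets of matrices -/
lemma pt_bound {V : ℝ} (hV : 0 < V) (R M : ℝ) : ∃ B : ℝ, ∀ u : Matrix (Fin d) (Fin d) ℝ,
    (∀ i j, |u i j| ≤ R) → |u.det| = V → ∀ x : Fin d → ℝ, (∀ i, |(u *ᵥ x) i| ≤ M) →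
    ∀ j, |x j| ≤ B := by
  have hcont : Continuous fun u : Matrix (Fin d) (Fin d) ℝ => ∑ i, ∑ j, |u.adjugate i j| := by
    have h1 : Continuous fun u : Matrix (Fin d) (Fin d) ℝ => u.adjugate :=
      continuous_id.matrix_adjugate
    refine continuous_finsetSum _ fun i _ => continuous_finsetSum _ fun j _ => ?_
    exact ((continuous_apply j).comp ((continuous_apply i).comp h1)).abs
  obtain ⟨B₀, hB₀⟩ := (isCompact_box (d := d) R).exists_bound_of_continuousOn hcont.continuousOn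
  refine ⟨B₀ * |M| / V, fun u hu hdet x hx j => ?_⟩
  have h1 : u.det • x = u.adjugate *ᵥ (u *ᵥ x) := by
    rw [mulVec_mulVec, Matrix.adjugate_mul, smul_mulVec, one_mulVec]
  have h2 : u.det * x j = ∑ k, u.adjugate j k * (u *ᵥ x) k := by
    have := congrFun h1 j
    simpa [mulVec, dotProduct] using this
  rw [le_div_iff₀ hV]
  calc |x j| * V = |u.det * x j| := by rw [abs_mul, hdet, mul_comm]
    _ = |∑ k, u.adjugate j k * (u *ᵥ x) k| := by rw [h2]
    _ ≤ ∑ k, |u.adjugate j k * (u *ᵥ x) k| := Finset.abs_sum_le_sum_abs _ _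
    _ ≤ ∑ k, |u.adjugate j k| * |M| := by
        refine Finset.sum_le_sum fun k _ => ?_
        rw [abs_mul]
        exact mul_le_mul_of_nonneg_left ((hx k).trans (le_abs_self M)) (abs_nonneg _)
    _ = (∑ k, |u.adjugate j k|) * |M| := by rw [Finset.sum_mul]
    _ ≤ B₀ * |M| := by
        refine mul_le_mul_of_nonneg_right ?_ (abs_nonneg _)
        have h3 := hB₀ u hu
        rw [Real.norm_eq_abs] at h3
        refine le_trans ?_ ((le_abs_self _).trans h3)
        exact Finset.single_le_sum (f := fun i => ∑ k, |u.adjugate i k|)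
          (fun _ _ => Finset.sum_nonneg fun _ _ => abs_nonneg _) (Finset.mem_univ j)

/-- **Near commensurability near a generic line.** -/
theorem line_near (hd : 3 ≤ d) {ν C : ℝ} (hν : 0 < ν) (hC : 0 < C) {θ : Fin d → ℝ}
    (hθ : Gen d θ) : ∃ N : ℕ, ∀ V : ℝ, 0 < V → ∀ (R : ℝ) (Q : ℕ), 0 ≤ R → ∃ ε : ℝ, 0 < ε ∧
      ∀ g : Matrix (Fin d) (Fin d) ℝ, |g.det| = V → HasNu g ν → ∀ t₀ : ℝ,
      ∀ P : Finset (Fin d → ℤ), N < P.card →
        (∀ x ∈ P, x ∈ RP g θ C (Set.Icc t₀ (t₀ + R))) →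
        (∀ x ∈ P, ∀ y ∈ P, NearMul Q ε (FF g (iR y)) (FF g (iR x))) → PropInt g := by
  classical
  have hd0 : 0 < d := by omega
  obtain ⟨N, hN⟩ := few_on_line hd0 hν (by linarith : 0 < C + 1) hθ
  refine ⟨N, fun V hV R Q hR => ?_⟩
  by_contra hcon
  push Not at hcon
  have hstep : ∀ j : ℕ, ∃ g : Matrix (Fin d) (Fin d) ℝ, |g.det| = V ∧ HasNu g ν ∧ ¬ PropInt g ∧
      ∃ t₀ : ℝ, ∃ P : Finset (Fin d → ℤ), P.card = N + 1 ∧
      (∀ x ∈ P, x ∈ RP g θ C (Set.Icc t₀ (t₀ + R))) ∧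
      (∀ x ∈ P, ∀ y ∈ P, NearMul Q (1 / ((j : ℝ) + 1)) (FF g (iR y)) (FF g (iR x))) := by
    intro j
    obtain ⟨g, h1, h2, t₀, P, h3, h4, h5, h6⟩ := hcon (1 / ((j : ℝ) + 1)) (by positivity)
    obtain ⟨P', hP', hP'c⟩ := Finset.exists_subset_card_eq (by omega : N + 1 ≤ P.card)
    exact ⟨g, h1, h2, h6, t₀, P', hP'c, fun x hx => h4 x (hP' hx),
      fun x hx y hy => h5 x (hP' hx) y (hP' hy)⟩
  choose g hgV hgν hgint t₀ P hPc hPr hPn using hstep
  obtain ⟨R₀, hR₀⟩ := exists_bound hd0 V ν hV hν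
  set b : ℕ → Fin d → ℝ := fun j i => Real.exp (-(t₀ j * θ i)) with hb
  have hb0 : ∀ j i, 0 < b j i := fun j i => Real.exp_pos _
  have hb1 : ∀ j, ∏ i, b j i = 1 := by
    intro j
    rw [hb]
    simp only
    rw [← Real.exp_sum, Finset.sum_neg_distrib, ← Finset.mul_sum, hθ.1, mul_zero, neg_zero,
      Real.exp_zero]
  have hYinv : H715R2.Inv {h : Matrix (Fin d) (Fin d) ℝ | |h.det| = V ∧ HasNu h ν} := by
    intro h hh a γ ha0 ha1 hγ
    have hmem : Matrix.diagonal a * h * H715R2.zR γ ∈ H715R2.Orb h := ⟨a, γ, ha0, ha1, hγ, rfl⟩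
    exact ⟨by rw [H715R2.abs_det_orb hmem]; exact hh.1,
      H715R2.hasNu_closure hh.2 (subset_closure hmem)⟩
  have hmemb : ∀ j, diagonal (b j) * g j ∈
      {h : Matrix (Fin d) (Fin d) ℝ | |h.det| = V ∧ HasNu h ν} := by
    intro j
    have := hYinv (g j) ⟨hgV j, hgν j⟩ (b j) 1 (hb0 j) (hb1 j) (by simp)
    rwa [zR_one, Matrix.mul_one] at this
  choose γ hγ hγR using fun j => hR₀ _ (hmemb j).1 (hmemb j).2
  set u : ℕ → Matrix (Fin d) (Fin d) ℝ := fun j => diagonal (b j) * g j * zR (γ j) with hu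
  have huY : ∀ j, u j ∈ {h : Matrix (Fin d) (Fin d) ℝ | |h.det| = V ∧ HasNu h ν} := fun j =>
    hYinv (g j) ⟨hgV j, hgν j⟩ (b j) (γ j) (hb0 j) (hb1 j) (hγ j)
  obtain ⟨w, hw, φ, hφ, hlim⟩ := (isCompact_box R₀).tendsto_subseq (x := u) fun j => hγR j
  have hwdet' : |w.det| = V := by
    have h1 : Tendsto (fun j => |(u (φ j)).det|) atTop (𝓝 |w.det|) :=
      ((continuous_abs.comp H715R2.continuous_det').tendsto w).comp hlim
    have h2 : (fun j => |(u (φ j)).det|) = fun _ => V := by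
      funext j
      exact (huY (φ j)).1
    rw [h2] at h1
    exact tendsto_nhds_unique h1 tendsto_const_nhds
  have hwdet : w.det ≠ 0 := by
    intro h0
    rw [h0, abs_zero] at hwdet'
    exact hV.ne hwdet'
  have hwν : HasNu w ν := by
    intro x hx
    have h1 : Tendsto (fun j => |FF (u (φ j)) (iR x)|) atTop (𝓝 |FF w (iR x)|) :=
      ((continuous_abs.comp (continuous_FF (iR x))).tendsto w).comp hlim
    exact ge_of_tendsto' h1 fun j => (huY (φ j)).2 x hx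
  -- the forms in the orbits
  have huint : ∀ j, ¬ PropInt (u j) := by
    intro j hP
    apply hgint j
    have h1 := Pool.Agent.Q64.IG.PropInt.trans hP (a := fun i => (b j i)⁻¹) (by
      rw [Finset.prod_inv_distrib, hb1 j, inv_one]; exact one_ne_zero) (γ j)⁻¹
    have h2 : diagonal (fun i => (b j i)⁻¹) * u j * zR (γ j)⁻¹ = g j := by
      have h3 : diagonal (fun i => (b j i)⁻¹) * diagonal (b j) = 1 := by
        rw [diagonal_mul_diagonal, ← diagonal_one]
        congr 1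
        funext i
        exact inv_mul_cancel₀ (hb0 j i).ne'
      have h4 : zR (γ j) * zR (γ j)⁻¹ = 1 := by
        rw [← zR_mul, Matrix.mul_nonsing_inv _ (hγ j), zR_one]
      calc diagonal (fun i => (b j i)⁻¹) * (diagonal (b j) * g j * zR (γ j)) * zR (γ j)⁻¹
          = (diagonal (fun i => (b j i)⁻¹) * diagonal (b j)) * g j * (zR (γ j) * zR (γ j)⁻¹) := by
            simp only [Matrix.mul_assoc]
        _ = g j := by rw [h3, h4, Matrix.one_mul, Matrix.mul_one]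
    rwa [h2] at h1
  have hwint : ¬ PropInt w := by
    intro hP
    obtain ⟨j, hj⟩ := Pool.Agent.Q64.IG.iso_propInt hd hwdet hν (u ∘ φ)
      (fun j => (huY _).2) hlim hP
    exact huint _ hj
  -- the transformed points
  have hmulinv : ∀ j (x : Fin d → ℤ), γ j *ᵥ ((γ j)⁻¹ *ᵥ x) = x := fun j x => by
    rw [mulVec_mulVec, Matrix.mul_nonsing_inv _ (hγ j), one_mulVec]
  have hinj : ∀ j, Function.Injective fun x : Fin d → ℤ => (γ j)⁻¹ *ᵥ x := by
    intro j x y hxy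
    simp only at hxy
    rw [← hmulinv j x, hxy, hmulinv j y]
  have hcoord : ∀ j (x : Fin d → ℤ) i, |(u j *ᵥ iR ((γ j)⁻¹ *ᵥ x)) i| =
      b j i * |(g j *ᵥ iR x) i| := by
    intro j x i
    rw [hu]
    simp only
    rw [← mulVec_mulVec, zR_mulVec_iR, hmulinv, ← mulVec_mulVec, mulVec_diagonal, abs_mul,
      abs_of_pos (hb0 _ i)]
  have hFF : ∀ j (x : Fin d → ℤ), FF (u j) (iR ((γ j)⁻¹ *ᵥ x)) = FF (g j) (iR x) := by
    intro j x
    rw [hu]
    simp only
    rw [FF_orb (hb1 _), hmulinv]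
  have hRPu : ∀ j, ∀ x ∈ P j, (γ j)⁻¹ *ᵥ x ∈ RP (u j) θ C (Set.Icc 0 R) := by
    intro j x hx
    obtain ⟨hx0, t, ht, hxt⟩ := hPr j x hx
    refine ⟨?_, t - t₀ j, ⟨by linarith [ht.1], by linarith [ht.2]⟩, fun i => ?_⟩
    · intro h0
      apply hx0
      rw [← hmulinv j x, h0, mulVec_zero]
    · rw [hcoord]
      have h1 : C * Real.exp ((t - t₀ j) * θ i) = b j i * (C * Real.exp (t * θ i)) := by
        rw [hb]
        simp only
        rw [show (t - t₀ j) * θ i = -(t₀ j * θ i) + t * θ i by ring, Real.exp_add]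
        ring
      rw [h1]
      exact mul_le_mul_of_nonneg_left (hxt i) (hb0 j i).le
  set Θ : ℝ := ∑ i, |θ i| with hΘ
  have hΘ0 : 0 ≤ Θ := Finset.sum_nonneg fun i _ => abs_nonneg _
  have hle : ∀ t ∈ Set.Icc (0 : ℝ) R, ∀ i, |t * θ i| ≤ R * Θ := by
    intro t ht i
    rw [abs_mul, abs_of_nonneg ht.1]
    exact mul_le_mul ht.2 (Finset.single_le_sum (f := fun i => |θ i|)
      (fun i _ => abs_nonneg _) (Finset.mem_univ i)) (abs_nonneg _) hR
  obtain ⟨B, hB⟩ := pt_bound (d := d) hV R₀ (C * Real.exp (R * Θ))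
  have hfin : {x : Fin d → ℤ | ∀ j, |(x j : ℝ)| ≤ B}.Finite := box_finite B
  have hsub : ∀ j, (P j).image (fun x => (γ j)⁻¹ *ᵥ x) ∈ hfin.toFinset.powerset := by
    intro j
    rw [Finset.mem_powerset]
    intro y hy
    obtain ⟨x, hx, rfl⟩ := Finset.mem_image.1 hy
    rw [Set.Finite.mem_toFinset]
    obtain ⟨-, t, ht, hxt⟩ := hRPu j x hx
    refine hB (u j) (hγR j) (huY j).1 (iR ((γ j)⁻¹ *ᵥ x)) fun i => (hxt i).trans ?_
    exact mul_le_mul_of_nonneg_left (Real.exp_le_exp.2 ((le_abs_self _).trans (hle t ht i))) hC.le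
  -- each finite set is eventually excluded
  have hFlim : ∀ x : Fin d → ℤ, Tendsto (fun j => FF (u (φ j)) (iR x)) atTop (𝓝 (FF w (iR x))) :=
    fun x => ((continuous_FF (iR x)).tendsto w).comp hlim
  have hclim : ∀ (x : Fin d → ℤ) (i : Fin d),
      Tendsto (fun j => |(u (φ j) *ᵥ iR x) i|) atTop (𝓝 |(w *ᵥ iR x) i|) := by
    intro x i
    have h1 : Continuous fun h : Matrix (Fin d) (Fin d) ℝ => |(h *ᵥ iR x) i| := by
      have h2 : Continuous fun h : Matrix (Fin d) (Fin d) ℝ => (h *ᵥ iR x) i := by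
        unfold mulVec dotProduct
        fun_prop
      exact h2.abs
    exact (h1.tendsto w).comp hlim
  have hnot : ∀ A ∈ hfin.toFinset.powerset,
      ∀ᶠ j in atTop, (P (φ j)).image (fun x => (γ (φ j))⁻¹ *ᵥ x) ≠ A := by
    intro A _
    by_cases hAc : A.card = N + 1
    swap
    · refine Filter.Eventually.of_forall fun j hj => hAc ?_
      rw [← hj, Finset.card_image_of_injective _ (hinj _), hPc]
    by_cases hA : ∀ x ∈ A, x ∈ RP w θ (C + 1) Set.univ
    · -- a pair with irrational quotient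
      have hpair : ∃ x ∈ A, ∃ y ∈ A, Irrational (FF w (iR x) / FF w (iR y)) := by
        by_contra hcon2
        push Not at hcon2
        have h1 := few_comm (C := C + 1) hν hwν (hN w hwdet hwν).2 hwint A hA
          (fun x hx y hy => by
            have h2 := hcon2 x hx y hy
            unfold Irrational at h2
            rw [not_not] at h2
            obtain ⟨q, hq⟩ := h2
            exact ⟨q, by rw [hq, div_mul_cancel₀ _ (ff_ne hν hwν (hA y hy).1)]⟩)
        omega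
      obtain ⟨x, hx, y, hy, hirr⟩ := hpair
      obtain ⟨δ, hδ, hδs⟩ := irr_away hirr Q
      have hyne := ff_ne hν hwν (hA y hy).1
      have hr : Tendsto (fun j => FF (u (φ j)) (iR x) / FF (u (φ j)) (iR y)) atTop
          (𝓝 (FF w (iR x) / FF w (iR y))) := (hFlim x).div (hFlim y) hyne
      have h1 : ∀ᶠ j in atTop, |FF (u (φ j)) (iR x) / FF (u (φ j)) (iR y) -
          FF w (iR x) / FF w (iR y)| ≤ δ := by
        have h2 := hr.eventually (Metric.closedBall_mem_nhds _ hδ)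
        refine h2.mono fun j hj => ?_
        rw [← Real.dist_eq]
        exact hj
      have h2 : ∀ᶠ j : ℕ in atTop, 1 / (((φ j : ℕ) : ℝ) + 1) ≤ ν * δ := by
        have h3 : Tendsto (fun j : ℕ => 1 / (((φ j : ℕ) : ℝ) + 1)) atTop (𝓝 0) :=
          tendsto_one_div_add_atTop_nhds_zero_nat.comp hφ.tendsto_atTop
        have h4 := h3.eventually (gt_mem_nhds (by positivity : (0 : ℝ) < ν * δ))
        exact h4.mono fun j hj => hj.le
      filter_upwards [h1, h2] with j hj1 hj2 hPA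
      rw [← hPA] at hx hy
      obtain ⟨x', hx', rfl⟩ := Finset.mem_image.1 hx
      obtain ⟨y', hy', rfl⟩ := Finset.mem_image.1 hy
      obtain ⟨p, q, hq1, hqQ, hpq⟩ := hPn (φ j) x' hx' y' hy'
      have hy0 : (γ (φ j))⁻¹ *ᵥ y' ≠ 0 := (hRPu (φ j) y' hy').1
      have hyn := ff_ne hν (huY (φ j)).2 hy0
      have h5 := hδs _ hj1 p q hq1 hqQ
      rw [← hFF (φ j) x', ← hFF (φ j) y'] at hpq
      have h6 : q * FF (u (φ j)) (iR ((γ (φ j))⁻¹ *ᵥ x')) -
          p * FF (u (φ j)) (iR ((γ (φ j))⁻¹ *ᵥ y')) =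
          FF (u (φ j)) (iR ((γ (φ j))⁻¹ *ᵥ y')) *
            (q * (FF (u (φ j)) (iR ((γ (φ j))⁻¹ *ᵥ x')) /
              FF (u (φ j)) (iR ((γ (φ j))⁻¹ *ᵥ y'))) - p) := by
        field_simp
      rw [h6, abs_mul] at hpq
      have h7 := mul_le_mul ((huY (φ j)).2 _ hy0) h5 hδ.le (abs_nonneg _)
      linarith
    · -- a point outside
      push Not at hA
      obtain ⟨x, hx, hxR⟩ := hA
      have h1 : ∀ᶠ j in atTop, ∀ i, |(w *ᵥ iR x) i| < |(u (φ j) *ᵥ iR x) i| +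
          Real.exp (-(R * Θ)) := by
        refine Filter.eventually_all.2 fun i => ?_
        have h2 := (hclim x i).eventually (lt_mem_nhds
          (by linarith [Real.exp_pos (-(R * Θ))] :
            |(w *ᵥ iR x) i| - Real.exp (-(R * Θ)) < |(w *ᵥ iR x) i|))
        exact h2.mono fun j hj => by linarith
      filter_upwards [h1] with j hj hPA
      apply hxR
      rw [← hPA] at hx
      obtain ⟨x', hx', rfl⟩ := Finset.mem_image.1 hx
      obtain ⟨h0, t, ht, hxt⟩ := hRPu (φ j) x' hx'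
      refine ⟨h0, t, Set.mem_univ _, fun i => ?_⟩
      have h3 : Real.exp (-(R * Θ)) ≤ Real.exp (t * θ i) :=
        Real.exp_le_exp.2 (by linarith [neg_abs_le (t * θ i), hle t ht i])
      have h4 := hj i
      have h5 := hxt i
      have h6 : (C + 1) * Real.exp (t * θ i) = C * Real.exp (t * θ i) + Real.exp (t * θ i) := by
        ring
      linarith
  obtain ⟨j, hj⟩ := ((Filter.eventually_all_finset _).2 hnot).exists
  exact hj _ (hsub (φ j)) rfl

end Pool.Agent.Q118.VC
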