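import Mathlib
import Pool.Agent.Q118.VC.Pack

/-!
# Counting in boxes
-/

set_option autoImplicit false

open MvPolynomial Matrix Filter Topology

namespace Pool.Agent.Q118.VC

open H715R2

variable {d : ℕ}

/-- The number of integer points of a cube at which the sum of the coordinates has a value in a
given finite set. -/
lemma slab0_card (i : Fin d) (M : ℕ) (I₀ : Finset ℤ) (S : Finset (Fin d → ℤ))
    (hS : ∀ m ∈ S, (∀ k, |m k| ≤ (M : ℤ)) ∧ ∑ k, m k ∈ I₀) :
    S.card ≤ I₀.card * (2 * M + 1) ^ (d - 1) := by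
  classical
  set Q : Finset (Fin d) := ({i} : Finset (Fin d))ᶜ with hQ
  have hQc : Q.card = d - 1 := by
    rw [hQ, Finset.card_compl, Finset.card_singleton, Fintype.card_fin]
  set B : Finset (Q → ℤ) := Fintype.piFinset fun _ => Finset.Icc (-(M : ℤ)) M with hB
  have hBc : B.card = (2 * M + 1) ^ (d - 1) := by
    rw [hB, Fintype.card_piFinset, Finset.prod_const, Finset.card_univ, Fintype.card_coe, hQc,
      Int.card_Icc]
    congr 1
    omega
  have h1 : S.card ≤ (I₀ ×ˢ B).card := by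
    refine Finset.card_le_card_of_injOn
      (fun m => (∑ k, m k, fun q : Q => m q)) (fun m hm => ?_) ?_
    · obtain ⟨h1, h2⟩ := hS m hm
      rw [Finset.mem_coe, Finset.mem_product]
      refine ⟨h2, Fintype.mem_piFinset.2 fun q => ?_⟩
      rw [Finset.mem_Icc]
      exact abs_le.1 (h1 q)
    · intro m _ m' _ h
      simp only [Prod.mk.injEq] at h
      obtain ⟨h2, h4⟩ := h
      have hz : ∀ k, k ≠ i → m k - m' k = 0 := by
        intro k hk
        have hkQ : k ∈ Q := by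
          rw [hQ, Finset.mem_compl, Finset.mem_singleton]
          exact hk
        have := congrFun h4 ⟨k, hkQ⟩
        simp only at this
        rw [this, sub_self]
      have h5 : m i - m' i = 0 := by
        rw [← Fintype.sum_eq_single i (f := fun k => m k - m' k) hz, Finset.sum_sub_distrib, h2,
          sub_self]
      funext k
      by_cases hki : k = i
      · rw [hki]; linarith
      · linarith [hz k hki]
  rw [Finset.card_product, hBc] at h1
  exact h1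

/-- **The total number of points with small value.** -/
theorem total_R (hd : 0 < d) {ν T : ℝ} (hν : 0 < ν) (hνT : ν ≤ T) :
    ∃ C : ℝ, 0 < C ∧ ∀ g : Matrix (Fin d) (Fin d) ℝ, HasNu g ν → ∀ R : ℝ, 0 ≤ R →
      ∀ S : Finset (Fin d → ℤ), (∀ x ∈ S, x ≠ 0 ∧ |FF g (iR x)| < T ∧
        ∀ i, |(Real.log |(g *ᵥ iR x) i|)| ≤ R) → (S.card : ℝ) ≤ C * (1 + R) ^ (d - 1) := by
  classical
  have hT : 0 < T := hν.trans_le hνT
  set η := Real.log (1 + ν / T) with hη
  have hη0 : 0 < η := Real.log_pos (by linarith [div_pos hν hT])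
  set N₀ : ℕ := ⌊Real.log T / η - (Real.log ν / η - d)⌋₊ + 1 with hN₀
  have hN₀0 : (0 : ℝ) < N₀ := by rw [hN₀]; positivity
  refine ⟨2 ^ d * (N₀ * (5 + 2 / η) ^ (d - 1)), by positivity, ?_⟩
  intro g hnu R hR S hS
  have hF0 : ∀ x ∈ S, FF g (iR x) ≠ 0 := fun x hx => ff_ne hν hnu (hS x hx).1
  set M : ℕ := ⌈R / η⌉₊ + 1 with hM
  set I₀ : Finset ℤ := Finset.Icc ⌈Real.log ν / η - d⌉ ⌊Real.log T / η⌋ with hI₀
  have hI₀c : I₀.card ≤ N₀ := by
    refine card_Icc_le _ _ ?_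
    have h1 : Real.log ν / η ≤ Real.log T / η :=
      div_le_div_of_nonneg_right (Real.log_le_log hν hνT) hη0.le
    have h2 : (0 : ℝ) ≤ d := Nat.cast_nonneg d
    linarith
  have hslab : (S.image (fl η g)).card ≤ I₀.card * (2 * M + 1) ^ (d - 1) := by
    refine slab0_card ⟨0, hd⟩ M I₀ _ ?_
    intro m hm
    obtain ⟨x, hx, rfl⟩ := Finset.mem_image.1 hm
    obtain ⟨hx0, hxT, hxR⟩ := hS x hx
    set t : Fin d → ℝ := fun i => Real.log |(g *ᵥ iR x) i| / η with ht
    have hfl : ∀ i, ((fl η g x i : ℤ) : ℝ) ≤ t i ∧ t i < (fl η g x i : ℤ) + 1 := fun i =>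
      ⟨Int.floor_le _, Int.lt_floor_add_one _⟩
    have htsum : ∑ i, t i = Real.log |FF g (iR x)| / η := by
      rw [ht, ← Finset.sum_div, sum_log (hF0 x hx)]
    refine ⟨fun k => ?_, ?_⟩
    · refine abs_floor_le _ _ ?_
      rw [abs_div, abs_of_pos hη0, hM]
      push_cast
      have h1 := Nat.le_ceil (R / η)
      have h2 := div_le_div_of_nonneg_right (hxR k) hη0.le
      linarith
    · rw [hI₀, Finset.mem_Icc, Int.ceil_le, Int.le_floor]
      push_cast
      have h1 : ∑ i, ((fl η g x i : ℤ) : ℝ) ≤ ∑ i, t i := Finset.sum_le_sum fun i _ => (hfl i).1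
      have h2 : ∑ i, t i ≤ ∑ i, (((fl η g x i : ℤ) : ℝ) + 1) :=
        Finset.sum_le_sum fun i _ => (hfl i).2.le
      rw [Finset.sum_add_distrib, Finset.sum_const, Finset.card_univ, Fintype.card_fin,
        nsmul_eq_mul, mul_one] at h2
      have h3 : Real.log ν / η ≤ Real.log |FF g (iR x)| / η :=
        div_le_div_of_nonneg_right (Real.log_le_log hν (hnu x hx0)) hη0.le
      have h4 : Real.log |FF g (iR x)| / η ≤ Real.log T / η :=
        div_le_div_of_nonneg_right (Real.log_le_log (abs_pos.2 (hF0 x hx)) hxT.le) hη0.le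
      constructor <;> linarith
  have hinj : S.card ≤ ((Finset.univ : Finset (Fin d → Bool)) ×ˢ (S.image (fl η g))).card := by
    refine Finset.card_le_card_of_injOn
      (fun x => (fun i => decide (0 < (g *ᵥ iR x) i), fl η g x)) (fun x hx => ?_) ?_
    · rw [Finset.mem_coe, Finset.mem_product]
      exact ⟨Finset.mem_univ _, Finset.mem_image_of_mem _ hx⟩
    · intro x hx y hy h
      simp only [Prod.mk.injEq] at h
      obtain ⟨h1, h2⟩ := h
      refine same_cell hd hν hνT hnu (hF0 x hx) (hF0 y hy) (hS y hy).2.1 (fun i => ?_)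
        (fun i => congrFun h2 i)
      have := congrFun h1 i
      simpa using this
  rw [Finset.card_product, Finset.card_univ, Fintype.card_fun, Fintype.card_bool,
    Fintype.card_fin] at hinj
  have h1 : S.card ≤ 2 ^ d * (N₀ * (2 * M + 1) ^ (d - 1)) :=
    hinj.trans (Nat.mul_le_mul_left _ (hslab.trans (Nat.mul_le_mul_right _ hI₀c)))
  have h2 : (S.card : ℝ) ≤ 2 ^ d * (N₀ * (2 * ((⌈R / η⌉₊ : ℝ) + 1) + 1) ^ (d - 1)) := by
    have h3 : (S.card : ℝ) ≤ ((2 ^ d * (N₀ * (2 * M + 1) ^ (d - 1)) : ℕ) : ℝ) := by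
      exact_mod_cast h1
    rw [hM] at h3
    push_cast at h3
    exact h3
  have h3 : 2 * ((⌈R / η⌉₊ : ℝ) + 1) + 1 ≤ (5 + 2 / η) * (1 + R) := by
    have h4 := Nat.ceil_lt_add_one (div_nonneg hR hη0.le)
    have h5 : (5 + 2 / η) * (1 + R) = 5 + 5 * R + 2 / η + 2 * (R / η) := by
      field_simp
      ring
    rw [h5]
    have h6 : 0 < 2 / η := by positivity
    linarith
  refine h2.trans ?_
  calc (2 : ℝ) ^ d * (N₀ * (2 * ((⌈R / η⌉₊ : ℝ) + 1) + 1) ^ (d - 1))
      ≤ 2 ^ d * (N₀ * ((5 + 2 / η) * (1 + R)) ^ (d - 1)) := by gcongr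
    _ = _ := by rw [mul_pow]; ring

/-- the logarithms of the linear forms at the points of a box -/
lemma log_box {g : Matrix (Fin d) (Fin d) ℝ} {ν : ℝ} (hν : 0 < ν) (hnu : HasNu g ν)
    {A X : ℝ} (hA : 1 ≤ A) (hX : 1 ≤ X) (hg : ∀ i j, |g i j| ≤ A) {x : Fin d → ℤ} (hx : x ≠ 0)
    (hxX : ∀ j, |(x j : ℝ)| ≤ X) (i : Fin d) :
    |(Real.log |(g *ᵥ iR x) i|)| ≤ |Real.log ν| + d * Real.log (d * (A * X)) := by
  have hF0 := ff_ne hν hnu hx
  have hpos : ∀ i, 0 < |(g *ᵥ iR x) i| := fun i => abs_pos.2 (coord_ne hF0 i)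
  have hd1 : (1 : ℝ) ≤ d := by exact_mod_cast i.pos
  have hAX : 1 ≤ A * X := by nlinarith
  have hdAX : 1 ≤ d * (A * X) := by nlinarith
  have hL0 : 0 ≤ Real.log (d * (A * X)) := Real.log_nonneg hdAX
  have hup : ∀ i, |(g *ᵥ iR x) i| ≤ d * (A * X) := by
    intro i
    rw [mulVec, dotProduct]
    refine (Finset.abs_sum_le_sum_abs _ _).trans ?_
    have h1 : ∀ j ∈ (Finset.univ : Finset (Fin d)), |g i j * iR x j| ≤ A * X := by
      intro j _
      rw [abs_mul]
      exact mul_le_mul (hg i j) (hxX j) (abs_nonneg _) (by linarith)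
    refine (Finset.sum_le_sum h1).trans (le_of_eq ?_)
    rw [Finset.sum_const, Finset.card_univ, Fintype.card_fin, nsmul_eq_mul]
  have hlogup : ∀ i, Real.log |(g *ᵥ iR x) i| ≤ Real.log (d * (A * X)) := fun i =>
    Real.log_le_log (hpos i) (hup i)
  have hν' : Real.log ν ≤ ∑ i, Real.log |(g *ᵥ iR x) i| := by
    rw [sum_log hF0]
    exact Real.log_le_log hν (hnu x hx)
  have h1 : ∑ j ∈ Finset.univ.erase i, Real.log |(g *ᵥ iR x) j| ≤
      ∑ _j ∈ Finset.univ.erase i, Real.log (d * (A * X)) := Finset.sum_le_sum fun j _ => hlogup j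
  rw [Finset.sum_const, Finset.card_erase_of_mem (Finset.mem_univ i),
    Finset.card_univ, Fintype.card_fin, nsmul_eq_mul] at h1
  have h3 := Finset.add_sum_erase Finset.univ (fun j => Real.log |(g *ᵥ iR x) j|)
    (Finset.mem_univ i)
  have h4 : ((d - 1 : ℕ) : ℝ) * Real.log (d * (A * X)) ≤ (d : ℝ) * Real.log (d * (A * X)) :=
    mul_le_mul_of_nonneg_right (by exact_mod_cast Nat.sub_le d 1) hL0
  have h5 : Real.log (d * (A * X)) ≤ (d : ℝ) * Real.log (d * (A * X)) := by nlinarith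
  have h6 := hlogup i
  have h7 := neg_abs_le (Real.log ν)
  have h8 := abs_nonneg (Real.log ν)
  rw [abs_le]
  constructor
  · linarith
  · linarith

lemma one_add_log_box (hd : 0 < d) (ν : ℝ) : ∃ B : ℝ, 1 ≤ B ∧ ∀ A X : ℝ, 1 ≤ A → 1 ≤ X →
    1 + (|Real.log ν| + d * Real.log (d * (A * X))) ≤ B * (1 + Real.log (A * X)) := by
  have hd1 : (1 : ℝ) ≤ d := by exact_mod_cast hd
  have hlogd : 0 ≤ Real.log d := Real.log_nonneg hd1
  refine ⟨1 + |Real.log ν| + d * Real.log d + d, ?_, fun A X hA hX => ?_⟩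
  · have h1 := abs_nonneg (Real.log ν)
    have h2 : 0 ≤ (d : ℝ) * Real.log d := by positivity
    linarith
  · have hAX : 1 ≤ A * X := by nlinarith
    have hL : 0 ≤ Real.log (A * X) := Real.log_nonneg hAX
    rw [Real.log_mul (by linarith) (by linarith)]
    have h1 := abs_nonneg (Real.log ν)
    have h2 : 0 ≤ (d : ℝ) * Real.log d := by positivity
    have h3 : (1 + |Real.log ν| + d * Real.log d + d) * (1 + Real.log (A * X)) =
      1 + |Real.log ν| + d * Real.log d + d + (1 + |Real.log ν| + d * Real.log d) *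
        Real.log (A * X) + d * Real.log (A * X) := by ring
    rw [h3]
    have h4 : 0 ≤ (1 + |Real.log ν| + d * Real.log d) * Real.log (A * X) := by positivity
    linarith

/-- **Points in a box on a hypersurface.** -/
theorem upper_box (hd : 0 < d) {ν : ℝ} (hν : 0 < ν) (T : ℝ) (D : ℕ) :
    ∃ C : ℝ, 0 < C ∧ ∀ g : Matrix (Fin d) (Fin d) ℝ, g.det ≠ 0 → HasNu g ν →
      ∀ A X : ℝ, 1 ≤ A → 1 ≤ X → (∀ i j, |g i j| ≤ A) →
      ((PS g (Set.Ioo (-T) T) X).ncard : ℝ) ≤ C * (1 + Real.log (A * X)) ^ (d - 1) ∧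
      ∀ G : MvPolynomial (Fin d) ℝ, G ≠ 0 → G.IsHomogeneous D →
        (({x | x ∈ PS g (Set.Ioo (-T) T) X ∧ eval (iR x) G = 0}).ncard : ℝ) ≤
          C * (1 + Real.log (A * X)) ^ (d - 2) := by
  classical
  obtain ⟨C₁, hC₁, h1⟩ := upper_R hd hν (le_max_left ν T) D
  obtain ⟨C₂, hC₂, h2⟩ := total_R hd hν (le_max_left ν T)
  obtain ⟨B, hB, hlog⟩ := one_add_log_box hd ν
  have hB0 : 0 < B := by linarith
  refine ⟨max (C₁ * B ^ (d - 2)) (C₂ * B ^ (d - 1)), lt_max_of_lt_left (by positivity),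
    fun g hg hnu A X hA hX hgA => ?_⟩
  have hAX : 1 ≤ A * X := by nlinarith
  have hL : 0 ≤ 1 + Real.log (A * X) := by linarith [Real.log_nonneg hAX]
  have hd1 : (1 : ℝ) ≤ d := by exact_mod_cast hd
  have hR : 0 ≤ |Real.log ν| + d * Real.log (d * (A * X)) := by
    have h3 : 1 ≤ d * (A * X) := by nlinarith
    have := Real.log_nonneg h3
    positivity
  have key : ∀ x ∈ PS g (Set.Ioo (-T) T) X, x ≠ 0 ∧ |FF g (iR x)| < max ν T ∧
      ∀ i, |(Real.log |(g *ᵥ iR x) i|)| ≤ |Real.log ν| + d * Real.log (d * (A * X)) := by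
    intro x hx
    exact ⟨hx.1, (abs_lt.2 hx.2.2).trans_le (le_max_right _ _),
      fun i => log_box hν hnu hA hX hgA hx.1 hx.2.1 i⟩
  have hfin := PS_finite g (Set.Ioo (-T) T) X
  refine ⟨?_, fun G hG0 hG => ?_⟩
  · rw [Set.ncard_eq_toFinset_card _ hfin]
    refine (h2 g hnu _ hR hfin.toFinset fun x hx => key x (hfin.mem_toFinset.1 hx)).trans ?_
    calc C₂ * (1 + (|Real.log ν| + d * Real.log (d * (A * X)))) ^ (d - 1)
        ≤ C₂ * (B * (1 + Real.log (A * X))) ^ (d - 1) := by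
          refine mul_le_mul_of_nonneg_left ?_ hC₂.le
          exact pow_le_pow_left₀ (by positivity) (hlog A X hA hX) _
      _ = C₂ * B ^ (d - 1) * (1 + Real.log (A * X)) ^ (d - 1) := by rw [mul_pow]; ring
      _ ≤ _ := mul_le_mul_of_nonneg_right (le_max_right _ _) (pow_nonneg hL _)
  · have hfin2 : {x | x ∈ PS g (Set.Ioo (-T) T) X ∧ eval (iR x) G = 0}.Finite :=
      hfin.subset fun x hx => hx.1
    rw [Set.ncard_eq_toFinset_card _ hfin2]
    refine (h1 g hg hnu G hG0 hG _ hR hfin2.toFinset fun x hx => ?_).trans ?_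
    · have hx' := hfin2.mem_toFinset.1 hx
      obtain ⟨h3, h4, h5⟩ := key x hx'.1
      exact ⟨h3, h4, hx'.2, h5⟩
    calc C₁ * (1 + (|Real.log ν| + d * Real.log (d * (A * X)))) ^ (d - 2)
        ≤ C₁ * (B * (1 + Real.log (A * X))) ^ (d - 2) := by
          refine mul_le_mul_of_nonneg_left ?_ hC₁.le
          exact pow_le_pow_left₀ (by positivity) (hlog A X hA hX) _
      _ = C₁ * B ^ (d - 2) * (1 + Real.log (A * X)) ^ (d - 2) := by rw [mul_pow]; ring
      _ ≤ _ := mul_le_mul_of_nonneg_right (le_max_left _ _) (pow_nonneg hL _)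

/-- the lower bound, in terms of the dimension -/
theorem lower' (hd : 2 ≤ d) {V ν : ℝ} (hV : 0 < V) (hν : 0 < ν)
    {Y : Set (Matrix (Fin d) (Fin d) ℝ)} (hYc : IsClosed Y) (hYinv : H715R2.Inv Y)
    (hYdet : ∀ h ∈ Y, |h.det| = V) (hYnu : ∀ h ∈ Y, HasNu h ν) {S : Set ℝ} (hSo : IsOpen S)
    (hS : ∀ h ∈ Y, ∃ m : Fin d → ℤ, m ≠ 0 ∧ FF h (iR m) ∈ S) :
    ∃ C : ℝ, 1 ≤ C ∧ ∀ D : ℕ, ∃ κ : ℝ, 0 < κ ∧ ∀ g ∈ Y, ∀ G : ℝ, (∀ i j, |g⁻¹ i j| ≤ G) →
      ∀ X : ℝ, C * (1 + G) ^ 2 ≤ X →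
      κ * Real.log X ^ (d - 1) ≤ ((PS g S X).ncard : ℝ) ∧
      ∀ 𝓖 : Finset (MvPolynomial (Fin d) ℝ), (∀ G ∈ 𝓖, G ≠ 0 ∧ G.IsHomogeneous D) →
        (𝓖.card : ℝ) < κ * Real.log X → ∃ x ∈ PS g S X, ∀ G ∈ 𝓖, eval (iR x) G ≠ 0 := by
  obtain ⟨e, rfl⟩ : ∃ e, d = e + 1 := ⟨d - 1, by omega⟩
  exact lower (by omega) hV hν hYc hYinv hYdet hYnu hSo hS

/-- every value of a form proportional to an integral form is taken often -/
theorem periodic_growth (hd : 2 ≤ d) {g : Matrix (Fin d) (Fin d) ℝ} (hg : g.det ≠ 0) {ν : ℝ}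
    (hν : 0 < ν) (hnu : HasNu g ν) (hP : PropInt g) {x₀ : Fin d → ℤ} (hx₀ : x₀ ≠ 0) :
    ∃ κ : ℝ, 0 < κ ∧ ∃ X₀ : ℝ, ∀ X : ℝ, X₀ ≤ X → κ * Real.log X ^ (d - 1) ≤
      (({x : Fin d → ℤ | (∀ j, |(x j : ℝ)| ≤ X) ∧ FF g (iR x) = FF g (iR x₀)}).ncard : ℝ) := by
  obtain ⟨hYc, hYinv, hYdet, hYnu, S, hSo, hS, hval⟩ :=
    periodic_data (by omega : 0 < d) hg hν hnu hP hx₀
  obtain ⟨C, hC, h⟩ := lower' hd (abs_pos.2 hg) hν hYc hYinv hYdet hYnu hSo hS
  obtain ⟨κ, hκ, h⟩ := h 0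
  set G : ℝ := ∑ i, ∑ j, |g⁻¹ i j| with hG
  have hGb : ∀ i j, |g⁻¹ i j| ≤ G := by
    intro i j
    have h1 := Finset.single_le_sum (f := fun j => |g⁻¹ i j|) (fun _ _ => abs_nonneg _)
      (Finset.mem_univ j)
    have h2 := Finset.single_le_sum (f := fun i => ∑ j, |g⁻¹ i j|)
      (fun _ _ => Finset.sum_nonneg fun _ _ => abs_nonneg _) (Finset.mem_univ i)
    exact h1.trans h2
  refine ⟨κ, hκ, C * (1 + G) ^ 2, fun X hX => ?_⟩
  refine (h g (mem_orb_self g) G hGb X hX).1.trans ?_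
  have h1 : PS g S X ⊆ {x : Fin d → ℤ | (∀ j, |(x j : ℝ)| ≤ X) ∧ FF g (iR x) = FF g (iR x₀)} :=
    fun x hx => ⟨hx.2.1, hval x hx.2.2⟩
  exact_mod_cast Set.ncard_le_ncard h1 ((box_finite X).subset fun x hx => hx.1)

/-- no value of any other form is taken often -/
theorem single_upper (hd : 2 ≤ d) {g : Matrix (Fin d) (Fin d) ℝ} (hg : g.det ≠ 0) {ν : ℝ}
    (hν : 0 < ν) (hnu : HasNu g ν) (hP : ¬ PropInt g) (t : ℝ) :
    ∃ C : ℝ, ∀ X : ℝ, 2 ≤ X →
      (({x : Fin d → ℤ | (∀ j, |(x j : ℝ)| ≤ X) ∧ FF g (iR x) = t}).ncard : ℝ) ≤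
        C * Real.log X ^ (d - 2) := by
  classical
  obtain ⟨C, hC, h⟩ := upper_box (by omega : 0 < d) hν (|t| + 1) d
  set A : ℝ := 1 + ∑ i, ∑ j, |g i j| with hA
  have hA1 : 1 ≤ A := by
    rw [hA]
    have : 0 ≤ ∑ i, ∑ j, |g i j| :=
      Finset.sum_nonneg fun _ _ => Finset.sum_nonneg fun _ _ => abs_nonneg _
    linarith
  have hAb : ∀ i j, |g i j| ≤ A := by
    intro i j
    have h1 := Finset.single_le_sum (f := fun j => |g i j|) (fun _ _ => abs_nonneg _)
      (Finset.mem_univ j)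
    have h2 := Finset.single_le_sum (f := fun i => ∑ j, |g i j|)
      (fun _ _ => Finset.sum_nonneg fun _ _ => abs_nonneg _) (Finset.mem_univ i)
    rw [hA]
    exact (h1.trans h2).trans (by linarith)
  have hlog2 : 0 < Real.log 2 := Real.log_pos (by norm_num)
  have hlogA : 0 ≤ Real.log A := Real.log_nonneg hA1
  set B : ℝ := (1 + Real.log A) / Real.log 2 + 1 with hB
  have hB0 : 0 < B := by positivity
  have hlog : ∀ X : ℝ, 2 ≤ X → 1 + Real.log (A * X) ≤ B * Real.log X := by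
    intro X hX
    have h1 : Real.log 2 ≤ Real.log X := Real.log_le_log (by norm_num) hX
    rw [Real.log_mul (by linarith) (by linarith), hB, add_mul, one_mul]
    have h2 : 1 + Real.log A ≤ (1 + Real.log A) / Real.log 2 * Real.log X := by
      rw [div_mul_eq_mul_div, le_div_iff₀ hlog2]
      exact mul_le_mul_of_nonneg_left h1 (by linarith)
    linarith
  by_cases ht : t = 0
  · refine ⟨1 / Real.log 2 ^ (d - 2), fun X hX => ?_⟩
    have h1 : {x : Fin d → ℤ | (∀ j, |(x j : ℝ)| ≤ X) ∧ FF g (iR x) = t} ⊆ {0} := by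
      rintro x ⟨-, hx⟩
      rw [Set.mem_singleton_iff]
      by_contra h0
      exact ff_ne hν hnu h0 (by rw [hx, ht])
    have h2 := Set.ncard_le_ncard h1 (Set.finite_singleton _)
    rw [Set.ncard_singleton] at h2
    have h3 : (({x : Fin d → ℤ | (∀ j, |(x j : ℝ)| ≤ X) ∧ FF g (iR x) = t}).ncard : ℝ) ≤ 1 := by
      exact_mod_cast h2
    refine h3.trans ?_
    rw [div_mul_eq_mul_div, one_mul, le_div_iff₀ (pow_pos hlog2 _), one_mul]
    exact pow_le_pow_left₀ hlog2.le (Real.log_le_log (by norm_num) hX) _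
  · obtain ⟨G, ⟨hG0, hG⟩, hGE⟩ := exists_hyp (polyF_homogeneous g)
      (E := Submodule.span ℚ {t}) (by
        by_contra hcon
        push Not at hcon
        refine hP (propInt_of_values ht fun x => ?_)
        have := hcon x
        rwa [eval_polyF] at this)
    refine ⟨C * B ^ (d - 2), fun X hX => ?_⟩
    have h1 := (h g hg hnu A X hA1 (by linarith) hAb).2 G hG0 hG
    have hsub : {x : Fin d → ℤ | (∀ j, |(x j : ℝ)| ≤ X) ∧ FF g (iR x) = t} ⊆
        {x | x ∈ PS g (Set.Ioo (-(|t| + 1)) (|t| + 1)) X ∧ eval (iR x) G = 0} := by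
      rintro x ⟨hx1, hx2⟩
      refine ⟨⟨?_, hx1, ?_⟩, ?_⟩
      · rintro rfl
        apply ht
        rw [← hx2]
        have h0 : iR (0 : Fin d → ℤ) = 0 := by
          funext i
          simp [iR]
        rw [h0]
        refine Finset.prod_eq_zero (Finset.mem_univ ⟨0, by omega⟩) ?_
        simp
      · rw [hx2]
        have := neg_abs_le t
        have := le_abs_self t
        constructor <;> linarith
      · apply hGE
        rw [eval_polyF]
        rw [Submodule.mem_span_singleton]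
        refine ⟨1, ?_⟩
        rw [one_smul]
        exact hx2.symm
    have hfin : {x | x ∈ PS g (Set.Ioo (-(|t| + 1)) (|t| + 1)) X ∧ eval (iR x) G = 0}.Finite :=
      (PS_finite g _ X).subset fun x hx => hx.1
    have h2 : (({x : Fin d → ℤ | (∀ j, |(x j : ℝ)| ≤ X) ∧ FF g (iR x) = t}).ncard : ℝ) ≤
        (({x | x ∈ PS g (Set.Ioo (-(|t| + 1)) (|t| + 1)) X ∧ eval (iR x) G = 0}).ncard : ℝ) := by
      exact_mod_cast Set.ncard_le_ncard hsub hfin
    refine h2.trans (h1.trans ?_)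
    have hAX : 1 ≤ A * X := by nlinarith
    calc C * (1 + Real.log (A * X)) ^ (d - 2) ≤ C * (B * Real.log X) ^ (d - 2) := by
          refine mul_le_mul_of_nonneg_left ?_ hC.le
          exact pow_le_pow_left₀ (by linarith [Real.log_nonneg hAX]) (hlog X hX) _
      _ = _ := by rw [mul_pow]; ring

end Pool.Agent.Q118.VC
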